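import Mathlib

/-!
# Riemannian metrics on the two-sphere, curvature and geodesics

All objects are elementary: the sphere is the unit sphere of `ℝ³`, a Riemannian metric on it is the
restriction to the tangent planes of a smooth field of symmetric matrices on `ℝ³`.
-/

set_option autoImplicit false

open scoped ContDiff

namespace Pool.Agent.H780.GC

/-- Three-dimensional space. -/
abbrev R3 : Type := Fin 3 → ℝ

/-- The standard scalar product of `ℝ³`. -/
def dot (v w : R3) : ℝ := v 0 * w 0 + v 1 * w 1 + v 2 * w 2

/-- The unit sphere `S²` of `ℝ³`.  Its tangent plane at `x` is `{v | dot x v = 0}`. -/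
def S2 : Set R3 := {x | dot x x = 1}

/-- A `C^∞` Riemannian metric on `S²`: the restriction to the tangent planes of `S²` of a smooth
field `x ↦ (a i j x)` of symmetric matrices on `ℝ³`, positive definite on each tangent plane.
(Every smooth Riemannian metric on `S²` is of this form.) -/
structure SphereMetric where
  /-- the coefficients -/
  a : Fin 3 → Fin 3 → R3 → ℝ
  smooth : ∀ i j, ContDiff ℝ ∞ (a i j)
  symm : ∀ i j x, a i j x = a j i x
  pos : ∀ x ∈ S2, ∀ v : R3, dot x v = 0 → v ≠ 0 → 0 < ∑ i, ∑ j, a i j x * v i * v j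

/-- First partial derivative (in the first variable) of a map defined on `ℝ²`. -/
noncomputable def pd1 {E : Type} [NormedAddCommGroup E] [NormedSpace ℝ E] (f : ℝ × ℝ → E)
    (p : ℝ × ℝ) : E := deriv (fun s : ℝ => f (s, p.2)) p.1

/-- First partial derivative (in the second variable) of a map defined on `ℝ²`. -/
noncomputable def pd2 {E : Type} [NormedAddCommGroup E] [NormedSpace ℝ E] (f : ℝ × ℝ → E)
    (p : ℝ × ℝ) : E := deriv (fun s : ℝ => f (p.1, s)) p.2

/-- The Gaussian curvature of the Riemannian metric `E du² + 2 F du dv + G dv²` on (an open set of)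
the plane, given by the formula of Brioschi. -/
noncomputable def brioschi (E F G : ℝ × ℝ → ℝ) (p : ℝ × ℝ) : ℝ :=
  (Matrix.det !![-(pd2 (pd2 E) p) / 2 + pd2 (pd1 F) p - pd1 (pd1 G) p / 2,
        pd1 E p / 2, pd1 F p - pd2 E p / 2;
      pd2 F p - pd1 G p / 2, E p, F p;
      pd2 G p / 2, F p, G p]
    - Matrix.det !![0, pd2 E p / 2, pd1 G p / 2;
      pd2 E p / 2, E p, F p;
      pd1 G p / 2, F p, G p]) / (E p * G p - F p ^ 2) ^ 2

/-- `X : U → S²` is a smooth local parametrization of `S²`: `U` is open in the plane, `X` is smooth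
on `U` with values in `S²`, and its partial derivatives are linearly independent at each point. -/
structure IsLocalParam (U : Set (ℝ × ℝ)) (X : ℝ × ℝ → R3) : Prop where
  isOpen : IsOpen U
  smooth : ContDiffOn ℝ ∞ X U
  mem : ∀ p ∈ U, X p ∈ S2
  indep : ∀ p ∈ U, LinearIndependent ℝ ![pd1 X p, pd2 X p]

namespace SphereMetric

variable (g : SphereMetric)

/-- The bilinear form of the metric at the point `x`. -/
noncomputable def ip (x v w : R3) : ℝ := ∑ i, ∑ j, g.a i j x * v i * w j

/-- The Gaussian curvature of the metric, in the local parametrization `X`, at the parameter `p`: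
the formula of Brioschi for the coefficients `E = g(X_u, X_u)`, `F = g(X_u, X_v)`,
`G = g(X_v, X_v)` of the metric in the parametrization.  By the Theorema Egregium it depends on the
point `X p` only. -/
noncomputable def curvature (X : ℝ × ℝ → R3) (p : ℝ × ℝ) : ℝ :=
  brioschi (fun q => g.ip (X q) (pd1 X q) (pd1 X q)) (fun q => g.ip (X q) (pd1 X q) (pd2 X q))
    (fun q => g.ip (X q) (pd2 X q) (pd2 X q)) p

/-- The metric has positive curvature: the Gaussian curvature is positive at every point of `S²`
(computed in some local parametrization around the point). -/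
def PositivelyCurved : Prop :=
  ∀ x ∈ S2, ∃ (U : Set (ℝ × ℝ)) (X : ℝ × ℝ → R3) (p : ℝ × ℝ),
    IsLocalParam U X ∧ p ∈ U ∧ X p = x ∧ 0 < g.curvature X p

/-- The unit tangent vectors of the metric at the point `x`. -/
def unitTangent (x : R3) : Set R3 := {v | dot x v = 0 ∧ g.ip x v v = 1}

/-- `γ : ℝ → S²` is a unit speed geodesic (defined for all times): a smooth curve on `S²` of unit
speed satisfying the Euler-Lagrange equations
`d/dt ∂L/∂v (w) = ∂L/∂x (w)`, `L(x, v) = g_x(v, v) / 2`, for all vectors `w` tangent to `S²`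
at the point `γ t`. -/
structure IsGeodesic (γ : ℝ → R3) : Prop where
  smooth : ContDiff ℝ ∞ γ
  mem : ∀ t, γ t ∈ S2
  speed : ∀ t, g.ip (γ t) (deriv γ t) (deriv γ t) = 1
  eulerLagrange : ∀ t, ∀ w : R3, dot (γ t) w = 0 →
    deriv (fun s => g.ip (γ s) (deriv γ s) w) t
      = fderiv ℝ (fun x => g.ip x (deriv γ t) (deriv γ t) / 2) (γ t) w

end SphereMetric

end Pool.Agent.H780.GC
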