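import Mathlib
import Pool.Agent.H780.GC.Defs

/-!
# The Goryachev-Chaplygin metric on the sphere
-/

set_option autoImplicit false

open scoped ContDiff

namespace Pool.Agent.H780.GC

/-- The rotation vector field `(-x₂, x₁, 0)`. -/
def rot (i : Fin 3) (x : R3) : ℝ := ![-x 1, x 0, 0] i

lemma contDiff_rot (i : Fin 3) : ContDiff ℝ ∞ (rot i) := by
  have h0 : ContDiff ℝ ∞ (fun x : R3 => x 0) := contDiff_apply ℝ ℝ 0
  have h1 : ContDiff ℝ ∞ (fun x : R3 => x 1) := contDiff_apply ℝ ℝ 1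
  fin_cases i
  · exact h1.neg
  · exact h0
  · exact contDiff_const

/-- The coefficients of the metric
`(1 - x₁/20) (|v|² - 3 (x₁ v₂ - x₂ v₁)² / (1 + 3 (x₁² + x₂²)))`. -/
noncomputable def coef (i j : Fin 3) (x : R3) : ℝ :=
  (1 - x 0 / 20) * ((if i = j then 1 else 0)
    - 3 * (rot i x * rot j x) / (1 + 3 * (x 0 ^ 2 + x 1 ^ 2)))

lemma contDiff_coef (i j : Fin 3) : ContDiff ℝ ∞ (coef i j) := by
  have h0 : ContDiff ℝ ∞ (fun x : R3 => x 0) := contDiff_apply ℝ ℝ 0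
  have h1 : ContDiff ℝ ∞ (fun x : R3 => x 1) := contDiff_apply ℝ ℝ 1
  unfold coef
  refine (contDiff_const.sub (h0.div_const 20)).mul (contDiff_const.sub ?_)
  refine ContDiff.div (contDiff_const.mul ((contDiff_rot i).mul (contDiff_rot j)))
    (contDiff_const.add (contDiff_const.mul ((h0.pow 2).add (h1.pow 2)))) ?_
  intro x
  positivity

lemma sum_coef (x v w : R3) : ∑ i, ∑ j, coef i j x * v i * w j
    = (1 - x 0 / 20) * (dot v w - 3 * ((x 0 * v 1 - x 1 * v 0) * (x 0 * w 1 - x 1 * w 0))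
      / (1 + 3 * (x 0 ^ 2 + x 1 ^ 2))) := by
  have hq : (1 + 3 * (x 0 ^ 2 + x 1 ^ 2)) ≠ 0 := by positivity
  simp [coef, rot, Fin.sum_univ_three, dot]
  field_simp
  ring

lemma S2_bound {x : R3} (hx : x ∈ S2) (i : Fin 3) : x i ^ 2 ≤ 1 := by
  have h : x 0 * x 0 + x 1 * x 1 + x 2 * x 2 = 1 := hx
  fin_cases i
  · show x 0 ^ 2 ≤ 1
    nlinarith [sq_nonneg (x 1), sq_nonneg (x 2)]
  · show x 1 ^ 2 ≤ 1
    nlinarith [sq_nonneg (x 0), sq_nonneg (x 2)]
  · show x 2 ^ 2 ≤ 1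
    nlinarith [sq_nonneg (x 0), sq_nonneg (x 1)]

lemma rho_lower {x : R3} (hx : x ∈ S2) : 19 / 20 ≤ 1 - x 0 / 20 := by
  have := S2_bound hx 0
  nlinarith

/-- The Goryachev-Chaplygin metric. -/
noncomputable def gcMetric : SphereMetric where
  a := coef
  smooth := contDiff_coef
  symm := by
    intro i j x
    unfold coef
    rw [mul_comm (rot i x) (rot j x)]
    congr 3
    simp [eq_comm]
  pos := by
    intro x hx v _ hv
    rw [sum_coef]
    have hρ := rho_lower hx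
    apply mul_pos (by linarith)
    have hq : 0 < 1 + 3 * (x 0 ^ 2 + x 1 ^ 2) := by positivity
    have hv2 : 0 < dot v v := by
      by_contra hcon
      push Not at hcon
      apply hv
      unfold dot at hcon
      have h0 : v 0 = 0 := by nlinarith [sq_nonneg (v 0), sq_nonneg (v 1), sq_nonneg (v 2)]
      have h1 : v 1 = 0 := by nlinarith [sq_nonneg (v 0), sq_nonneg (v 1), sq_nonneg (v 2)]
      have h2 : v 2 = 0 := by nlinarith [sq_nonneg (v 0), sq_nonneg (v 1), sq_nonneg (v 2)]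
      ext i
      fin_cases i
      · exact h0
      · exact h1
      · exact h2
    have hcs : (x 0 * v 1 - x 1 * v 0) * (x 0 * v 1 - x 1 * v 0)
        ≤ (x 0 ^ 2 + x 1 ^ 2) * dot v v := by
      unfold dot
      nlinarith [sq_nonneg (x 0 * v 0 + x 1 * v 1), sq_nonneg (x 0 * v 2), sq_nonneg (x 1 * v 2)]
    have : 3 * ((x 0 * v 1 - x 1 * v 0) * (x 0 * v 1 - x 1 * v 0))
        / (1 + 3 * (x 0 ^ 2 + x 1 ^ 2)) < dot v v := by
      rw [div_lt_iff₀ hq]
      nlinarith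
    linarith

lemma ip_eq (x v w : R3) : gcMetric.ip x v w
    = (1 - x 0 / 20) * (dot v w - 3 * ((x 0 * v 1 - x 1 * v 0) * (x 0 * w 1 - x 1 * w 0))
      / (1 + 3 * (x 0 ^ 2 + x 1 ^ 2))) := sum_coef x v w

/-- The vector `x × D M`, `D = diag (1, 1, 4)`. -/
def velo (x m : R3) : R3 :=
  ![4 * x 1 * m 2 - x 2 * m 1, x 2 * m 0 - 4 * x 0 * m 2, x 0 * m 1 - x 1 * m 0]

/-- The third component of `x × (x × D M)`. -/
lemma eta_velo {x m : R3} (hx : x ∈ S2) (hm : dot x m = 0) :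
    x 0 * velo x m 1 - x 1 * velo x m 0 = -(1 + 3 * (x 0 ^ 2 + x 1 ^ 2)) * m 2 := by
  have h : x 0 * x 0 + x 1 * x 1 + x 2 * x 2 = 1 := hx
  unfold dot at hm
  simp only [velo, Matrix.cons_val_zero, Matrix.cons_val_one]
  linear_combination x 2 * hm - m 2 * h

/-- The momentum of the velocity `x × D M` is `ρ x × M`. -/
lemma ip_velo {x m : R3} (hx : x ∈ S2) (hm : dot x m = 0) (w : R3) :
    gcMetric.ip x (velo x m) w = (1 - x 0 / 20)
      * ((x 1 * m 2 - x 2 * m 1) * w 0 + (x 2 * m 0 - x 0 * m 2) * w 1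
        + (x 0 * m 1 - x 1 * m 0) * w 2) := by
  have hq : (1 + 3 * (x 0 ^ 2 + x 1 ^ 2)) ≠ 0 := by positivity
  rw [ip_eq, eta_velo hx hm]
  have h1 : 3 * (-(1 + 3 * (x 0 ^ 2 + x 1 ^ 2)) * m 2 * (x 0 * w 1 - x 1 * w 0))
      / (1 + 3 * (x 0 ^ 2 + x 1 ^ 2)) = -3 * m 2 * (x 0 * w 1 - x 1 * w 0) := by
    field_simp
  rw [h1]
  simp only [velo, dot, Matrix.cons_val_zero, Matrix.cons_val_one, Matrix.cons_val_two,
    Matrix.tail_cons, Matrix.head_cons]
  ring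

lemma ip_smul_left (x v w : R3) (c : ℝ) : gcMetric.ip x (c • v) w = c * gcMetric.ip x v w := by
  simp only [ip_eq, dot, Pi.smul_apply, smul_eq_mul]
  ring

lemma ip_smul_right (x v w : R3) (c : ℝ) : gcMetric.ip x v (c • w) = c * gcMetric.ip x v w := by
  simp only [ip_eq, dot, Pi.smul_apply, smul_eq_mul]
  ring

lemma ip_velo_velo {x m : R3} (hx : x ∈ S2) (hm : dot x m = 0) :
    gcMetric.ip x (velo x m) (velo x m) = (1 - x 0 / 20)
      * (m 0 ^ 2 + m 1 ^ 2 + 4 * m 2 ^ 2) := by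
  rw [ip_velo hx hm]
  have h : x 0 * x 0 + x 1 * x 1 + x 2 * x 2 = 1 := hx
  unfold dot at hm
  simp only [velo, Matrix.cons_val_zero, Matrix.cons_val_one, Matrix.cons_val_two,
    Matrix.tail_cons, Matrix.head_cons]
  have e : (x 0 * m 0 + x 1 * m 1 + 4 * x 2 * m 2) * (x 0 * m 0 + x 1 * m 1 + x 2 * m 2) = 0 := by
    rw [hm, mul_zero]
  linear_combination (1 - x 0 / 20) * ((m 0 ^ 2 + m 1 ^ 2 + 4 * m 2 ^ 2) * h - e)

end Pool.Agent.H780.GC
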