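import Mathlib
import Pool.Agent.H780.GC.Metric

/-!
# The Goryachev-Chaplygin metric has positive curvature
-/

set_option autoImplicit false

open scoped ContDiff
open Real

namespace Pool.Agent.H780.GC

lemma exists_angle {a b : ℝ} (h : a ^ 2 + b ^ 2 = 1) : ∃ θ : ℝ, cos θ = a ∧ sin θ = b := by
  have hn : ‖(⟨a, b⟩ : ℂ)‖ = 1 := by
    rw [Complex.norm_def, Complex.normSq_mk, ← sq, ← sq, h, sqrt_one]
  refine ⟨Complex.arg ⟨a, b⟩, ?_, ?_⟩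
  · rw [Complex.cos_arg, hn, div_one]
    intro h0
    rw [h0, norm_zero] at hn
    exact zero_ne_one hn
  · rw [Complex.sin_arg, hn, div_one]

/-- Spherical coordinates. -/
noncomputable def sph (p : ℝ × ℝ) : R3 := ![sin p.1 * cos p.2, sin p.1 * sin p.2, cos p.1]

lemma pd1_sph (p : ℝ × ℝ) : pd1 sph p = ![cos p.1 * cos p.2, cos p.1 * sin p.2, -sin p.1] := by
  unfold pd1
  have : HasDerivAt (fun s : ℝ => sph (s, p.2))
      ![cos p.1 * cos p.2, cos p.1 * sin p.2, -sin p.1] p.1 := by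
    rw [hasDerivAt_pi]
    intro i
    fin_cases i
    · exact (hasDerivAt_sin p.1).mul_const (cos p.2)
    · exact (hasDerivAt_sin p.1).mul_const (sin p.2)
    · exact hasDerivAt_cos p.1
  exact this.deriv

lemma pd2_sph (p : ℝ × ℝ) : pd2 sph p = ![-(sin p.1 * sin p.2), sin p.1 * cos p.2, 0] := by
  unfold pd2
  have : HasDerivAt (fun s : ℝ => sph (p.1, s))
      ![-(sin p.1 * sin p.2), sin p.1 * cos p.2, 0] p.2 := by
    rw [hasDerivAt_pi]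
    intro i
    fin_cases i
    · exact ((hasDerivAt_cos p.2).const_mul (sin p.1)).congr_deriv (by simp)
    · exact (hasDerivAt_sin p.2).const_mul (sin p.1)
    · exact hasDerivAt_const p.2 (cos p.1)
  exact this.deriv

lemma sph_mem (p : ℝ × ℝ) : sph p ∈ S2 := by
  show sin p.1 * cos p.2 * (sin p.1 * cos p.2) + sin p.1 * sin p.2 * (sin p.1 * sin p.2)
    + cos p.1 * cos p.1 = 1
  have h1 := sin_sq_add_cos_sq p.1
  have h2 := sin_sq_add_cos_sq p.2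
  linear_combination h1 + sin p.1 ^ 2 * h2

lemma isLocalParam_sph : IsLocalParam {p | 0 < p.1 ∧ p.1 < π} sph where
  isOpen := (isOpen_lt continuous_const continuous_fst).inter
    (isOpen_lt continuous_fst continuous_const)
  smooth := by
    apply ContDiff.contDiffOn
    rw [contDiff_pi]
    intro i
    fin_cases i
    · exact (contDiff_sin.comp contDiff_fst).mul (contDiff_cos.comp contDiff_snd)
    · exact (contDiff_sin.comp contDiff_fst).mul (contDiff_sin.comp contDiff_snd)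
    · exact contDiff_cos.comp contDiff_fst
  mem := fun p _ => sph_mem p
  indep := by
    rintro p ⟨h0, h1⟩
    have hs : sin p.1 ≠ 0 := (sin_pos_of_pos_of_lt_pi h0 h1).ne'
    rw [pd1_sph, pd2_sph, LinearIndependent.pair_iff]
    intro s t hst
    have e0 := congrFun hst 0
    have e1 := congrFun hst 1
    have e2 := congrFun hst 2
    simp only [Pi.add_apply, Pi.smul_apply, smul_eq_mul, Matrix.cons_val_zero,
      Matrix.cons_val_one, Matrix.cons_val_two, Matrix.tail_cons, Matrix.head_cons,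
      Pi.zero_apply] at e0 e1 e2
    have hs0 : s = 0 := by
      have : s * sin p.1 = 0 := by linarith
      exact (mul_eq_zero.mp this).resolve_right hs
    refine ⟨hs0, ?_⟩
    rw [hs0] at e0 e1
    have h2 := sin_sq_add_cos_sq p.2
    have : t * sin p.1 = 0 := by
      linear_combination -sin p.2 * e0 + cos p.2 * e1 - t * sin p.1 * h2
    exact (mul_eq_zero.mp this).resolve_right hs

/-- The function `sin² u / (1 + 3 sin² u)`. -/
noncomputable def hh (u : ℝ) : ℝ := sin u ^ 2 / (1 + 3 * sin u ^ 2)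

lemma sphE : (fun q => gcMetric.ip (sph q) (pd1 sph q) (pd1 sph q))
    = fun q => 1 - sin q.1 * cos q.2 / 20 := by
  funext q
  rw [pd1_sph, ip_eq]
  have h1 := sin_sq_add_cos_sq q.1
  have h2 := sin_sq_add_cos_sq q.2
  simp only [sph, dot, Matrix.cons_val_zero, Matrix.cons_val_one, Matrix.cons_val_two,
    Matrix.tail_cons, Matrix.head_cons]
  rw [show sin q.1 * cos q.2 * (cos q.1 * sin q.2) - sin q.1 * sin q.2 * (cos q.1 * cos q.2) = 0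
    by ring]
  simp only [mul_zero, zero_div, sub_zero]
  linear_combination (1 - sin q.1 * cos q.2 / 20) * (h1 + cos q.1 ^ 2 * h2)

lemma sphF : (fun q => gcMetric.ip (sph q) (pd1 sph q) (pd2 sph q)) = fun _ => 0 := by
  funext q
  rw [pd1_sph, pd2_sph, ip_eq]
  simp only [sph, dot, Matrix.cons_val_zero, Matrix.cons_val_one, Matrix.cons_val_two,
    Matrix.tail_cons, Matrix.head_cons]
  rw [show sin q.1 * cos q.2 * (cos q.1 * sin q.2) - sin q.1 * sin q.2 * (cos q.1 * cos q.2) = 0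
    by ring]
  simp only [mul_zero, zero_mul, zero_div, sub_zero]
  ring

lemma sphG : (fun q => gcMetric.ip (sph q) (pd2 sph q) (pd2 sph q))
    = fun q => (1 - sin q.1 * cos q.2 / 20) * hh q.1 := by
  funext q
  rw [pd2_sph, ip_eq]
  have h2 := sin_sq_add_cos_sq q.2
  simp only [sph, dot, hh, Matrix.cons_val_zero, Matrix.cons_val_one, Matrix.cons_val_two,
    Matrix.tail_cons, Matrix.head_cons]
  congr 1
  rw [show sin q.1 * cos q.2 * (sin q.1 * cos q.2) - sin q.1 * sin q.2 * -(sin q.1 * sin q.2)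
    = sin q.1 ^ 2 by linear_combination sin q.1 ^ 2 * h2]
  rw [show (sin q.1 * cos q.2) ^ 2 + (sin q.1 * sin q.2) ^ 2
    = sin q.1 ^ 2 by linear_combination sin q.1 ^ 2 * h2]
  rw [show -(sin q.1 * sin q.2) * -(sin q.1 * sin q.2) + sin q.1 * cos q.2 * (sin q.1 * cos q.2)
    + 0 * 0 = sin q.1 ^ 2 by linear_combination sin q.1 ^ 2 * h2]
  have : (1 + 3 * sin q.1 ^ 2) ≠ 0 := by positivity
  field_simp
  ring

lemma hasDerivAt_hh (u : ℝ) : HasDerivAt hh (2 * sin u * cos u / (1 + 3 * sin u ^ 2) ^ 2) u := by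
  have h1 : HasDerivAt (fun u => sin u ^ 2) (2 * sin u * cos u) u := by
    simpa using (hasDerivAt_sin u).fun_pow 2
  have h2 := (h1.const_mul 3).const_add 1
  have hq : (1 + 3 * sin u ^ 2) ≠ 0 := by positivity
  have h3 := h1.fun_div h2 hq
  refine h3.congr_deriv ?_
  field_simp
  ring

lemma hasDerivAt_hh' (u : ℝ) :
    HasDerivAt (fun u => 2 * sin u * cos u / (1 + 3 * sin u ^ 2) ^ 2)
      ((2 - 22 * sin u ^ 2 + 12 * sin u ^ 4) / (1 + 3 * sin u ^ 2) ^ 3) u := by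
  have h1 : HasDerivAt (fun u => sin u ^ 2) (2 * sin u * cos u) u := by
    simpa using (hasDerivAt_sin u).fun_pow 2
  have h2 := ((h1.const_mul 3).const_add 1).fun_pow 2
  have hq : (1 + 3 * sin u ^ 2) ≠ 0 := by positivity
  have hn : HasDerivAt (fun u => 2 * sin u * cos u) (2 * cos u * cos u + 2 * sin u * -sin u) u :=
    ((hasDerivAt_sin u).const_mul 2).mul (hasDerivAt_cos u)
  have h3 := hn.fun_div h2 (pow_ne_zero 2 hq)
  refine h3.congr_deriv ?_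
  have hc : cos u ^ 2 = 1 - sin u ^ 2 := by
    have := sin_sq_add_cos_sq u
    linarith
  simp only [Nat.cast_ofNat, Nat.add_one_sub_one, pow_one]
  rw [div_eq_div_iff (pow_ne_zero 2 (pow_ne_zero 2 hq)) (pow_ne_zero 3 hq)]
  have e : ∀ A B C D : ℝ, (2 * cos u * cos u + 2 * sin u * -sin u) * A
      - 2 * sin u * cos u * (B * C * (D * (2 * sin u * cos u)))
      = (2 * cos u ^ 2 - 2 * sin u ^ 2) * A - 4 * sin u ^ 2 * cos u ^ 2 * B * C * D := by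
    intro A B C D
    ring
  rw [e, hc]
  ring

/-- The conformal factor in spherical coordinates. -/
noncomputable def rr (q : ℝ × ℝ) : ℝ := 1 - sin q.1 * cos q.2 / 20

lemma hasDerivAt_rr1 (q : ℝ × ℝ) :
    HasDerivAt (fun s => rr (s, q.2)) (-(cos q.1 * cos q.2 / 20)) q.1 := by
  unfold rr
  exact (((hasDerivAt_sin q.1).mul_const (cos q.2)).div_const 20).const_sub 1

lemma hasDerivAt_rr2 (q : ℝ × ℝ) :
    HasDerivAt (fun s => rr (q.1, s)) (sin q.1 * sin q.2 / 20) q.2 := by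
  unfold rr
  exact ((((hasDerivAt_cos q.2).const_mul (sin q.1)).div_const 20).const_sub 1).congr_deriv
    (by ring)

lemma pd1_rr : pd1 rr = fun q => -(cos q.1 * cos q.2 / 20) :=
  funext fun q => (hasDerivAt_rr1 q).deriv

lemma pd2_rr : pd2 rr = fun q => sin q.1 * sin q.2 / 20 :=
  funext fun q => (hasDerivAt_rr2 q).deriv

lemma pd22_rr : pd2 (pd2 rr) = fun q => sin q.1 * cos q.2 / 20 := by
  rw [pd2_rr]
  funext q
  exact (((hasDerivAt_sin q.2).const_mul (sin q.1)).div_const 20).deriv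

lemma pd1_rh : pd1 (fun q => rr q * hh q.1) = fun q => -(cos q.1 * cos q.2 / 20) * hh q.1
    + rr q * (2 * sin q.1 * cos q.1 / (1 + 3 * sin q.1 ^ 2) ^ 2) :=
  funext fun q => ((hasDerivAt_rr1 q).mul (hasDerivAt_hh q.1)).deriv

lemma pd11_rh : pd1 (pd1 (fun q => rr q * hh q.1)) = fun q =>
    (sin q.1 * cos q.2 / 20 * hh q.1
      + -(cos q.1 * cos q.2 / 20) * (2 * sin q.1 * cos q.1 / (1 + 3 * sin q.1 ^ 2) ^ 2))
    + (-(cos q.1 * cos q.2 / 20) * (2 * sin q.1 * cos q.1 / (1 + 3 * sin q.1 ^ 2) ^ 2)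
      + rr q * ((2 - 22 * sin q.1 ^ 2 + 12 * sin q.1 ^ 4) / (1 + 3 * sin q.1 ^ 2) ^ 3)) := by
  rw [pd1_rh]
  funext q
  have h1 : HasDerivAt (fun s => -(cos s * cos q.2 / 20)) (sin q.1 * cos q.2 / 20) q.1 :=
    ((((hasDerivAt_cos q.1).mul_const (cos q.2)).div_const 20).neg).congr_deriv (by ring)
  exact ((h1.mul (hasDerivAt_hh q.1)).add ((hasDerivAt_rr1 q).mul (hasDerivAt_hh' q.1))).deriv

lemma pd2_rh : pd2 (fun q => rr q * hh q.1) = fun q => sin q.1 * sin q.2 / 20 * hh q.1 :=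
  funext fun q => ((hasDerivAt_rr2 q).mul_const (hh q.1)).deriv

lemma pd1_zero : pd1 (fun _ : ℝ × ℝ => (0:ℝ)) = fun _ => 0 := by
  funext q
  simp [pd1]

lemma pd2_zero : pd2 (fun _ : ℝ × ℝ => (0:ℝ)) = fun _ => 0 := by
  funext q
  simp [pd2]

lemma bracket_pos {s a : ℝ} (hs : 0 ≤ s) (hs1 : s ≤ 1) (ha1 : a ≤ 1) :
    0 < (1 - s * a / 20) ^ 2 * (10 - 6 * s ^ 2)
          - (1 - s * a / 20) * (s * a) * (2 + 3 * s ^ 2) * (1 + 3 * s ^ 2) / 10 := by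
  have hs2 : s ^ 2 ≤ 1 := pow_le_one₀ hs hs1
  have b1 : s * a ≤ 1 := (mul_le_of_le_one_right hs ha1).trans hs1
  have hρ : 19 / 20 ≤ 1 - s * a / 20 := by linarith
  have b2 : (s * a) * ((2 + 3 * s ^ 2) * (1 + 3 * s ^ 2)) ≤ 1 * (5 * 4) := by
    have h1 : (2 + 3 * s ^ 2) * (1 + 3 * s ^ 2) ≤ 5 * 4 :=
      mul_le_mul (by linarith) (by linarith) (by positivity) (by norm_num)
    have h0 : 0 ≤ (2 + 3 * s ^ 2) * (1 + 3 * s ^ 2) := by positivity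
    calc (s * a) * ((2 + 3 * s ^ 2) * (1 + 3 * s ^ 2)) ≤ 1 * ((2 + 3 * s ^ 2) * (1 + 3 * s ^ 2)) :=
          mul_le_mul_of_nonneg_right b1 h0
      _ ≤ 1 * (5 * 4) := by linarith
  have b3 : 19 / 20 * 4 ≤ (1 - s * a / 20) * (10 - 6 * s ^ 2) :=
    mul_le_mul hρ (by linarith) (by norm_num) (by linarith)
  have b4 : 0 < (1 - s * a / 20) * ((1 - s * a / 20) * (10 - 6 * s ^ 2)
        - (s * a) * ((2 + 3 * s ^ 2) * (1 + 3 * s ^ 2)) / 10) := by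
    apply mul_pos (by linarith)
    linarith
  linarith

lemma curvature_sph {p : ℝ × ℝ} (h0 : 0 < p.1) (h1 : p.1 < π) :
    0 < gcMetric.curvature sph p := by
  unfold SphereMetric.curvature
  rw [sphE, sphF, sphG]
  show 0 < brioschi rr (fun _ => 0) (fun q => rr q * hh q.1) p
  unfold brioschi
  rw [pd22_rr, pd11_rh, pd1_rh, pd2_rh, pd2_rr, pd1_rr, pd1_zero, pd2_zero]
  have hs : 0 < sin p.1 := sin_pos_of_pos_of_lt_pi h0 h1
  have hs1 : sin p.1 ≤ 1 := sin_le_one _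
  have ha1 : cos p.2 ≤ 1 := cos_le_one _
  have ha2 : -1 ≤ cos p.2 := neg_one_le_cos _
  have hc : cos p.1 ^ 2 = 1 - sin p.1 ^ 2 := by
    have := sin_sq_add_cos_sq p.1
    linarith
  have hb : sin p.2 ^ 2 = 1 - cos p.2 ^ 2 := by
    have := sin_sq_add_cos_sq p.2
    linarith
  rw [Matrix.det_fin_three, Matrix.det_fin_three]
  simp only [Matrix.of_apply, Matrix.cons_val', Matrix.cons_val_zero, Matrix.cons_val_one,
    Matrix.cons_val_two, Matrix.tail_cons, Matrix.head_cons, Matrix.empty_val',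
    Matrix.cons_val_fin_one, Matrix.head_fin_const]
  simp only [rr, hh]
  generalize sin p.1 = s at *
  generalize cos p.1 = c at *
  generalize cos p.2 = a at *
  generalize sin p.2 = b at *
  have hQ : 0 < 1 + 3 * s ^ 2 := by positivity
  have hρ : 19 / 20 ≤ 1 - s * a / 20 := by nlinarith
  have hρ0 : 0 < 1 - s * a / 20 := by linarith
  have key : ∀ C B : ℝ, C = 1 - s ^ 2 → B = 1 - a ^ 2 →
      ((-(s * a / 20) / 2 + 0 - (s * a / 20 * (s ^ 2 / (1 + 3 * s ^ 2))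
        + -(a / 20) * (2 * s * C / (1 + 3 * s ^ 2) ^ 2)
        + (-(a / 20) * (2 * s * C / (1 + 3 * s ^ 2) ^ 2)
          + (1 - s * a / 20) * ((2 - 22 * s ^ 2 + 12 * s ^ 4) / (1 + 3 * s ^ 2) ^ 3))) / 2)
        * ((1 - s * a / 20) * ((1 - s * a / 20) * (s ^ 2 / (1 + 3 * s ^ 2))))
        + ((-(a / 20)) * (-(a / 20) * (s ^ 2 / (1 + 3 * s ^ 2))
            + (1 - s * a / 20) * (2 * s / (1 + 3 * s ^ 2) ^ 2)) * C + s ^ 2 * B / 400)
          * ((1 - s * a / 20) * (s ^ 2 / (1 + 3 * s ^ 2))) / 4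
        + (s ^ 2 * B / 400 * (s ^ 2 / (1 + 3 * s ^ 2)) + C * (-(a / 20) * (s ^ 2 / (1 + 3 * s ^ 2))
            + (1 - s * a / 20) * (2 * s / (1 + 3 * s ^ 2) ^ 2)) ^ 2) * (1 - s * a / 20) / 4)
      = (1 - s * a / 20) * s ^ 4 / (1 + 3 * s ^ 2) ^ 4 *
        ((1 - s * a / 20) ^ 2 * (10 - 6 * s ^ 2)
          - (1 - s * a / 20) * (s * a) * (2 + 3 * s ^ 2) * (1 + 3 * s ^ 2) / 10
          + (1 + 3 * s ^ 2) ^ 2 * (C * a ^ 2 + (1 + 3 * s ^ 2) * B) / 800) := by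
    intro C B hC hB
    rw [hC, hB]
    field_simp
    ring
  have hk := key (c ^ 2) (b ^ 2) hc hb
  have hpos : 0 < (1 - s * a / 20) * s ^ 4 / (1 + 3 * s ^ 2) ^ 4 *
        ((1 - s * a / 20) ^ 2 * (10 - 6 * s ^ 2)
          - (1 - s * a / 20) * (s * a) * (2 + 3 * s ^ 2) * (1 + 3 * s ^ 2) / 10
          + (1 + 3 * s ^ 2) ^ 2 * (c ^ 2 * a ^ 2 + (1 + 3 * s ^ 2) * b ^ 2) / 800) := by
    apply mul_pos (by positivity)
    apply add_pos_of_pos_of_nonneg _ (by positivity)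
    exact bracket_pos hs.le hs1 ha1
  rw [← hk] at hpos
  apply div_pos
  · refine lt_of_lt_of_eq hpos ?_
    ring
  · rw [show (0:ℝ) ^ 2 = 0 by norm_num, sub_zero]
    positivity

/-- Stereographic coordinates around the poles. -/
noncomputable def ste (e : ℝ) (p : ℝ × ℝ) : R3 :=
  ![2 * p.1 / (1 + (p.1 ^ 2 + p.2 ^ 2)), 2 * p.2 / (1 + (p.1 ^ 2 + p.2 ^ 2)),
    e * (1 - (p.1 ^ 2 + p.2 ^ 2)) / (1 + (p.1 ^ 2 + p.2 ^ 2))]

lemma den_pos (p : ℝ × ℝ) : 0 < 1 + (p.1 ^ 2 + p.2 ^ 2) := by positivity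

lemma ste_mem {e : ℝ} (he : e ^ 2 = 1) (p : ℝ × ℝ) : ste e p ∈ S2 := by
  show 2 * p.1 / (1 + (p.1 ^ 2 + p.2 ^ 2)) * (2 * p.1 / (1 + (p.1 ^ 2 + p.2 ^ 2)))
    + 2 * p.2 / (1 + (p.1 ^ 2 + p.2 ^ 2)) * (2 * p.2 / (1 + (p.1 ^ 2 + p.2 ^ 2)))
    + e * (1 - (p.1 ^ 2 + p.2 ^ 2)) / (1 + (p.1 ^ 2 + p.2 ^ 2))
      * (e * (1 - (p.1 ^ 2 + p.2 ^ 2)) / (1 + (p.1 ^ 2 + p.2 ^ 2))) = 1
  have := (den_pos p).ne'
  field_simp
  rw [he]
  ring

lemma pd1_ste (e : ℝ) (p : ℝ × ℝ) : pd1 (ste e) p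
    = (2 / (1 + (p.1 ^ 2 + p.2 ^ 2)) ^ 2) •
      ![1 + (p.1 ^ 2 + p.2 ^ 2) - 2 * p.1 ^ 2, -2 * p.1 * p.2, -2 * e * p.1] := by
  unfold pd1
  have hd := (den_pos p).ne'
  have h0 : HasDerivAt (fun s : ℝ => s ^ 2 + p.2 ^ 2) (2 * p.1) p.1 := by
    simpa using ((hasDerivAt_id p.1).fun_pow 2).add_const (p.2 ^ 2)
  have h1 := h0.const_add 1
  have : HasDerivAt (fun s : ℝ => ste e (s, p.2))
      ((2 / (1 + (p.1 ^ 2 + p.2 ^ 2)) ^ 2) •
      ![1 + (p.1 ^ 2 + p.2 ^ 2) - 2 * p.1 ^ 2, -2 * p.1 * p.2, -2 * e * p.1]) p.1 := by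
    rw [hasDerivAt_pi]
    intro i
    fin_cases i
    · refine (((hasDerivAt_id p.1).const_mul 2).fun_div h1 hd).congr_deriv ?_
      simp only [id_eq, Fin.zero_eta, Pi.smul_apply, Matrix.cons_val_zero, smul_eq_mul]
      field_simp
    · refine ((hasDerivAt_const p.1 (2 * p.2)).fun_div h1 hd).congr_deriv ?_
      simp only [Fin.mk_one, Pi.smul_apply, Matrix.cons_val, smul_eq_mul]
      field_simp
      ring
    · refine (((h0.const_sub 1).const_mul e).fun_div h1 hd).congr_deriv ?_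
      simp only [Fin.reduceFinMk, Pi.smul_apply, Matrix.cons_val, smul_eq_mul]
      field_simp
      ring
  exact this.deriv

lemma pd2_ste (e : ℝ) (p : ℝ × ℝ) : pd2 (ste e) p
    = (2 / (1 + (p.1 ^ 2 + p.2 ^ 2)) ^ 2) •
      ![-2 * p.1 * p.2, 1 + (p.1 ^ 2 + p.2 ^ 2) - 2 * p.2 ^ 2, -2 * e * p.2] := by
  unfold pd2
  have hd := (den_pos p).ne'
  have h0 : HasDerivAt (fun s : ℝ => p.1 ^ 2 + s ^ 2) (2 * p.2) p.2 := by
    simpa using ((hasDerivAt_id p.2).fun_pow 2).const_add (p.1 ^ 2)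
  have h1 := h0.const_add 1
  have : HasDerivAt (fun s : ℝ => ste e (p.1, s))
      ((2 / (1 + (p.1 ^ 2 + p.2 ^ 2)) ^ 2) •
      ![-2 * p.1 * p.2, 1 + (p.1 ^ 2 + p.2 ^ 2) - 2 * p.2 ^ 2, -2 * e * p.2]) p.2 := by
    rw [hasDerivAt_pi]
    intro i
    fin_cases i
    · refine ((hasDerivAt_const p.2 (2 * p.1)).fun_div h1 hd).congr_deriv ?_
      simp only [Fin.zero_eta, Pi.smul_apply, Matrix.cons_val_zero, smul_eq_mul]
      field_simp
      ring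
    · refine (((hasDerivAt_id p.2).const_mul 2).fun_div h1 hd).congr_deriv ?_
      simp only [id_eq, Fin.mk_one, Pi.smul_apply, Matrix.cons_val, smul_eq_mul]
      field_simp
    · refine (((h0.const_sub 1).const_mul e).fun_div h1 hd).congr_deriv ?_
      simp only [Fin.reduceFinMk, Pi.smul_apply, Matrix.cons_val, smul_eq_mul]
      field_simp
      ring
  exact this.deriv

lemma isLocalParam_ste {e : ℝ} (he : e ^ 2 = 1) : IsLocalParam Set.univ (ste e) where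
  isOpen := isOpen_univ
  smooth := by
    apply ContDiff.contDiffOn
    have c1 : ContDiff ℝ ∞ (fun p : ℝ × ℝ => p.1 ^ 2 + p.2 ^ 2) :=
      (contDiff_fst.pow 2).add (contDiff_snd.pow 2)
    rw [contDiff_pi]
    intro i
    fin_cases i
    · exact (contDiff_const.mul contDiff_fst).div (contDiff_const.add c1)
        (fun p => (den_pos p).ne')
    · exact (contDiff_const.mul contDiff_snd).div (contDiff_const.add c1)
        (fun p => (den_pos p).ne')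
    · exact (contDiff_const.mul (contDiff_const.sub c1)).div (contDiff_const.add c1)
        (fun p => (den_pos p).ne')
  mem := fun p _ => ste_mem he p
  indep := by
    intro p _
    have hd := den_pos p
    rw [pd1_ste, pd2_ste, LinearIndependent.pair_iff]
    intro s t hst
    have e0 := congrFun hst 0
    have e1 := congrFun hst 1
    have e2 := congrFun hst 2
    simp only [Pi.add_apply, Pi.smul_apply, smul_eq_mul, Matrix.cons_val_zero,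
      Matrix.cons_val_one, Matrix.cons_val_two, Matrix.tail_cons, Matrix.head_cons,
      Pi.zero_apply] at e0 e1 e2
    have hk : 2 / (1 + (p.1 ^ 2 + p.2 ^ 2)) ^ 2 ≠ 0 := by positivity
    generalize 2 / (1 + (p.1 ^ 2 + p.2 ^ 2)) ^ 2 = k at *
    have f0 : s * (1 + (p.1 ^ 2 + p.2 ^ 2) - 2 * p.1 ^ 2) + t * (-2 * p.1 * p.2) = 0 := by
      apply mul_left_cancel₀ hk
      linear_combination e0
    have f1 : s * (-2 * p.1 * p.2) + t * (1 + (p.1 ^ 2 + p.2 ^ 2) - 2 * p.2 ^ 2) = 0 := by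
      apply mul_left_cancel₀ hk
      linear_combination e1
    have f2 : s * (-2 * e * p.1) + t * (-2 * e * p.2) = 0 := by
      apply mul_left_cancel₀ hk
      linear_combination e2
    constructor
    · have : s * (1 + (p.1 ^ 2 + p.2 ^ 2)) ^ 2 = 0 := by
        linear_combination (1 + (p.1 ^ 2 + p.2 ^ 2) - 2 * p.1 ^ 2) * f0 - 2 * p.1 * p.2 * f1
          - 2 * e * p.1 * f2 - 4 * p.1 * (s * p.1 + t * p.2) * he
      exact (mul_eq_zero.mp this).resolve_right (by positivity)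
    · have : t * (1 + (p.1 ^ 2 + p.2 ^ 2)) ^ 2 = 0 := by
        linear_combination (1 + (p.1 ^ 2 + p.2 ^ 2) - 2 * p.2 ^ 2) * f1 - 2 * p.1 * p.2 * f0
          - 2 * e * p.2 * f2 - 4 * p.2 * (s * p.1 + t * p.2) * he
      exact (mul_eq_zero.mp this).resolve_right (by positivity)

/-- The conformal factor in stereographic coordinates. -/
noncomputable def sr (q : ℝ × ℝ) : ℝ := 1 - q.1 / (10 * (1 + (q.1 ^ 2 + q.2 ^ 2)))

/-- The denominator in stereographic coordinates. -/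
noncomputable def sd (q : ℝ × ℝ) : ℝ :=
  (1 + (q.1 ^ 2 + q.2 ^ 2)) ^ 2 * ((1 + (q.1 ^ 2 + q.2 ^ 2)) ^ 2 + 12 * (q.1 ^ 2 + q.2 ^ 2))

lemma steE {e : ℝ} (he : e ^ 2 = 1) :
    (fun q => gcMetric.ip (ste e q) (pd1 (ste e) q) (pd1 (ste e) q))
    = fun q => sr q * (4 / (1 + (q.1 ^ 2 + q.2 ^ 2)) ^ 2 - 48 * q.2 ^ 2 / sd q) := by
  funext q
  rw [pd1_ste, ip_eq]
  simp only [ste, dot, sr, sd, Matrix.cons_val_zero, Matrix.cons_val_one, Matrix.cons_val_two,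
    Matrix.tail_cons, Matrix.head_cons, Pi.smul_apply, smul_eq_mul]
  have hd := (den_pos q).ne'
  have hd2 : (1 + (q.1 ^ 2 + q.2 ^ 2)) ^ 2 + 12 * (q.1 ^ 2 + q.2 ^ 2) ≠ 0 := by positivity
  have hd3 : (1 + 3 * ((2 * q.1 / (1 + (q.1 ^ 2 + q.2 ^ 2))) ^ 2
      + (2 * q.2 / (1 + (q.1 ^ 2 + q.2 ^ 2))) ^ 2))
      = ((1 + (q.1 ^ 2 + q.2 ^ 2)) ^ 2 + 12 * (q.1 ^ 2 + q.2 ^ 2))
        / (1 + (q.1 ^ 2 + q.2 ^ 2)) ^ 2 := by
    field_simp
    ring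
  rw [hd3]
  have hη : 2 * q.1 / (1 + (q.1 ^ 2 + q.2 ^ 2)) * (2 / (1 + (q.1 ^ 2 + q.2 ^ 2)) ^ 2
        * (-2 * q.1 * q.2))
      - 2 * q.2 / (1 + (q.1 ^ 2 + q.2 ^ 2)) * (2 / (1 + (q.1 ^ 2 + q.2 ^ 2)) ^ 2
        * (1 + (q.1 ^ 2 + q.2 ^ 2) - 2 * q.1 ^ 2))
      = -(4 * q.2 / (1 + (q.1 ^ 2 + q.2 ^ 2)) ^ 2) := by
    field_simp
    ring
  rw [hη]
  have hv : 2 / (1 + (q.1 ^ 2 + q.2 ^ 2)) ^ 2 * (1 + (q.1 ^ 2 + q.2 ^ 2) - 2 * q.1 ^ 2)
        * (2 / (1 + (q.1 ^ 2 + q.2 ^ 2)) ^ 2 * (1 + (q.1 ^ 2 + q.2 ^ 2) - 2 * q.1 ^ 2))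
      + 2 / (1 + (q.1 ^ 2 + q.2 ^ 2)) ^ 2 * (-2 * q.1 * q.2)
        * (2 / (1 + (q.1 ^ 2 + q.2 ^ 2)) ^ 2 * (-2 * q.1 * q.2))
      + 2 / (1 + (q.1 ^ 2 + q.2 ^ 2)) ^ 2 * (-2 * e * q.1)
        * (2 / (1 + (q.1 ^ 2 + q.2 ^ 2)) ^ 2 * (-2 * e * q.1))
      = 4 / (1 + (q.1 ^ 2 + q.2 ^ 2)) ^ 2 := by
    have e1 : ∀ k A B C : ℝ, k * A * (k * A) + k * B * (k * B) + k * (-2 * e * C) * (k * (-2 * e * C))
      = k ^ 2 * (A ^ 2 + B ^ 2 + 4 * C ^ 2 * e ^ 2) := by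
      intro k A B C
      ring
    rw [e1, he]
    field_simp
    ring
  rw [hv]
  field_simp
  ring

lemma steF {e : ℝ} (he : e ^ 2 = 1) :
    (fun q => gcMetric.ip (ste e q) (pd1 (ste e) q) (pd2 (ste e) q))
    = fun q => sr q * (48 * q.1 * q.2 / sd q) := by
  funext q
  rw [pd1_ste, pd2_ste, ip_eq]
  simp only [ste, dot, sr, sd, Matrix.cons_val_zero, Matrix.cons_val_one, Matrix.cons_val_two,
    Matrix.tail_cons, Matrix.head_cons, Pi.smul_apply, smul_eq_mul]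
  have hd := (den_pos q).ne'
  have hd2 : (1 + (q.1 ^ 2 + q.2 ^ 2)) ^ 2 + 12 * (q.1 ^ 2 + q.2 ^ 2) ≠ 0 := by positivity
  have hd3 : (1 + 3 * ((2 * q.1 / (1 + (q.1 ^ 2 + q.2 ^ 2))) ^ 2
      + (2 * q.2 / (1 + (q.1 ^ 2 + q.2 ^ 2))) ^ 2))
      = ((1 + (q.1 ^ 2 + q.2 ^ 2)) ^ 2 + 12 * (q.1 ^ 2 + q.2 ^ 2))
        / (1 + (q.1 ^ 2 + q.2 ^ 2)) ^ 2 := by
    field_simp
    ring
  rw [hd3]
  have hη : 2 * q.1 / (1 + (q.1 ^ 2 + q.2 ^ 2)) * (2 / (1 + (q.1 ^ 2 + q.2 ^ 2)) ^ 2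
        * (-2 * q.1 * q.2))
      - 2 * q.2 / (1 + (q.1 ^ 2 + q.2 ^ 2)) * (2 / (1 + (q.1 ^ 2 + q.2 ^ 2)) ^ 2
        * (1 + (q.1 ^ 2 + q.2 ^ 2) - 2 * q.1 ^ 2))
      = -(4 * q.2 / (1 + (q.1 ^ 2 + q.2 ^ 2)) ^ 2) := by
    field_simp
    ring
  have hη2 : 2 * q.1 / (1 + (q.1 ^ 2 + q.2 ^ 2)) * (2 / (1 + (q.1 ^ 2 + q.2 ^ 2)) ^ 2
        * (1 + (q.1 ^ 2 + q.2 ^ 2) - 2 * q.2 ^ 2))
      - 2 * q.2 / (1 + (q.1 ^ 2 + q.2 ^ 2)) * (2 / (1 + (q.1 ^ 2 + q.2 ^ 2)) ^ 2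
        * (-2 * q.1 * q.2))
      = (4 * q.1 / (1 + (q.1 ^ 2 + q.2 ^ 2)) ^ 2) := by
    field_simp
    ring
  rw [hη, hη2]
  have hv : 2 / (1 + (q.1 ^ 2 + q.2 ^ 2)) ^ 2 * (1 + (q.1 ^ 2 + q.2 ^ 2) - 2 * q.1 ^ 2)
        * (2 / (1 + (q.1 ^ 2 + q.2 ^ 2)) ^ 2 * (-2 * q.1 * q.2))
      + 2 / (1 + (q.1 ^ 2 + q.2 ^ 2)) ^ 2 * (-2 * q.1 * q.2)
        * (2 / (1 + (q.1 ^ 2 + q.2 ^ 2)) ^ 2 * (1 + (q.1 ^ 2 + q.2 ^ 2) - 2 * q.2 ^ 2))
      + 2 / (1 + (q.1 ^ 2 + q.2 ^ 2)) ^ 2 * (-2 * e * q.1)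
        * (2 / (1 + (q.1 ^ 2 + q.2 ^ 2)) ^ 2 * (-2 * e * q.2))
      = 0 := by
    generalize 2 / (1 + (q.1 ^ 2 + q.2 ^ 2)) ^ 2 = k
    linear_combination 4 * k ^ 2 * q.1 * q.2 * he
  rw [hv]
  field_simp
  ring

lemma steG {e : ℝ} (he : e ^ 2 = 1) :
    (fun q => gcMetric.ip (ste e q) (pd2 (ste e) q) (pd2 (ste e) q))
    = fun q => sr q * (4 / (1 + (q.1 ^ 2 + q.2 ^ 2)) ^ 2 - 48 * q.1 ^ 2 / sd q) := by
  funext q
  rw [pd2_ste, ip_eq]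
  simp only [ste, dot, sr, sd, Matrix.cons_val_zero, Matrix.cons_val_one, Matrix.cons_val_two,
    Matrix.tail_cons, Matrix.head_cons, Pi.smul_apply, smul_eq_mul]
  have hd := (den_pos q).ne'
  have hd2 : (1 + (q.1 ^ 2 + q.2 ^ 2)) ^ 2 + 12 * (q.1 ^ 2 + q.2 ^ 2) ≠ 0 := by positivity
  have hd3 : (1 + 3 * ((2 * q.1 / (1 + (q.1 ^ 2 + q.2 ^ 2))) ^ 2
      + (2 * q.2 / (1 + (q.1 ^ 2 + q.2 ^ 2))) ^ 2))
      = ((1 + (q.1 ^ 2 + q.2 ^ 2)) ^ 2 + 12 * (q.1 ^ 2 + q.2 ^ 2))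
        / (1 + (q.1 ^ 2 + q.2 ^ 2)) ^ 2 := by
    field_simp
    ring
  rw [hd3]
  have hη2 : 2 * q.1 / (1 + (q.1 ^ 2 + q.2 ^ 2)) * (2 / (1 + (q.1 ^ 2 + q.2 ^ 2)) ^ 2
        * (1 + (q.1 ^ 2 + q.2 ^ 2) - 2 * q.2 ^ 2))
      - 2 * q.2 / (1 + (q.1 ^ 2 + q.2 ^ 2)) * (2 / (1 + (q.1 ^ 2 + q.2 ^ 2)) ^ 2
        * (-2 * q.1 * q.2))
      = (4 * q.1 / (1 + (q.1 ^ 2 + q.2 ^ 2)) ^ 2) := by
    field_simp
    ring
  rw [hη2]
  have hv : 2 / (1 + (q.1 ^ 2 + q.2 ^ 2)) ^ 2 * (-2 * q.1 * q.2)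
        * (2 / (1 + (q.1 ^ 2 + q.2 ^ 2)) ^ 2 * (-2 * q.1 * q.2))
      + 2 / (1 + (q.1 ^ 2 + q.2 ^ 2)) ^ 2 * (1 + (q.1 ^ 2 + q.2 ^ 2) - 2 * q.2 ^ 2)
        * (2 / (1 + (q.1 ^ 2 + q.2 ^ 2)) ^ 2 * (1 + (q.1 ^ 2 + q.2 ^ 2) - 2 * q.2 ^ 2))
      + 2 / (1 + (q.1 ^ 2 + q.2 ^ 2)) ^ 2 * (-2 * e * q.2)
        * (2 / (1 + (q.1 ^ 2 + q.2 ^ 2)) ^ 2 * (-2 * e * q.2))
      = 4 / (1 + (q.1 ^ 2 + q.2 ^ 2)) ^ 2 := by
    have e1 : ∀ k A B C : ℝ, k * A * (k * A) + k * B * (k * B) + k * (-2 * e * C) * (k * (-2 * e * C))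
      = k ^ 2 * (A ^ 2 + B ^ 2 + 4 * C ^ 2 * e ^ 2) := by
      intro k A B C
      ring
    rw [e1, he]
    field_simp
    ring
  rw [hv]
  field_simp
  ring

end Pool.Agent.H780.GC
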