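import Mathlib

/-!
# The separated equations of the Goryachev-Chaplygin system and its phase space
-/

set_option autoImplicit false

open Real

namespace Pool.Agent.H780.GC

/-- The equations of motion in the variables `ψ, δ, κ, ν, ℓ`. -/
structure Orbit (ψ δ κ ν l : ℝ → ℝ) : Prop where
  hψ : ∀ τ, HasDerivAt ψ (-6 * l τ ^ 2 * κ τ - sin (ψ τ) * sin (δ τ) / 10) τ
  hδ : ∀ τ, HasDerivAt δ (-2 * l τ ^ 2 + κ τ * sin (ψ τ) * sin (δ τ) / 10) τ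
  hκ : ∀ τ, HasDerivAt κ (sin (ψ τ) * cos (δ τ) * (1 - κ τ ^ 2) / 10) τ
  hν : ∀ τ, HasDerivAt ν (-(ν τ * κ τ * sin (ψ τ) * cos (δ τ)) / 10) τ
  hl : ∀ τ, HasDerivAt l (l τ * (κ τ * sin (ψ τ) * cos (δ τ) + cos (ψ τ) * sin (δ τ)) / 10) τ
  unit : ∀ τ, κ τ ^ 2 + ν τ ^ 2 = 1
  νpos : ∀ τ, 0 < ν τ
  lpos : ∀ τ, 0 < l τ
  energy : ∀ τ, l τ ^ 2 * (1 + 3 * κ τ ^ 2)
    = 2 + (cos (ψ τ) * cos (δ τ) - κ τ * sin (ψ τ) * sin (δ τ)) / 10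

/-- From the separated variables to the variables `ψ, δ, κ, ν, ℓ`. -/
theorem orbit_of {c1 c2 s1 s2 : ℝ → ℝ} {G : ℝ}
    (h1 : ∀ τ, HasDerivAt c1 (-(3 * s1 τ ^ 2 - 2 - cos (c1 τ) / 10)) τ)
    (h2 : ∀ τ, HasDerivAt c2 (3 * s2 τ ^ 2 - 2 - cos (c2 τ) / 10) τ)
    (h3 : ∀ τ, HasDerivAt s1 (s1 τ * sin (c1 τ) / 10) τ)
    (h4 : ∀ τ, HasDerivAt s2 (-(s2 τ * sin (c2 τ) / 10)) τ)
    (p1 : ∀ τ, 0 < s1 τ) (p2 : ∀ τ, s2 τ < 0)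
    (e1 : ∀ τ, s1 τ ^ 3 = (2 + cos (c1 τ) / 10) * s1 τ + 2 * G)
    (e2 : ∀ τ, s2 τ ^ 3 = (2 + cos (c2 τ) / 10) * s2 τ + 2 * G) :
    Orbit (fun τ => (c1 τ + c2 τ) / 2) (fun τ => (c1 τ - c2 τ) / 2)
      (fun τ => (s1 τ + s2 τ) / (s1 τ - s2 τ))
      (fun τ => √(1 - ((s1 τ + s2 τ) / (s1 τ - s2 τ)) ^ 2))
      (fun τ => (s1 τ - s2 τ) / 2) := by
  have hne : ∀ τ, 0 < s1 τ - s2 τ := fun τ => by linarith [p1 τ, p2 τ]
  -- trigonometry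
  have tc1 : ∀ τ, cos (c1 τ) = cos ((c1 τ + c2 τ) / 2) * cos ((c1 τ - c2 τ) / 2)
      - sin ((c1 τ + c2 τ) / 2) * sin ((c1 τ - c2 τ) / 2) := fun τ => by
    rw [← cos_add]; congr 1; ring
  have tc2 : ∀ τ, cos (c2 τ) = cos ((c1 τ + c2 τ) / 2) * cos ((c1 τ - c2 τ) / 2)
      + sin ((c1 τ + c2 τ) / 2) * sin ((c1 τ - c2 τ) / 2) := fun τ => by
    rw [← cos_sub]; congr 1; ring
  have ts1 : ∀ τ, sin (c1 τ) = sin ((c1 τ + c2 τ) / 2) * cos ((c1 τ - c2 τ) / 2)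
      + cos ((c1 τ + c2 τ) / 2) * sin ((c1 τ - c2 τ) / 2) := fun τ => by
    rw [← sin_add]; congr 1; ring
  have ts2 : ∀ τ, sin (c2 τ) = sin ((c1 τ + c2 τ) / 2) * cos ((c1 τ - c2 τ) / 2)
      - cos ((c1 τ + c2 τ) / 2) * sin ((c1 τ - c2 τ) / 2) := fun τ => by
    rw [← sin_sub]; congr 1; ring
  have hen : ∀ τ, ((s1 τ - s2 τ) / 2) ^ 2 * (1 + 3 * ((s1 τ + s2 τ) / (s1 τ - s2 τ)) ^ 2)
      = 2 + (cos ((c1 τ + c2 τ) / 2) * cos ((c1 τ - c2 τ) / 2)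
        - (s1 τ + s2 τ) / (s1 τ - s2 τ) * sin ((c1 τ + c2 τ) / 2) * sin ((c1 τ - c2 τ) / 2))
          / 10 := by
    intro τ
    have hn := (hne τ).ne'
    have a1 := e1 τ
    have a2 := e2 τ
    rw [tc1] at a1
    rw [tc2] at a2
    field_simp
    linear_combination (40) * a1 - (40) * a2
  have hκ : ∀ τ, HasDerivAt (fun τ => (s1 τ + s2 τ) / (s1 τ - s2 τ))
      (sin ((c1 τ + c2 τ) / 2) * cos ((c1 τ - c2 τ) / 2)
        * (1 - ((s1 τ + s2 τ) / (s1 τ - s2 τ)) ^ 2) / 10) τ := by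
    intro τ
    have hn := (hne τ).ne'
    refine (((h3 τ).add (h4 τ)).div ((h3 τ).sub (h4 τ)) hn).congr_deriv ?_
    rw [ts1, ts2]
    simp only [Pi.add_apply, Pi.sub_apply]
    field_simp
    ring
  have hpos : ∀ τ, 0 < 1 - ((s1 τ + s2 τ) / (s1 τ - s2 τ)) ^ 2 := by
    intro τ
    have hn := hne τ
    have : 1 - ((s1 τ + s2 τ) / (s1 τ - s2 τ)) ^ 2 = -4 * s1 τ * s2 τ / (s1 τ - s2 τ) ^ 2 := by
      field_simp
      ring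
    rw [this]
    apply div_pos _ (by positivity)
    nlinarith [mul_pos (p1 τ) (neg_pos.mpr (p2 τ))]
  refine ⟨?_, ?_, hκ, ?_, ?_, ?_, ?_, ?_, hen⟩
  · intro τ
    have hn := (hne τ).ne'
    refine (((h1 τ).add (h2 τ)).div_const 2).congr_deriv ?_
    rw [tc1, tc2]
    field_simp
    ring
  · intro τ
    have hn := (hne τ).ne'
    refine (((h1 τ).sub (h2 τ)).div_const 2).congr_deriv ?_
    have h := hen τ
    rw [tc1, tc2]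
    field_simp at h ⊢
    linear_combination (-1 / 2) * h
  · intro τ
    refine ((((hκ τ).pow 2).const_sub 1).sqrt (hpos τ).ne').congr_deriv ?_
    have h5 := sq_sqrt (hpos τ).le
    have h6 := sqrt_pos.mpr (hpos τ)
    have h7 : √(1 - ((s1 τ + s2 τ) / (s1 τ - s2 τ)) ^ 2) ≠ 0 := h6.ne'
    generalize √(1 - ((s1 τ + s2 τ) / (s1 τ - s2 τ)) ^ 2) = z at *
    generalize (s1 τ + s2 τ) / (s1 τ - s2 τ) = k at *
    rw [← h5]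
    push_cast
    field_simp
  · intro τ
    have hn := (hne τ).ne'
    refine (((h3 τ).sub (h4 τ)).div_const 2).congr_deriv ?_
    rw [ts1, ts2]
    field_simp
    ring
  · intro τ
    show _ ^ 2 + (√(1 - ((s1 τ + s2 τ) / (s1 τ - s2 τ)) ^ 2)) ^ 2 = 1
    rw [sq_sqrt (hpos τ).le]
    ring
  · intro τ
    exact sqrt_pos.mpr (hpos τ)
  · intro τ
    exact half_pos (hne τ)

/-! ### The phase space curve -/

/-- `x₁` -/
noncomputable def px0 (ψ δ κ : ℝ) : ℝ := -(cos ψ * cos δ - κ * sin ψ * sin δ)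
/-- `x₂` -/
noncomputable def px1 (ψ δ κ : ℝ) : ℝ := -(sin ψ * cos δ + κ * cos ψ * sin δ)
/-- `x₃` -/
noncomputable def px2 (δ ν : ℝ) : ℝ := ν * sin δ
/-- `M₁` -/
noncomputable def pm0 (ψ ν l : ℝ) : ℝ := -(ν * l * sin ψ)
/-- `M₂` -/
noncomputable def pm1 (ψ ν l : ℝ) : ℝ := ν * l * cos ψ
/-- `M₃` -/
noncomputable def pm2 (κ l : ℝ) : ℝ := κ * l

/-- A solution of the Goryachev-Chaplygin system, in some time `τ` related to the physical time `t`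
by `dt = 2 ℓ dτ`. -/
structure GCSol (x0 x1 x2 m0 m1 m2 l : ℝ → ℝ) : Prop where
  dx0 : ∀ τ, HasDerivAt x0 (2 * l τ * (4 * x1 τ * m2 τ - x2 τ * m1 τ)) τ
  dx1 : ∀ τ, HasDerivAt x1 (2 * l τ * (x2 τ * m0 τ - 4 * x0 τ * m2 τ)) τ
  dx2 : ∀ τ, HasDerivAt x2 (2 * l τ * (x0 τ * m1 τ - x1 τ * m0 τ)) τ
  dm0 : ∀ τ, HasDerivAt m0 (2 * l τ * (3 * m1 τ * m2 τ)) τ
  dm1 : ∀ τ, HasDerivAt m1 (2 * l τ * (-3 * m0 τ * m2 τ + x2 τ / 20)) τ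
  dm2 : ∀ τ, HasDerivAt m2 (2 * l τ * (-(x1 τ / 20))) τ
  norm : ∀ τ, x0 τ ^ 2 + x1 τ ^ 2 + x2 τ ^ 2 = 1
  orth : ∀ τ, x0 τ * m0 τ + x1 τ * m1 τ + x2 τ * m2 τ = 0
  energy : ∀ τ, m0 τ ^ 2 + m1 τ ^ 2 + 4 * m2 τ ^ 2 = 2 * (1 - x0 τ / 20)
  lpos : ∀ τ, 0 < l τ
  lcont : Continuous l

theorem Orbit.gcSol {ψ δ κ ν l : ℝ → ℝ} (h : Orbit ψ δ κ ν l) :
    GCSol (fun τ => px0 (ψ τ) (δ τ) (κ τ)) (fun τ => px1 (ψ τ) (δ τ) (κ τ))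
      (fun τ => px2 (δ τ) (ν τ)) (fun τ => pm0 (ψ τ) (ν τ) (l τ)) (fun τ => pm1 (ψ τ) (ν τ) (l τ))
      (fun τ => pm2 (κ τ) (l τ)) l := by
  have tψ : ∀ τ, sin (ψ τ) ^ 2 + cos (ψ τ) ^ 2 = 1 := fun τ => sin_sq_add_cos_sq _
  have tδ : ∀ τ, sin (δ τ) ^ 2 + cos (δ τ) ^ 2 = 1 := fun τ => sin_sq_add_cos_sq _
  have cψ : ∀ τ, HasDerivAt (fun τ => cos (ψ τ)) _ τ := fun τ => (h.hψ τ).cos
  have sψ : ∀ τ, HasDerivAt (fun τ => sin (ψ τ)) _ τ := fun τ => (h.hψ τ).sin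
  have cδ : ∀ τ, HasDerivAt (fun τ => cos (δ τ)) _ τ := fun τ => (h.hδ τ).cos
  have sδ : ∀ τ, HasDerivAt (fun τ => sin (δ τ)) _ τ := fun τ => (h.hδ τ).sin
  refine ⟨?_, ?_, ?_, ?_, ?_, ?_, ?_, ?_, ?_, h.lpos, ?_⟩
  · intro τ
    refine ((((cψ τ).mul (cδ τ)).sub (((h.hκ τ).mul (sψ τ)).mul (sδ τ))).neg).congr_deriv ?_
    have u := h.unit τ
    simp only [px1, px2, pm1, pm2, Pi.mul_apply]
    linear_combination (2 * l τ ^ 2 * cos (ψ τ) * sin (δ τ)) * u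
  · intro τ
    refine ((((sψ τ).mul (cδ τ)).add (((h.hκ τ).mul (cψ τ)).mul (sδ τ))).neg).congr_deriv ?_
    have u := h.unit τ
    simp only [px0, px2, pm0, pm2, Pi.mul_apply]
    linear_combination (2 * l τ ^ 2 * sin (ψ τ) * sin (δ τ)) * u
  · intro τ
    refine ((h.hν τ).mul (sδ τ)).congr_deriv ?_
    simp only [px0, px1, pm0, pm1]
    linear_combination (2 * l τ ^ 2 * ν τ * cos (δ τ)) * tψ τ
  · intro τ
    refine ((((h.hν τ).mul (h.hl τ)).mul (sψ τ)).neg).congr_deriv ?_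
    simp only [pm1, pm2, Pi.mul_apply]
    ring
  · intro τ
    refine ((((h.hν τ).mul (h.hl τ)).mul (cψ τ))).congr_deriv ?_
    simp only [pm0, pm2, px2, Pi.mul_apply]
    linear_combination (l τ * ν τ * sin (δ τ) / 10) * tψ τ
  · intro τ
    refine ((h.hκ τ).mul (h.hl τ)).congr_deriv ?_
    simp only [px1]
    ring
  · intro τ
    have u := h.unit τ
    simp only [px0, px1, px2]
    linear_combination (cos (δ τ) ^ 2 + κ τ ^ 2 * sin (δ τ) ^ 2) * tψ τ + sin (δ τ) ^ 2 * u + tδ τ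
  · intro τ
    simp only [px0, px1, px2, pm0, pm1, pm2]
    linear_combination (- κ τ * ν τ * l τ * sin (δ τ)) * tψ τ
  · intro τ
    have e := h.energy τ
    have u := h.unit τ
    simp only [px0, pm0, pm1, pm2]
    linear_combination (ν τ ^ 2 * l τ ^ 2) * tψ τ + e + l τ ^ 2 * u
  · exact continuous_iff_continuousAt.mpr fun τ => (h.hl τ).continuousAt

end Pool.Agent.H780.GC
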