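import Mathlib

/-!
# Autonomous scalar equations `X' = w (X)`
-/

set_option autoImplicit false

open Real MeasureTheory Filter Topology

namespace Pool.Agent.H780.GC

/-- The primitive of `1 / w` which vanishes at `0`. -/
noncomputable def prim (w : ℝ → ℝ) (x : ℝ) : ℝ := ∫ t in (0:ℝ)..x, (w t)⁻¹

lemma prim_zero (w : ℝ → ℝ) : prim w 0 = 0 := by unfold prim; simp

lemma hasDerivAt_prim {w : ℝ → ℝ} (hw : Continuous w) (hpos : ∀ x, 0 < w x) (x : ℝ) :
    HasDerivAt (prim w) (w x)⁻¹ x := by
  have hc : Continuous fun t => (w t)⁻¹ := hw.inv₀ fun t => (hpos t).ne'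
  exact intervalIntegral.integral_hasDerivAt_right (hc.intervalIntegrable _ _)
    (hc.stronglyMeasurableAtFilter _ _) hc.continuousAt

lemma strictMono_prim {w : ℝ → ℝ} (hw : Continuous w) (hpos : ∀ x, 0 < w x) :
    StrictMono (prim w) := by
  apply strictMono_of_deriv_pos
  intro x
  rw [(hasDerivAt_prim hw hpos x).deriv]
  exact inv_pos.mpr (hpos x)

lemma continuous_prim {w : ℝ → ℝ} (hw : Continuous w) (hpos : ∀ x, 0 < w x) :
    Continuous (prim w) :=
  continuous_iff_continuousAt.mpr fun x => (hasDerivAt_prim hw hpos x).continuousAt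

lemma surjective_prim {w : ℝ → ℝ} (hw : Continuous w) (c : ℝ) (hpos : ∀ x, 0 < w x)
    (hbd : ∀ x, w x ≤ c) : Function.Surjective (prim w) := by
  have hc : 0 < c := (hpos 0).trans_le (hbd 0)
  have hder : ∀ x, HasDerivAt (fun x => prim w x - x / c) ((w x)⁻¹ - 1 / c) x := fun x =>
    (hasDerivAt_prim hw hpos x).sub ((hasDerivAt_id x).div_const c)
  have hmono : Monotone fun x => prim w x - x / c := by
    apply monotone_of_deriv_nonneg
    · intro x
      exact (hder x).differentiableAt
    · intro x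
      rw [(hder x).deriv]
      have : 1 / c ≤ (w x)⁻¹ := by
        rw [one_div]
        exact inv_anti₀ (hpos x) (hbd x)
      linarith
  have h0 : prim w 0 - 0 / c = 0 := by rw [prim_zero]; simp
  apply (continuous_prim hw hpos).surjective
  · apply tendsto_atTop_mono' (f₁ := fun x => x / c)
    · filter_upwards [eventually_ge_atTop 0] with x hx
      have := hmono hx
      simp only [h0] at this
      linarith
    · exact tendsto_id.atTop_div_const hc
  · refine tendsto_atBot_mono' atBot (f₂ := prim w) (f₁ := fun x => x / c) ?_ ?_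
    · filter_upwards [eventually_le_atBot 0] with x hx
      have := hmono hx
      simp only [h0] at this
      linarith
    · exact tendsto_id.atBot_div_const hc

/-- The solution of `X' = w (X)`, `X 0 = 0`. -/
theorem exists_flow {w : ℝ → ℝ} (hw : Continuous w) (c : ℝ) (hpos : ∀ x, 0 < w x)
    (hbd : ∀ x, w x ≤ c) :
    ∃ X : ℝ → ℝ, (∀ θ, HasDerivAt X (w (X θ)) θ) ∧ (∀ x, X (prim w x) = x) ∧
      (∀ θ, prim w (X θ) = θ) := by
  let e := (strictMono_prim hw hpos).orderIsoOfSurjective _ (surjective_prim hw c hpos hbd)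
  have he : ∀ x, e x = prim w x := fun x => rfl
  have h1 : ∀ x, e.symm (prim w x) = x := fun x => by rw [← he]; exact e.symm_apply_apply x
  have h2 : ∀ θ, prim w (e.symm θ) = θ := fun θ => by rw [← he]; exact e.apply_symm_apply θ
  refine ⟨e.symm, ?_, h1, h2⟩
  intro θ
  have h3 := HasDerivAt.of_local_left_inverse (f := prim w) (g := e.symm) (a := θ)
    (e.symm.continuous.continuousAt) (hasDerivAt_prim hw hpos (e.symm θ))
    (inv_ne_zero (hpos _).ne') (Eventually.of_forall h2)
  rwa [inv_inv] at h3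

/-- Periodicity of the primitive up to the period. -/
lemma prim_add_period {w : ℝ → ℝ} (hw : Continuous w) (hpos : ∀ x, 0 < w x)
    (hper : ∀ x, w (x + 2 * π) = w x) (x : ℝ) :
    prim w (x + 2 * π) = prim w x + prim w (2 * π) := by
  have hc : Continuous fun t => (w t)⁻¹ := hw.inv₀ fun t => (hpos t).ne'
  have hp : Function.Periodic (fun t => (w t)⁻¹) (2 * π) := fun t => by simp [hper t]
  unfold prim
  rw [← intervalIntegral.integral_add_adjacent_intervals (hc.intervalIntegrable 0 x)
    (hc.intervalIntegrable x (x + 2 * π)), hp.intervalIntegral_add_eq x 0, zero_add]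

lemma prim_add_int {w : ℝ → ℝ} (hw : Continuous w) (hpos : ∀ x, 0 < w x)
    (hper : ∀ x, w (x + 2 * π) = w x) (x : ℝ) (n : ℤ) :
    prim w (x + n * (2 * π)) = prim w x + n * prim w (2 * π) := by
  induction n using Int.induction_on with
  | zero => simp
  | succ n ih =>
    have := prim_add_period hw hpos hper (x + (n : ℤ) * (2 * π))
    push_cast at *
    rw [show x + ((n : ℝ) + 1) * (2 * π) = x + n * (2 * π) + 2 * π by ring, this, ih]
    ring
  | pred n ih =>
    have := prim_add_period hw hpos hper (x + (-(n : ℝ) - 1) * (2 * π))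
    push_cast at *
    rw [show x + (-(n : ℝ) - 1) * (2 * π) + 2 * π = x + -(n : ℝ) * (2 * π) by ring, ih] at this
    linarith

lemma flow_add_int {w X : ℝ → ℝ} (hw : Continuous w) (hpos : ∀ x, 0 < w x)
    (hper : ∀ x, w (x + 2 * π) = w x) (h1 : ∀ x, X (prim w x) = x)
    (h2 : ∀ θ, prim w (X θ) = θ) (θ : ℝ) (n : ℤ) :
    X (θ + n * prim w (2 * π)) = X θ + n * (2 * π) := by
  have h3 := prim_add_int hw hpos hper (X θ) n
  rw [h2] at h3
  rw [← h3, h1]

/-- Smaller speeds give larger periods. -/
lemma prim_lt {w w' : ℝ → ℝ} (hw : Continuous w) (hw' : Continuous w') (hpos : ∀ x, 0 < w x)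
    (hlt : ∀ x, w x < w' x) : prim w' (2 * π) < prim w (2 * π) := by
  have hpos' : ∀ x, 0 < w' x := fun x => (hpos x).trans (hlt x)
  have hc : Continuous fun t => (w t)⁻¹ := hw.inv₀ fun t => (hpos t).ne'
  have hc' : Continuous fun t => (w' t)⁻¹ := hw'.inv₀ fun t => (hpos' t).ne'
  have hpi : (0:ℝ) < 2 * π := by positivity
  unfold prim
  apply intervalIntegral.integral_lt_integral_of_continuousOn_of_le_of_exists_lt hpi
    hc'.continuousOn hc.continuousOn
  · intro x _
    exact inv_anti₀ (hpos x) (hlt x).le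
  · exact ⟨0, ⟨le_refl _, hpi.le⟩, inv_strictAnti₀ (hpos 0) (hlt 0)⟩

lemma prim_two_pi_pos {w : ℝ → ℝ} (hw : Continuous w) (hpos : ∀ x, 0 < w x) :
    0 < prim w (2 * π) := by
  have := strictMono_prim hw hpos (show (0:ℝ) < 2 * π by positivity)
  rwa [prim_zero] at this

end Pool.Agent.H780.GC
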