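import Mathlib
import Pool.Agent.H780.GC.Metric
import Pool.Agent.H780.GC.TimeChange
import Pool.Agent.H780.GC.Flow

/-!
# Solutions of the Goryachev-Chaplygin system are geodesics
-/

set_option autoImplicit false

open scoped ContDiff
open Real

namespace Pool.Agent.H780.GC

/-- A solution of the Goryachev-Chaplygin system of energy one, parametrized by arc length. -/
structure GeoSol (x0 x1 x2 m0 m1 m2 : ℝ → ℝ) : Prop where
  dx0 : ∀ s, HasDerivAt x0 (1 / (√2 * (1 - x0 s / 20)) * (4 * x1 s * m2 s - x2 s * m1 s)) s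
  dx1 : ∀ s, HasDerivAt x1 (1 / (√2 * (1 - x0 s / 20)) * (x2 s * m0 s - 4 * x0 s * m2 s)) s
  dx2 : ∀ s, HasDerivAt x2 (1 / (√2 * (1 - x0 s / 20)) * (x0 s * m1 s - x1 s * m0 s)) s
  dm0 : ∀ s, HasDerivAt m0 (1 / (√2 * (1 - x0 s / 20)) * (3 * m1 s * m2 s)) s
  dm1 : ∀ s, HasDerivAt m1 (1 / (√2 * (1 - x0 s / 20)) * (-3 * m0 s * m2 s + x2 s / 20)) s
  dm2 : ∀ s, HasDerivAt m2 (1 / (√2 * (1 - x0 s / 20)) * (-(x1 s / 20))) s
  norm : ∀ s, x0 s ^ 2 + x1 s ^ 2 + x2 s ^ 2 = 1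
  orth : ∀ s, x0 s * m0 s + x1 s * m1 s + x2 s * m2 s = 0
  energy : ∀ s, m0 s ^ 2 + m1 s ^ 2 + 4 * m2 s ^ 2 = 2 * (1 - x0 s / 20)

/-- Passage to the arc length parameter. -/
theorem GCSol.timeChange {x0 x1 x2 m0 m1 m2 l : ℝ → ℝ} (h : GCSol x0 x1 x2 m0 m1 m2 l)
    (hl : ∀ τ, 1 / 2 ≤ l τ) :
    ∃ T : ℝ → ℝ, T 0 = 0 ∧ Function.Surjective T ∧
      GeoSol (fun s => x0 (T s)) (fun s => x1 (T s)) (fun s => x2 (T s)) (fun s => m0 (T s))
        (fun s => m1 (T s)) (fun s => m2 (T s)) := by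
  have hx0 : Continuous x0 := continuous_iff_continuousAt.mpr fun τ => (h.dx0 τ).continuousAt
  have hρ : ∀ τ, 19 / 20 ≤ 1 - x0 τ / 20 := by
    intro τ
    have := h.norm τ
    nlinarith [sq_nonneg (x1 τ), sq_nonneg (x2 τ)]
  have h2 : 1 ≤ √2 := by
    rw [show (1:ℝ) = √1 by simp]
    exact sqrt_le_sqrt (by norm_num)
  have hd : ∀ τ, 1 / 2 ≤ √2 * (1 - x0 τ / 20) * (2 * l τ) := by
    intro τ
    have a1 := hρ τ
    have a2 := hl τ
    have a3 : 19 / 20 ≤ √2 * (1 - x0 τ / 20) := by nlinarith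
    nlinarith
  have hcont : Continuous fun τ => (√2 * (1 - x0 τ / 20) * (2 * l τ))⁻¹ := by
    apply Continuous.inv₀
    · exact (continuous_const.mul (continuous_const.sub (hx0.div_const 20))).mul
        (continuous_const.mul h.lcont)
    · intro τ
      have := hd τ
      linarith
  obtain ⟨T, hT, hT1, hT2⟩ := exists_flow hcont 2
    (fun τ => inv_pos.mpr (by linarith [hd τ]))
    (fun τ => (inv_anti₀ (by norm_num) (hd τ)).trans_eq (by norm_num))
  have key : ∀ (f : ℝ → ℝ) (f' : ℝ → ℝ), (∀ τ, HasDerivAt f (2 * l τ * f' τ) τ) →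
      ∀ s, HasDerivAt (fun s => f (T s)) (1 / (√2 * (1 - x0 (T s) / 20)) * f' (T s)) s := by
    intro f f' hf s
    refine ((hf (T s)).comp s (hT s)).congr_deriv ?_
    have a1 : (√2 * (1 - x0 (T s) / 20)) ≠ 0 := by
      have := hρ (T s)
      have : 0 < √2 * (1 - x0 (T s) / 20) := by positivity
      exact this.ne'
    have a2 : l (T s) ≠ 0 := (h.lpos _).ne'
    field_simp
  refine ⟨T, ?_, fun τ => ⟨prim _ τ, hT1 τ⟩, ?_⟩
  · have := hT1 0
    rwa [prim_zero] at this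
  · exact ⟨key _ _ h.dx0, key _ _ h.dx1, key _ _ h.dx2, key _ _ h.dm0, key _ _ h.dm1,
      key _ _ h.dm2, fun s => h.norm _, fun s => h.orth _, fun s => h.energy _⟩

section

variable {x0 x1 x2 m0 m1 m2 : ℝ → ℝ} (h : GeoSol x0 x1 x2 m0 m1 m2)

include h

lemma GeoSol.rho (s : ℝ) : 19 / 20 ≤ 1 - x0 s / 20 := by
  have := h.norm s
  nlinarith [sq_nonneg (x1 s), sq_nonneg (x2 s)]

lemma GeoSol.contDiff (n : ℕ) : ContDiff ℝ n x0 ∧ ContDiff ℝ n x1 ∧ ContDiff ℝ n x2 ∧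
    ContDiff ℝ n m0 ∧ ContDiff ℝ n m1 ∧ ContDiff ℝ n m2 := by
  have d0 : Differentiable ℝ x0 := fun s => (h.dx0 s).differentiableAt
  have d1 : Differentiable ℝ x1 := fun s => (h.dx1 s).differentiableAt
  have d2 : Differentiable ℝ x2 := fun s => (h.dx2 s).differentiableAt
  have d3 : Differentiable ℝ m0 := fun s => (h.dm0 s).differentiableAt
  have d4 : Differentiable ℝ m1 := fun s => (h.dm1 s).differentiableAt
  have d5 : Differentiable ℝ m2 := fun s => (h.dm2 s).differentiableAt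
  induction n with
  | zero =>
    simp only [Nat.cast_zero, contDiff_zero]
    exact ⟨d0.continuous, d1.continuous, d2.continuous, d3.continuous, d4.continuous,
      d5.continuous⟩
  | succ n ih =>
    obtain ⟨c0, c1, c2, c3, c4, c5⟩ := ih
    have ck : ContDiff ℝ n fun s => 1 / (√2 * (1 - x0 s / 20)) := by
      refine contDiff_const.div (contDiff_const.mul (contDiff_const.sub (c0.div_const 20))) ?_
      intro s
      have := h.rho s
      have : 0 < √2 * (1 - x0 s / 20) := by positivity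
      exact this.ne'
    have step : ∀ f f' : ℝ → ℝ, Differentiable ℝ f → (∀ s, HasDerivAt f (f' s) s) →
        ContDiff ℝ n f' → ContDiff ℝ ((n + 1 : ℕ) : WithTop ℕ∞) f := by
      intro f f' hf hd hc
      rw [Nat.cast_add, Nat.cast_one, contDiff_succ_iff_deriv]
      refine ⟨hf, fun hn => absurd hn (by simp), ?_⟩
      rw [show deriv f = f' from funext fun s => (hd s).deriv]
      exact hc
    refine ⟨step _ _ d0 h.dx0 ?_, step _ _ d1 h.dx1 ?_, step _ _ d2 h.dx2 ?_,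
      step _ _ d3 h.dm0 ?_, step _ _ d4 h.dm1 ?_, step _ _ d5 h.dm2 ?_⟩
    · exact ck.mul (((contDiff_const.mul c1).mul c5).sub (c2.mul c4))
    · exact ck.mul ((c2.mul c3).sub ((contDiff_const.mul c0).mul c5))
    · exact ck.mul ((c0.mul c4).sub (c1.mul c3))
    · exact ck.mul ((contDiff_const.mul c4).mul c5)
    · exact ck.mul (((contDiff_const.mul c3).mul c5).add (c2.div_const 20))
    · exact ck.mul (c1.div_const 20).neg

lemma GeoSol.contDiff_curve : ContDiff ℝ ∞ (fun s => (![x0 s, x1 s, x2 s] : R3)) := by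
  rw [contDiff_infty]
  intro n
  obtain ⟨c0, c1, c2, -⟩ := h.contDiff n
  rw [contDiff_pi]
  intro i
  fin_cases i
  · exact c0
  · exact c1
  · exact c2

lemma GeoSol.mem (s : ℝ) : (![x0 s, x1 s, x2 s] : R3) ∈ S2 := by
  show x0 s * x0 s + x1 s * x1 s + x2 s * x2 s = 1
  have := h.norm s
  linarith

lemma GeoSol.orth' (s : ℝ) : dot ![x0 s, x1 s, x2 s] ![m0 s, m1 s, m2 s] = 0 := h.orth s

/-- The velocity. -/
lemma GeoSol.hasDerivAt (s : ℝ) : HasDerivAt (fun s => (![x0 s, x1 s, x2 s] : R3))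
    ((1 / (√2 * (1 - x0 s / 20))) • velo ![x0 s, x1 s, x2 s] ![m0 s, m1 s, m2 s]) s := by
  rw [hasDerivAt_pi]
  intro i
  fin_cases i
  · exact h.dx0 s
  · exact h.dx1 s
  · exact h.dx2 s

lemma GeoSol.momentum (w : R3) (s : ℝ) :
    gcMetric.ip ![x0 s, x1 s, x2 s] (deriv (fun s => (![x0 s, x1 s, x2 s] : R3)) s) w
      = (1 / √2) * ((x1 s * m2 s - x2 s * m1 s) * w 0 + (x2 s * m0 s - x0 s * m2 s) * w 1
        + (x0 s * m1 s - x1 s * m0 s) * w 2) := by
  rw [(h.hasDerivAt s).deriv, ip_smul_left, ip_velo (h.mem s) (h.orth' s)]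
  have h1 := h.rho s
  have h2 : 1 - x0 s / 20 ≠ 0 := by linarith
  have h3 : √2 ≠ 0 := by positivity
  simp only [Matrix.cons_val_zero, Matrix.cons_val_one, Matrix.cons_val_two,
    Matrix.tail_cons, Matrix.head_cons]
  generalize (1 - x0 s / 20) = ρ at *
  field_simp

lemma GeoSol.speed (s : ℝ) :
    gcMetric.ip ![x0 s, x1 s, x2 s] (deriv (fun s => (![x0 s, x1 s, x2 s] : R3)) s)
      (deriv (fun s => (![x0 s, x1 s, x2 s] : R3)) s) = 1 := by
  rw [(h.hasDerivAt s).deriv, ip_smul_left, ip_smul_right, ip_velo_velo (h.mem s) (h.orth' s)]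
  have h1 := h.rho s
  have h2 : 1 - x0 s / 20 ≠ 0 := by linarith
  have h3 := h.energy s
  have h4 : √2 ^ 2 = 2 := sq_sqrt (by norm_num)
  simp only [Matrix.cons_val_zero, Matrix.cons_val_one, Matrix.cons_val_two,
    Matrix.tail_cons, Matrix.head_cons]
  rw [h3]
  have h5 : √2 ≠ 0 := by positivity
  generalize (1 - x0 s / 20) = ρ at *
  field_simp
  linarith

end

/-- The derivative of the energy with respect to the point. -/
lemma fderiv_ip (x v w : R3) :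
    fderiv ℝ (fun y => gcMetric.ip y v v / 2) x w
      = -(w 0 / 40) * (dot v v - 3 * (x 0 * v 1 - x 1 * v 0) ^ 2 / (1 + 3 * (x 0 ^ 2 + x 1 ^ 2)))
        + (1 - x 0 / 20) * (-3 * (x 0 * v 1 - x 1 * v 0) * (w 0 * v 1 - w 1 * v 0)
            / (1 + 3 * (x 0 ^ 2 + x 1 ^ 2))
          + 9 * (x 0 * v 1 - x 1 * v 0) ^ 2 * (x 0 * w 0 + x 1 * w 1)
            / (1 + 3 * (x 0 ^ 2 + x 1 ^ 2)) ^ 2) := by
  have hdiff : DifferentiableAt ℝ (fun y => gcMetric.ip y v v / 2) x := by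
    have : ContDiff ℝ ∞ (fun y => gcMetric.ip y v v / 2) := by
      unfold SphereMetric.ip
      refine ContDiff.div_const ?_ 2
      refine ContDiff.sum fun i _ => ContDiff.sum fun j _ => ?_
      exact ((gcMetric.smooth i j).mul contDiff_const).mul contDiff_const
    exact this.differentiable (by simp) x
  rw [← hdiff.lineDeriv_eq_fderiv]
  unfold lineDeriv
  have hq : (1 + 3 * (x 0 ^ 2 + x 1 ^ 2)) ≠ 0 := by positivity
  have e : (fun t : ℝ => gcMetric.ip (x + t • w) v v / 2) = fun t : ℝ =>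
      (1 - (x 0 + t * w 0) / 20) * (dot v v - 3 * (((x 0 + t * w 0) * v 1 - (x 1 + t * w 1) * v 0)
        * ((x 0 + t * w 0) * v 1 - (x 1 + t * w 1) * v 0))
        / (1 + 3 * ((x 0 + t * w 0) ^ 2 + (x 1 + t * w 1) ^ 2))) / 2 := by
    funext t
    rw [ip_eq]
    simp only [Pi.add_apply, Pi.smul_apply, smul_eq_mul]
  rw [e]
  have a0 : HasDerivAt (fun t : ℝ => x 0 + t * w 0) (w 0) 0 := by
    simpa using ((hasDerivAt_id (0:ℝ)).mul_const (w 0)).const_add (x 0)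
  have a1 : HasDerivAt (fun t : ℝ => x 1 + t * w 1) (w 1) 0 := by
    simpa using ((hasDerivAt_id (0:ℝ)).mul_const (w 1)).const_add (x 1)
  have b : HasDerivAt (fun t : ℝ => (x 0 + t * w 0) * v 1 - (x 1 + t * w 1) * v 0)
      (w 0 * v 1 - w 1 * v 0) 0 := (a0.mul_const (v 1)).sub (a1.mul_const (v 0))
  have c : HasDerivAt (fun t : ℝ => 1 + 3 * ((x 0 + t * w 0) ^ 2 + (x 1 + t * w 1) ^ 2))
      (3 * (2 * (x 0 + 0 * w 0) * w 0 + 2 * (x 1 + 0 * w 1) * w 1)) 0 := by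
    have := (((a0.pow 2).add (a1.pow 2)).const_mul 3).const_add 1
    simpa using this
  have d := ((((a0.div_const 20).const_sub 1).mul
    ((((b.mul b).const_mul 3).div c (by simpa using hq)).const_sub (dot v v)))).div_const 2
  have d' : HasDerivAt (fun t : ℝ =>
      (1 - (x 0 + t * w 0) / 20) * (dot v v - 3 * (((x 0 + t * w 0) * v 1 - (x 1 + t * w 1) * v 0)
        * ((x 0 + t * w 0) * v 1 - (x 1 + t * w 1) * v 0))
        / (1 + 3 * ((x 0 + t * w 0) ^ 2 + (x 1 + t * w 1) ^ 2))) / 2) _ 0 := d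
  rw [d'.deriv]
  simp only [zero_mul, add_zero, Pi.mul_apply, Pi.div_apply]
  generalize dot v v = V
  field_simp
  ring

section

variable {x0 x1 x2 m0 m1 m2 : ℝ → ℝ} (h : GeoSol x0 x1 x2 m0 m1 m2)

include h

theorem GeoSol.isGeodesic : gcMetric.IsGeodesic (fun s => (![x0 s, x1 s, x2 s] : R3)) := by
  refine ⟨h.contDiff_curve, h.mem, h.speed, ?_⟩
  intro s w hw
  have hw' : x0 s * w 0 + x1 s * w 1 + x2 s * w 2 = 0 := hw
  have e1 : (fun s => gcMetric.ip ((fun s => (![x0 s, x1 s, x2 s] : R3)) s)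
      (deriv (fun s => (![x0 s, x1 s, x2 s] : R3)) s) w) = fun s =>
      (1 / √2) * ((x1 s * m2 s - x2 s * m1 s) * w 0 + (x2 s * m0 s - x0 s * m2 s) * w 1
        + (x0 s * m1 s - x1 s * m0 s) * w 2) := funext fun s => h.momentum w s
  rw [e1]
  have d : HasDerivAt (fun s =>
      (1 / √2) * ((x1 s * m2 s - x2 s * m1 s) * w 0 + (x2 s * m0 s - x0 s * m2 s) * w 1
        + (x0 s * m1 s - x1 s * m0 s) * w 2)) _ s :=
    ((((((h.dx1 s).mul (h.dm2 s)).sub ((h.dx2 s).mul (h.dm1 s))).mul_const (w 0)).add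
      ((((h.dx2 s).mul (h.dm0 s)).sub ((h.dx0 s).mul (h.dm2 s))).mul_const (w 1))).add
      ((((h.dx0 s).mul (h.dm1 s)).sub ((h.dx1 s).mul (h.dm0 s))).mul_const (w 2))).const_mul
        (1 / √2)
  rw [d.deriv, fderiv_ip]
  have hv : deriv (fun s => (![x0 s, x1 s, x2 s] : R3)) s =
    ((1 / (√2 * (1 - x0 s / 20))) • velo ![x0 s, x1 s, x2 s] ![m0 s, m1 s, m2 s]) :=
    (h.hasDerivAt s).deriv
  rw [hv]
  have hρ := h.rho s
  have hsp := h.speed s
  rw [hv, ip_eq] at hsp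
  have heta := eta_velo (h.mem s) (h.orth' s)
  have hn := h.norm s
  have ho := h.orth s
  have h4 : √2 ^ 2 = 2 := sq_sqrt (by norm_num)
  have h5 : √2 ≠ 0 := by positivity
  have hP : ((x2 s * m0 s - 4 * x0 s * m2 s) * m2 s + x1 s * (-(x1 s / 20))
        - (x0 s * m1 s - x1 s * m0 s) * m1 s - x2 s * (-3 * m0 s * m2 s + x2 s / 20)) * w 0
      + ((x0 s * m1 s - x1 s * m0 s) * m0 s + x2 s * (3 * m1 s * m2 s)
        - (4 * x1 s * m2 s - x2 s * m1 s) * m2 s - x0 s * (-(x1 s / 20))) * w 1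
      + ((4 * x1 s * m2 s - x2 s * m1 s) * m1 s + x0 s * (-3 * m0 s * m2 s + x2 s / 20)
        - (x2 s * m0 s - 4 * x0 s * m2 s) * m0 s - x1 s * (3 * m1 s * m2 s)) * w 2
      = 3 * x2 s * m2 s * (m0 s * w 0 + m1 s * w 1 + m2 s * w 2) - w 0 / 20 := by
    linear_combination (m0 s * w 0 + m1 s * w 1 + m2 s * w 2) * ho - w 0 / 20 * hn
      - (m0 s ^ 2 + m1 s ^ 2 + 4 * m2 s ^ 2 - x0 s / 20) * hw'
  simp only [velo, Pi.smul_apply, smul_eq_mul, Matrix.cons_val_zero, Matrix.cons_val_one,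
    Matrix.cons_val_two, Matrix.tail_cons, Matrix.head_cons] at hsp heta ⊢
  generalize dot _ _ = V at hsp ⊢
  have hρ0 : (1 - x0 s / 20) ≠ 0 := by linarith
  obtain ⟨k, hk⟩ : ∃ k, k = 1 / (√2 * (1 - x0 s / 20)) := ⟨_, rfl⟩
  obtain ⟨q, hq⟩ : ∃ q, q = 1 + 3 * (x0 s ^ 2 + x1 s ^ 2) := ⟨_, rfl⟩
  have hq0 : q ≠ 0 := by
    rw [hq]
    positivity
  have hk1 : 1 / √2 = k * (1 - x0 s / 20) := by
    rw [hk]
    generalize (1 - x0 s / 20) = ρ at *
    field_simp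
  have hk2 : 1 / (1 - x0 s / 20) = 2 * k ^ 2 * (1 - x0 s / 20) := by
    rw [hk]
    generalize (1 - x0 s / 20) = ρ at *
    field_simp
    linarith
  rw [← hk, ← hq] at hsp ⊢
  rw [← hq] at heta
  have hη : x0 s * (k * (x2 s * m0 s - 4 * x0 s * m2 s))
      - x1 s * (k * (4 * x1 s * m2 s - x2 s * m1 s)) = -(k * q * m2 s) := by
    linear_combination k * heta
  rw [hη] at hsp ⊢
  have hV : V - 3 * (-(k * q * m2 s)) ^ 2 / q = 2 * k ^ 2 * (1 - x0 s / 20) := by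
    rw [← hk2, eq_div_iff hρ0]
    linear_combination hsp
  rw [hV, hk1]
  have g1 : ∀ A : ℝ, -3 * (-(k * q * m2 s)) * A / q = 3 * k * m2 s * A := by
    intro A
    field_simp
  have g2 : ∀ A : ℝ, 9 * (-(k * q * m2 s)) ^ 2 * A / q ^ 2 = 9 * k ^ 2 * m2 s ^ 2 * A := by
    intro A
    field_simp
  rw [g1, g2]
  linear_combination ((1 - x0 s / 20) * k ^ 2) * hP
    + 3 * (1 - x0 s / 20) * k ^ 2 * m2 s ^ 2 * hw'

end

end Pool.Agent.H780.GC
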