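import Mathlib

/-!
# The roots of the cubic `s ^ 3 = 3 Y s + 2 G`
-/

set_option autoImplicit false

open Real

namespace Pool.Agent.H780.GC

/-- The coefficient `Y = 2 (1 + r cos χ) / 3`, `r = 1/20`. -/
noncomputable def Y (χ : ℝ) : ℝ := 2 * (1 + cos χ / 20) / 3

/-- The auxiliary angle. -/
noncomputable def bet (G χ : ℝ) : ℝ := arccos (G / (Y χ * √(Y χ))) / 3

/-- The positive root. -/
noncomputable def rp (G χ : ℝ) : ℝ := 2 * √(Y χ) * cos (bet G χ)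

/-- The negative root below `-√Y`. -/
noncomputable def rm (G χ : ℝ) : ℝ := 2 * √(Y χ) * cos (bet G χ + 2 * π / 3)

lemma Y_lower (χ : ℝ) : 19 / 30 ≤ Y χ := by
  have := neg_one_le_cos χ; unfold Y; linarith

lemma Y_upper (χ : ℝ) : Y χ ≤ 7 / 10 := by
  have := cos_le_one χ; unfold Y; linarith

lemma Y_pos (χ : ℝ) : 0 < Y χ := by linarith [Y_lower χ]

lemma sqrtY_pos (χ : ℝ) : 0 < √(Y χ) := sqrt_pos.mpr (Y_pos χ)

lemma sqrtY_sq (χ : ℝ) : √(Y χ) ^ 2 = Y χ := sq_sqrt (Y_pos χ).le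

lemma sqrtY_lower (χ : ℝ) : 3 / 4 ≤ √(Y χ) := by
  apply le_sqrt_of_sq_le
  have := Y_lower χ
  norm_num
  linarith

lemma YY_lower (χ : ℝ) : 19 / 40 ≤ Y χ * √(Y χ) := by
  have h1 := Y_lower χ
  have h2 := sqrtY_lower χ
  nlinarith

lemma arg_nonneg {G : ℝ} (hG : 0 ≤ G) (χ : ℝ) : 0 ≤ G / (Y χ * √(Y χ)) :=
  div_nonneg hG (by linarith [YY_lower χ])

lemma arg_lt {G : ℝ} (hG' : G ≤ 1 / 10) (χ : ℝ) : G / (Y χ * √(Y χ)) < 1 / 2 := by
  have := YY_lower χ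
  rw [div_lt_iff₀ (by linarith)]
  linarith

lemma bet_upper {G : ℝ} (hG : 0 ≤ G) (χ : ℝ) : bet G χ ≤ π / 6 := by
  have := arccos_le_pi_div_two.mpr (arg_nonneg hG χ)
  unfold bet
  linarith

lemma bet_lower {G : ℝ} (hG' : G ≤ 1 / 10) (χ : ℝ) : 0 < bet G χ := by
  have h := arg_lt hG' χ
  have : 0 < arccos (G / (Y χ * √(Y χ))) := arccos_pos.mpr (by linarith)
  unfold bet
  linarith

lemma cos_three_bet {G : ℝ} (hG : 0 ≤ G) (hG' : G ≤ 1 / 10) (χ : ℝ) :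
    cos (3 * bet G χ) * (Y χ * √(Y χ)) = G := by
  have h0 : 3 * bet G χ = arccos (G / (Y χ * √(Y χ))) := by unfold bet; ring
  rw [h0, cos_arccos (by linarith [arg_nonneg hG χ]) (by linarith [arg_lt hG' χ])]
  have := YY_lower χ
  exact div_mul_cancel₀ G (by linarith)

lemma cubic_aux {b s y G : ℝ} (hs : s ^ 2 = y) (h : cos (3 * b) * (y * s) = G) :
    (2 * s * cos b) ^ 3 = 3 * y * (2 * s * cos b) + 2 * G := by
  rw [← h, cos_three_mul, ← hs]; ring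

lemma rp_cubic {G : ℝ} (hG : 0 ≤ G) (hG' : G ≤ 1 / 10) (χ : ℝ) :
    rp G χ ^ 3 = 3 * Y χ * rp G χ + 2 * G :=
  cubic_aux (sqrtY_sq χ) (cos_three_bet hG hG' χ)

lemma rm_cubic {G : ℝ} (hG : 0 ≤ G) (hG' : G ≤ 1 / 10) (χ : ℝ) :
    rm G χ ^ 3 = 3 * Y χ * rm G χ + 2 * G := by
  refine cubic_aux (sqrtY_sq χ) ?_
  rw [show 3 * (bet G χ + 2 * π / 3) = 3 * bet G χ + 2 * π by ring, cos_add_two_pi]
  exact cos_three_bet hG hG' χ

lemma cos_bet_lower {G : ℝ} (hG : 0 ≤ G) (hG' : G ≤ 1 / 10) (χ : ℝ) : √3 / 2 ≤ cos (bet G χ) := by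
  rw [← cos_pi_div_six]
  exact cos_le_cos_of_nonneg_of_le_pi (bet_lower hG' χ).le (by linarith [pi_pos]) (bet_upper hG χ)

lemma rp_lower {G : ℝ} (hG : 0 ≤ G) (hG' : G ≤ 1 / 10) (χ : ℝ) :
    √3 * √(Y χ) ≤ rp G χ := by
  have h1 := cos_bet_lower hG hG' χ
  have h2 := sqrtY_pos χ
  unfold rp
  nlinarith

lemma rp_pos {G : ℝ} (hG : 0 ≤ G) (hG' : G ≤ 1 / 10) (χ : ℝ) : 0 < rp G χ := by
  have := rp_lower hG hG' χ
  have : 0 < √3 * √(Y χ) := mul_pos (by positivity) (sqrtY_pos χ)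
  linarith

lemma rp_sq {G : ℝ} (hG : 0 ≤ G) (hG' : G ≤ 1 / 10) (χ : ℝ) : 3 * Y χ ≤ rp G χ ^ 2 := by
  have h1 := rp_lower hG hG' χ
  have h2 : 0 < √3 * √(Y χ) := mul_pos (by positivity) (sqrtY_pos χ)
  have h3 : (√3 * √(Y χ)) ^ 2 = 3 * Y χ := by
    rw [mul_pow, sqrtY_sq, sq_sqrt (by norm_num)]
  nlinarith

/-- The negative root is below `-√Y`. -/
lemma rm_upper {G : ℝ} (hG : 0 ≤ G) (hG' : G ≤ 1 / 10) (χ : ℝ) : rm G χ < -√(Y χ) := by
  have h1 : cos (bet G χ + 2 * π / 3) < - (1 / 2) := by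
    have h : cos (2 * π / 3) = -(1 / 2) := by
      rw [show 2 * π / 3 = π - π / 3 by ring, cos_pi_sub, cos_pi_div_three]
    rw [← h]
    apply cos_lt_cos_of_nonneg_of_le_pi
    · positivity
    · have := bet_upper hG χ
      linarith [pi_pos]
    · linarith [bet_lower hG' χ]
  have h2 := sqrtY_pos χ
  unfold rm
  nlinarith

lemma rm_neg {G : ℝ} (hG : 0 ≤ G) (hG' : G ≤ 1 / 10) (χ : ℝ) : rm G χ < 0 := by
  linarith [rm_upper hG hG' χ, sqrtY_pos χ]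

lemma rm_sq {G : ℝ} (hG : 0 ≤ G) (hG' : G ≤ 1 / 10) (χ : ℝ) : Y χ < rm G χ ^ 2 := by
  have h1 := rm_upper hG hG' χ
  have h2 := sqrtY_pos χ
  have h3 := sqrtY_sq χ
  nlinarith

/-- Uniqueness of the positive root. -/
lemma eq_rp {G : ℝ} (hG : 0 ≤ G) (hG' : G ≤ 1 / 10) {χ s : ℝ} (hs : 0 < s)
    (h : s ^ 3 = 3 * Y χ * s + 2 * G) : s = rp G χ := by
  have h1 := rp_cubic hG hG' χ
  have h2 := rp_pos hG hG' χ
  have h3 := rp_sq hG hG' χ
  have hY := Y_pos χ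
  have h4 : 3 * Y χ ≤ s ^ 2 := by
    by_contra hcon
    push Not at hcon
    nlinarith
  have h5 : (s - rp G χ) * (s ^ 2 + s * rp G χ + rp G χ ^ 2 - 3 * Y χ) = 0 := by
    linear_combination h - h1
  have h6 : 0 < s ^ 2 + s * rp G χ + rp G χ ^ 2 - 3 * Y χ := by nlinarith [mul_pos hs h2]
  rcases mul_eq_zero.mp h5 with h | h
  · linarith
  · linarith

/-- Uniqueness of the negative root with `s ^ 2 > Y`. -/
lemma eq_rm {G : ℝ} (hG : 0 ≤ G) (hG' : G ≤ 1 / 10) {χ s : ℝ} (hs : s < 0) (hs2 : Y χ < s ^ 2)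
    (h : s ^ 3 = 3 * Y χ * s + 2 * G) : s = rm G χ := by
  have h1 := rm_cubic hG hG' χ
  have h2 := rm_neg hG hG' χ
  have h3 := rm_sq hG hG' χ
  have hY := Y_pos χ
  have h5 : (s - rm G χ) * (s ^ 2 + s * rm G χ + rm G χ ^ 2 - 3 * Y χ) = 0 := by
    linear_combination h - h1
  have h7 : Y χ < s * rm G χ := by
    have := rm_upper hG hG' χ
    have h8 := sqrtY_pos χ
    have h9 := sqrtY_sq χ
    have h10 : s < -√(Y χ) := by nlinarith
    nlinarith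
  have h6 : 0 < s ^ 2 + s * rm G χ + rm G χ ^ 2 - 3 * Y χ := by linarith
  rcases mul_eq_zero.mp h5 with h | h
  · linarith
  · linarith

/-- The positive root increases with `G`. -/
lemma rp_lt {G G' : ℝ} (hG : 0 ≤ G) (hlt : G < G') (hG' : G' ≤ 1 / 10) (χ : ℝ) :
    rp G χ < rp G' χ := by
  have h1 := rp_cubic hG (by linarith) χ
  have h2 := rp_cubic (by linarith : 0 ≤ G') hG' χ
  have h3 := rp_pos hG (by linarith) χ
  have h4 := rp_pos (by linarith : 0 ≤ G') hG' χ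
  have h5 := rp_sq hG (by linarith) χ
  have h6 := rp_sq (by linarith : 0 ≤ G') hG' χ
  have hY := Y_pos χ
  by_contra hcon
  push Not at hcon
  have h7 : (rp G χ - rp G' χ) * (rp G χ ^ 2 + rp G χ * rp G' χ + rp G' χ ^ 2 - 3 * Y χ)
      = 2 * (G - G') := by linear_combination h1 - h2
  have h8 : 0 < rp G χ ^ 2 + rp G χ * rp G' χ + rp G' χ ^ 2 - 3 * Y χ := by
    nlinarith [mul_pos h3 h4]
  nlinarith [mul_nonneg (sub_nonneg.mpr hcon) h8.le]

/-- The negative root increases with `G`. -/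
lemma rm_lt {G G' : ℝ} (hG : 0 ≤ G) (hlt : G < G') (hG' : G' ≤ 1 / 10) (χ : ℝ) :
    rm G χ < rm G' χ := by
  have h1 := rm_cubic hG (by linarith) χ
  have h2 := rm_cubic (by linarith : 0 ≤ G') hG' χ
  have h3 := rm_upper hG (by linarith) χ
  have h4 := rm_upper (by linarith : 0 ≤ G') hG' χ
  have h5 := rm_sq hG (by linarith) χ
  have h6 := rm_sq (by linarith : 0 ≤ G') hG' χ
  have h0 := sqrtY_pos χ
  have h00 := sqrtY_sq χ
  by_contra hcon
  push Not at hcon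
  have h7 : (rm G χ - rm G' χ) * (rm G χ ^ 2 + rm G χ * rm G' χ + rm G' χ ^ 2 - 3 * Y χ)
      = 2 * (G - G') := by linear_combination h1 - h2
  have h9 : Y χ < rm G χ * rm G' χ := by nlinarith
  have h8 : 0 < rm G χ ^ 2 + rm G χ * rm G' χ + rm G' χ ^ 2 - 3 * Y χ := by
    linarith
  nlinarith [mul_nonneg (sub_nonneg.mpr hcon) h8.le]

lemma differentiable_Y : Differentiable ℝ Y := by unfold Y; fun_prop

lemma hasDerivAt_Y (χ : ℝ) : HasDerivAt Y (-(sin χ) / 30) χ := by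
  have h : HasDerivAt (fun χ : ℝ => 2 * (1 + cos χ / 20) / 3) (2 * (-(sin χ) / 20) / 3) χ :=
    ((((hasDerivAt_cos χ).div_const 20).const_add 1).const_mul 2).div_const 3
  exact h.congr_deriv (by ring)

lemma continuous_Y : Continuous Y := differentiable_Y.continuous

lemma differentiableAt_bet {G : ℝ} (hG : 0 ≤ G) (hG' : G ≤ 1 / 10) (χ : ℝ) :
    DifferentiableAt ℝ (bet G) χ := by
  unfold bet
  have hY := Y_pos χ
  have h1 : DifferentiableAt ℝ (fun χ => √(Y χ)) χ := (differentiable_Y χ).sqrt hY.ne'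
  have h2 : Y χ * √(Y χ) ≠ 0 := by have := YY_lower χ; linarith
  have h3 : DifferentiableAt ℝ (fun χ => G / (Y χ * √(Y χ))) χ :=
    (differentiableAt_const G).div ((differentiable_Y χ).mul h1) h2
  have h4 : DifferentiableAt ℝ arccos (G / (Y χ * √(Y χ))) :=
    differentiableAt_arccos.mpr ⟨by linarith [arg_nonneg hG χ], by linarith [arg_lt hG' χ]⟩
  have h5 : DifferentiableAt ℝ (fun χ => arccos (G / (Y χ * √(Y χ)))) χ :=
    DifferentiableAt.comp (g := arccos) (f := fun χ => G / (Y χ * √(Y χ))) χ h4 h3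
  exact h5.div_const 3

lemma differentiableAt_rp {G : ℝ} (hG : 0 ≤ G) (hG' : G ≤ 1 / 10) (χ : ℝ) :
    DifferentiableAt ℝ (rp G) χ := by
  have h1 : DifferentiableAt ℝ (fun χ => √(Y χ)) χ := (differentiable_Y χ).sqrt (Y_pos χ).ne'
  exact (h1.const_mul 2).mul (differentiableAt_bet hG hG' χ).cos

lemma differentiableAt_rm {G : ℝ} (hG : 0 ≤ G) (hG' : G ≤ 1 / 10) (χ : ℝ) :
    DifferentiableAt ℝ (rm G) χ := by
  have h1 : DifferentiableAt ℝ (fun χ => √(Y χ)) χ := (differentiable_Y χ).sqrt (Y_pos χ).ne'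
  exact (h1.const_mul 2).mul ((differentiableAt_bet hG hG' χ).add_const _).cos

/-- Implicit differentiation of the cubic equation. -/
lemma hasDerivAt_root {f : ℝ → ℝ} {G χ : ℝ} (hd : DifferentiableAt ℝ f χ)
    (hf : ∀ x, f x ^ 3 = 3 * Y x * f x + 2 * G) (h : Y χ < f χ ^ 2) :
    HasDerivAt f (-(sin χ / 30) * f χ / (f χ ^ 2 - Y χ)) χ := by
  have h1 := hd.hasDerivAt
  have h2 := h1.pow 3
  have h3 : HasDerivAt (fun x => 3 * Y x * f x + 2 * G)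
      (3 * (-(sin χ) / 30) * f χ + 3 * Y χ * deriv f χ) χ :=
    (((hasDerivAt_Y χ).const_mul 3).mul h1).add_const (2 * G)
  have h4 : HasDerivAt (fun x => 3 * Y x * f x + 2 * G) ((3 : ℕ) * f χ ^ 2 * deriv f χ) χ := by
    have h5 : (fun x => 3 * Y x * f x + 2 * G) = f ^ 3 := by
      funext x; rw [Pi.pow_apply, hf x]
    rw [h5]
    simpa using h2
  have h5 := h4.unique h3
  have h6 : f χ ^ 2 - Y χ ≠ 0 := by linarith
  have h7 : deriv f χ = -(sin χ / 30) * f χ / (f χ ^ 2 - Y χ) := by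
    rw [eq_div_iff h6]
    push_cast at h5
    linarith
  rw [← h7]
  exact h1

lemma hasDerivAt_rp {G : ℝ} (hG : 0 ≤ G) (hG' : G ≤ 1 / 10) (χ : ℝ) :
    HasDerivAt (rp G) (-(sin χ / 30) * rp G χ / (rp G χ ^ 2 - Y χ)) χ :=
  hasDerivAt_root (differentiableAt_rp hG hG' χ) (rp_cubic hG hG')
    (by linarith [rp_sq hG hG' χ, Y_pos χ])

lemma hasDerivAt_rm {G : ℝ} (hG : 0 ≤ G) (hG' : G ≤ 1 / 10) (χ : ℝ) :
    HasDerivAt (rm G) (-(sin χ / 30) * rm G χ / (rm G χ ^ 2 - Y χ)) χ :=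
  hasDerivAt_root (differentiableAt_rm hG hG' χ) (rm_cubic hG hG') (rm_sq hG hG' χ)

lemma Y_add_two_pi (χ : ℝ) : Y (χ + 2 * π) = Y χ := by unfold Y; rw [cos_add_two_pi]

lemma rp_add_two_pi (G χ : ℝ) : rp G (χ + 2 * π) = rp G χ := by
  unfold rp bet; rw [Y_add_two_pi]

lemma rm_add_two_pi (G χ : ℝ) : rm G (χ + 2 * π) = rm G χ := by
  unfold rm bet; rw [Y_add_two_pi]

/-- Speed of the first angle. -/
noncomputable def wp (G χ : ℝ) : ℝ := 3 * (rp G χ ^ 2 - Y χ)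

/-- Speed of the second angle. -/
noncomputable def wm (G χ : ℝ) : ℝ := 3 * (rm G χ ^ 2 - Y χ)

lemma continuous_wp {G : ℝ} (hG : 0 ≤ G) (hG' : G ≤ 1 / 10) : Continuous (wp G) := by
  have h : Continuous (rp G) :=
    continuous_iff_continuousAt.mpr fun χ => (differentiableAt_rp hG hG' χ).continuousAt
  unfold wp
  exact continuous_const.mul ((h.pow 2).sub continuous_Y)

lemma continuous_wm {G : ℝ} (hG : 0 ≤ G) (hG' : G ≤ 1 / 10) : Continuous (wm G) := by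
  have h : Continuous (rm G) :=
    continuous_iff_continuousAt.mpr fun χ => (differentiableAt_rm hG hG' χ).continuousAt
  unfold wm
  exact continuous_const.mul ((h.pow 2).sub continuous_Y)

lemma wp_pos {G : ℝ} (hG : 0 ≤ G) (hG' : G ≤ 1 / 10) (χ : ℝ) : 0 < wp G χ := by
  have := rp_sq hG hG' χ
  have := Y_pos χ
  unfold wp; linarith

lemma wm_pos {G : ℝ} (hG : 0 ≤ G) (hG' : G ≤ 1 / 10) (χ : ℝ) : 0 < wm G χ := by
  have := rm_sq hG hG' χ
  unfold wm; linarith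

lemma abs_rp_le (G χ : ℝ) : rp G χ ^ 2 ≤ 3 := by
  have h1 := cos_sq_le_one (bet G χ)
  have h2 := sqrtY_sq χ
  have h3 := Y_upper χ
  have h4 := Y_pos χ
  have : rp G χ ^ 2 = 4 * Y χ * cos (bet G χ) ^ 2 := by
    unfold rp; rw [mul_pow, mul_pow, h2]; ring
  rw [this]; nlinarith

lemma abs_rm_le (G χ : ℝ) : rm G χ ^ 2 ≤ 3 := by
  have h1 := cos_sq_le_one (bet G χ + 2 * π / 3)
  have h2 := sqrtY_sq χ
  have h3 := Y_upper χ
  have h4 := Y_pos χ
  have : rm G χ ^ 2 = 4 * Y χ * cos (bet G χ + 2 * π / 3) ^ 2 := by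
    unfold rm; rw [mul_pow, mul_pow, h2]; ring
  rw [this]; nlinarith

lemma wp_le (G χ : ℝ) : wp G χ ≤ 9 := by
  have := abs_rp_le G χ
  have := Y_pos χ
  unfold wp; linarith

lemma wm_le (G χ : ℝ) : wm G χ ≤ 9 := by
  have := abs_rm_le G χ
  have := Y_pos χ
  unfold wm; linarith

lemma wp_add_two_pi (G χ : ℝ) : wp G (χ + 2 * π) = wp G χ := by
  unfold wp; rw [rp_add_two_pi, Y_add_two_pi]

lemma wm_add_two_pi (G χ : ℝ) : wm G (χ + 2 * π) = wm G χ := by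
  unfold wm; rw [rm_add_two_pi, Y_add_two_pi]

end Pool.Agent.H780.GC
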