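import Mathlib
import Pool.Agent.H780.GC.Roots
import Pool.Agent.H780.GC.Geo

/-!
# Geodesics on the invariant tori, and their density
-/

set_option autoImplicit false

open Real Topology

namespace Pool.Agent.H780.GC

/-- The quotient of the third component of the momentum by `ell`. -/
noncomputable def kap (G a b : ℝ) : ℝ := (rp G a + rm G b) / (rp G a - rm G b)

/-- The complementary modulus. -/
noncomputable def nu (G a b : ℝ) : ℝ := √(1 - kap G a b ^ 2)

/-- Half the difference of the roots. -/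
noncomputable def ell (G a b : ℝ) : ℝ := (rp G a - rm G b) / 2

/-- The point of the sphere with angles `a`, `b`. -/
noncomputable def Pos (G a b : ℝ) : R3 :=
  ![px0 ((a + b) / 2) ((a - b) / 2) (kap G a b), px1 ((a + b) / 2) ((a - b) / 2) (kap G a b),
    px2 ((a - b) / 2) (nu G a b)]

/-- The momentum with angles `a`, `b`. -/
noncomputable def Mom (G a b : ℝ) : R3 :=
  ![pm0 ((a + b) / 2) (nu G a b) (ell G a b), pm1 ((a + b) / 2) (nu G a b) (ell G a b),
    pm2 (kap G a b) (ell G a b)]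

lemma rp_sub_rm_pos {G : ℝ} (hG : 0 ≤ G) (hG' : G ≤ 1 / 10) (a b : ℝ) : 0 < rp G a - rm G b := by
  linarith [rp_pos hG hG' a, rm_neg hG hG' b]

lemma continuous_rp {G : ℝ} (hG : 0 ≤ G) (hG' : G ≤ 1 / 10) : Continuous (rp G) :=
  continuous_iff_continuousAt.mpr fun χ => (differentiableAt_rp hG hG' χ).continuousAt

lemma continuous_rm {G : ℝ} (hG : 0 ≤ G) (hG' : G ≤ 1 / 10) : Continuous (rm G) :=
  continuous_iff_continuousAt.mpr fun χ => (differentiableAt_rm hG hG' χ).continuousAt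

/-- Continuity in the first angle. -/
lemma continuous_Pos {G : ℝ} (hG : 0 ≤ G) (hG' : G ≤ 1 / 10) (b : ℝ) :
    Continuous fun a => Pos G a b := by
  have c1 := continuous_rp hG hG'
  have ck : Continuous fun a => kap G a b :=
    (c1.add continuous_const).div (c1.sub continuous_const)
      fun a => (rp_sub_rm_pos hG hG' a b).ne'
  have cn : Continuous fun a => nu G a b := (continuous_const.sub (ck.pow 2)).sqrt
  have cp : Continuous fun a : ℝ => (a + b) / 2 := by fun_prop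
  have cd : Continuous fun a : ℝ => (a - b) / 2 := by fun_prop
  refine continuous_pi fun i => ?_
  fin_cases i
  · show Continuous fun a => px0 ((a + b) / 2) ((a - b) / 2) (kap G a b)
    unfold px0
    fun_prop
  · show Continuous fun a => px1 ((a + b) / 2) ((a - b) / 2) (kap G a b)
    unfold px1
    fun_prop
  · show Continuous fun a => px2 ((a - b) / 2) (nu G a b)
    unfold px2
    fun_prop

lemma rp_add_int (G χ : ℝ) (n : ℤ) : rp G (χ + n * (2 * π)) = rp G χ := by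
  have h : Function.Periodic (rp G) (2 * π) := rp_add_two_pi G
  exact h.int_mul n χ

lemma rm_add_int (G χ : ℝ) (n : ℤ) : rm G (χ + n * (2 * π)) = rm G χ := by
  have h : Function.Periodic (rm G) (2 * π) := rm_add_two_pi G
  exact h.int_mul n χ

/-- Periodicity of the position. -/
lemma Pos_add (G a b : ℝ) (m j : ℤ) :
    Pos G (a + m * (2 * π)) (b + ((m + 2 * j : ℤ) : ℝ) * (2 * π)) = Pos G a b := by
  have e1 : (a + m * (2 * π) + (b + ((m + 2 * j : ℤ) : ℝ) * (2 * π))) / 2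
      = (a + b) / 2 + ((m + j : ℤ) : ℝ) * (2 * π) := by
    push_cast
    ring
  have e2 : (a + m * (2 * π) - (b + ((m + 2 * j : ℤ) : ℝ) * (2 * π))) / 2
      = (a - b) / 2 + ((-j : ℤ) : ℝ) * (2 * π) := by
    push_cast
    ring
  have e3 : kap G (a + m * (2 * π)) (b + ((m + 2 * j : ℤ) : ℝ) * (2 * π)) = kap G a b := by
    unfold kap
    rw [rp_add_int, rm_add_int]
  have e4 : nu G (a + m * (2 * π)) (b + ((m + 2 * j : ℤ) : ℝ) * (2 * π)) = nu G a b := by
    unfold nu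
    rw [e3]
  unfold Pos
  rw [e1, e2, e3, e4]
  simp only [px0, px1, px2, cos_add_int_mul_two_pi, sin_add_int_mul_two_pi]

/-- The two periods. -/
noncomputable def per1 (G : ℝ) : ℝ := prim (wp G) (2 * π)

/-- The two periods. -/
noncomputable def per2 (G : ℝ) : ℝ := prim (wm G) (2 * π)

/-- The geodesics on the torus, and a dense set of their points. -/
theorem exists_geodesic {G : ℝ} (hG : 0 ≤ G) (hG' : G ≤ 1 / 10) (a0 b0 : ℝ) :
    ∃ γ : ℝ → R3, gcMetric.IsGeodesic γ ∧ γ 0 = Pos G a0 b0 ∧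
      deriv γ 0 = (1 / (√2 * (1 - Pos G a0 b0 0 / 20))) • velo (Pos G a0 b0) (Mom G a0 b0) ∧
      (Irrational (per1 G / per2 G) → ∀ a b, Pos G a b ∈ closure (Set.range γ)) := by
  obtain ⟨X1, hX1, hX1a, hX1b⟩ := exists_flow (continuous_wp hG hG') 9 (wp_pos hG hG') (wp_le G)
  obtain ⟨X2, hX2, hX2a, hX2b⟩ := exists_flow (continuous_wm hG hG') 9 (wm_pos hG hG') (wm_le G)
  set θ1 := prim (wp G) a0 with hθ1
  set θ2 := prim (wm G) b0 with hθ2
  have hc1 : ∀ τ, HasDerivAt (fun τ => X1 (θ1 - τ))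
      (-(3 * rp G (X1 (θ1 - τ)) ^ 2 - 2 - cos (X1 (θ1 - τ)) / 10)) τ := by
    intro τ
    have h1 : HasDerivAt (fun τ => θ1 - τ) (-1) τ := by
      simpa using (hasDerivAt_id τ).const_sub θ1
    refine ((hX1 (θ1 - τ)).comp τ h1).congr_deriv ?_
    unfold wp Y
    ring
  have hc2 : ∀ τ, HasDerivAt (fun τ => X2 (θ2 + τ))
      (3 * rm G (X2 (θ2 + τ)) ^ 2 - 2 - cos (X2 (θ2 + τ)) / 10) τ := by
    intro τ
    have h1 : HasDerivAt (fun τ => θ2 + τ) 1 τ := by
      simpa using (hasDerivAt_id τ).const_add θ2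
    refine ((hX2 (θ2 + τ)).comp τ h1).congr_deriv ?_
    unfold wm Y
    ring
  have hs1 : ∀ τ, HasDerivAt (fun τ => rp G (X1 (θ1 - τ)))
      (rp G (X1 (θ1 - τ)) * sin (X1 (θ1 - τ)) / 10) τ := by
    intro τ
    refine ((hasDerivAt_rp hG hG' (X1 (θ1 - τ))).comp τ (hc1 τ)).congr_deriv ?_
    have hne : rp G (X1 (θ1 - τ)) ^ 2 - Y (X1 (θ1 - τ)) ≠ 0 := by
      have := rp_sq hG hG' (X1 (θ1 - τ))
      have := Y_pos (X1 (θ1 - τ))
      linarith
    have e : -(3 * rp G (X1 (θ1 - τ)) ^ 2 - 2 - cos (X1 (θ1 - τ)) / 10)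
        = -3 * (rp G (X1 (θ1 - τ)) ^ 2 - Y (X1 (θ1 - τ))) := by
      unfold Y
      ring
    rw [e]
    field_simp
    ring
  have hs2 : ∀ τ, HasDerivAt (fun τ => rm G (X2 (θ2 + τ)))
      (-(rm G (X2 (θ2 + τ)) * sin (X2 (θ2 + τ)) / 10)) τ := by
    intro τ
    refine ((hasDerivAt_rm hG hG' (X2 (θ2 + τ))).comp τ (hc2 τ)).congr_deriv ?_
    have hne : rm G (X2 (θ2 + τ)) ^ 2 - Y (X2 (θ2 + τ)) ≠ 0 := by
      have := rm_sq hG hG' (X2 (θ2 + τ))
      linarith
    have e : (3 * rm G (X2 (θ2 + τ)) ^ 2 - 2 - cos (X2 (θ2 + τ)) / 10)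
        = 3 * (rm G (X2 (θ2 + τ)) ^ 2 - Y (X2 (θ2 + τ))) := by
      unfold Y
      ring
    rw [e]
    field_simp
    ring
  have orb := orbit_of (G := G) hc1 hc2 hs1 hs2 (fun τ => rp_pos hG hG' _)
    (fun τ => rm_neg hG hG' _)
    (fun τ => by
      rw [rp_cubic hG hG']
      unfold Y
      ring)
    (fun τ => by
      rw [rm_cubic hG hG']
      unfold Y
      ring)
  have gcs := orb.gcSol
  obtain ⟨T, hT0, hTs, hgeo⟩ := gcs.timeChange (by
    intro τ
    have hl := orb.lpos τ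
    have he := orb.energy τ
    have hu := orb.unit τ
    have hn := gcs.norm τ
    simp only [px0, px1, px2] at hn
    beta_reduce at hl he hu hn
    by_contra hcon
    push Not at hcon
    generalize (rp G (X1 (θ1 - τ)) - rm G (X2 (θ2 + τ))) / 2 = l at *
    generalize (rp G (X1 (θ1 - τ)) + rm G (X2 (θ2 + τ))) / (rp G (X1 (θ1 - τ)) - rm G (X2 (θ2 + τ)))
      = k at *
    generalize √(1 - k ^ 2) = z at *
    generalize (X1 (θ1 - τ) + X2 (θ2 + τ)) / 2 = p at *
    generalize (X1 (θ1 - τ) - X2 (θ2 + τ)) / 2 = d at *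
    have h1 : -1 ≤ cos p * cos d - k * sin p * sin d := by
      have : (cos p * cos d - k * sin p * sin d) ^ 2 ≤ 1 := by
        nlinarith [sq_nonneg (-(sin p * cos d + k * cos p * sin d)), sq_nonneg (z * sin d)]
      exact (abs_le.mp ((sq_le_one_iff_abs_le_one _).mp this)).1
    have h2 : k ^ 2 ≤ 1 := by nlinarith [sq_nonneg z]
    have h3 : l ^ 2 ≤ 1 / 4 := by nlinarith
    have h4 : l ^ 2 * (1 + 3 * k ^ 2) ≤ 1 / 4 * 4 :=
      mul_le_mul h3 (by linarith) (by positivity) (by norm_num)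
    linarith)
  have x1a : X1 θ1 = a0 := hX1a a0
  have x2a : X2 θ2 = b0 := hX2a b0
  have hpos0 : ∀ s, (![px0 ((X1 (θ1 - T s) + X2 (θ2 + T s)) / 2)
        ((X1 (θ1 - T s) - X2 (θ2 + T s)) / 2) ((rp G (X1 (θ1 - T s)) + rm G (X2 (θ2 + T s)))
          / (rp G (X1 (θ1 - T s)) - rm G (X2 (θ2 + T s)))),
        px1 ((X1 (θ1 - T s) + X2 (θ2 + T s)) / 2)
        ((X1 (θ1 - T s) - X2 (θ2 + T s)) / 2) ((rp G (X1 (θ1 - T s)) + rm G (X2 (θ2 + T s)))
          / (rp G (X1 (θ1 - T s)) - rm G (X2 (θ2 + T s)))),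
        px2 ((X1 (θ1 - T s) - X2 (θ2 + T s)) / 2)
          (√(1 - ((rp G (X1 (θ1 - T s)) + rm G (X2 (θ2 + T s)))
          / (rp G (X1 (θ1 - T s)) - rm G (X2 (θ2 + T s)))) ^ 2))] : R3)
      = Pos G (X1 (θ1 - T s)) (X2 (θ2 + T s)) := fun s => rfl
  refine ⟨_, hgeo.isGeodesic, ?_, ?_, ?_⟩
  · show Pos G (X1 (θ1 - T 0)) (X2 (θ2 + T 0)) = _
    rw [hT0, sub_zero, add_zero, x1a, x2a]
  · rw [(hgeo.hasDerivAt 0).deriv]
    show (1 / (√2 * (1 - Pos G (X1 (θ1 - T 0)) (X2 (θ2 + T 0)) 0 / 20))) •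
      velo (Pos G (X1 (θ1 - T 0)) (X2 (θ2 + T 0))) (Mom G (X1 (θ1 - T 0)) (X2 (θ2 + T 0))) = _
    rw [hT0, sub_zero, add_zero, x1a, x2a]
  · intro hirr a b
    set θa := prim (wp G) a with hθa
    set θb := prim (wm G) b with hθb
    have hXa : X1 θa = a := hX1a a
    have hXb : X2 θb = b := hX2a b
    have hcont : Continuous X1 := continuous_iff_continuousAt.mpr fun θ => (hX1 θ).continuousAt
    have hf : Continuous fun η => Pos G (X1 (θa + η)) b :=
      (continuous_Pos hG hG' b).comp (hcont.comp (continuous_const.add continuous_id))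
    rw [mem_closure_iff_nhds]
    intro t ht
    have hf0 : Pos G (X1 (θa + 0)) b = Pos G a b := by
      rw [add_zero, hXa]
    have ht' : (fun η => Pos G (X1 (θa + η)) b) ⁻¹' t ∈ 𝓝 (0:ℝ) := by
      apply hf.continuousAt.preimage_mem_nhds
      rw [hf0]
      exact ht
    obtain ⟨ε, hε, hball⟩ := Metric.mem_nhds_iff.mp ht'
    have hT2 : 0 < per2 G := prim_two_pi_pos (continuous_wm hG hG') (wm_pos hG hG')
    have hirr2 : Irrational ((per1 G + per2 G) / (2 * per2 G)) := by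
      have e : (per1 G + per2 G) / (2 * per2 G) = (per1 G / per2 G + (1 : ℕ)) / (2 : ℕ) := by
        push_cast
        field_simp
      rw [e]
      exact (hirr.add_natCast 1).div_natCast (by norm_num)
    have hdense := dense_addSubgroupClosure_pair_iff.mpr hirr2
    obtain ⟨D, hD⟩ : ∃ D, D = θ1 + θ2 - θa - θb := ⟨_, rfl⟩
    obtain ⟨y, hy, hyD⟩ := hdense.exists_dist_lt D hε
    obtain ⟨m, j, hmj⟩ := AddSubgroup.mem_closure_pair.mp hy
    rw [zsmul_eq_mul, zsmul_eq_mul] at hmj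
    obtain ⟨s, hs⟩ := hTs (θb - θ2 + ((m + 2 * j : ℤ) : ℝ) * per2 G)
    refine ⟨_, ?_, ⟨s, rfl⟩⟩
    show Pos G (X1 (θ1 - T s)) (X2 (θ2 + T s)) ∈ t
    have e2 : X2 (θ2 + T s) = b + ((m + 2 * j : ℤ) : ℝ) * (2 * π) := by
      rw [← hXb, ← flow_add_int (continuous_wm hG hG') (wm_pos hG hG') (wm_add_two_pi G)
        hX2a hX2b, hs]
      congr 1
      unfold per2
      ring
    have e1 : X1 (θ1 - T s) = X1 (θa + (D - y)) + (m : ℝ) * (2 * π) := by
      rw [← flow_add_int (continuous_wp hG hG') (wp_pos hG hG') (wp_add_two_pi G)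
        hX1a hX1b, hs, ← hmj, hD]
      congr 1
      unfold per1 per2
      push_cast
      ring
    rw [e1, e2, Pos_add]
    apply hball
    rw [Metric.mem_ball, dist_zero_right, ← dist_eq_norm]
    exact hyD

end Pool.Agent.H780.GC
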