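import Mathlib
import Pool.Agent.H780.GC.Torus
import Pool.Agent.H780.GC.Curv

/-!
# Each phase point of small third momentum lies on a torus
-/

set_option autoImplicit false

open Real Topology

namespace Pool.Agent.H780.GC

/-- The cubic integral. -/
noncomputable def cub (x m : R3) : ℝ := m 2 * (m 0 ^ 2 + m 1 ^ 2) - x 2 * m 0 / 20

theorem exists_angles {x m : R3} {G : ℝ} (hG : 0 ≤ G) (hG' : G ≤ 1 / 10) (hx : x ∈ S2)
    (ho : dot x m = 0) (he : m 0 ^ 2 + m 1 ^ 2 + 4 * m 2 ^ 2 = 2 * (1 - x 0 / 20))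
    (hF : cub x m = G) (hm : m 2 ^ 2 ≤ 1 / 16) :
    ∃ a b, Pos G a b = x ∧ Mom G a b = m := by
  have hx' : x 0 * x 0 + x 1 * x 1 + x 2 * x 2 = 1 := hx
  have ho' : x 0 * m 0 + x 1 * m 1 + x 2 * m 2 = 0 := ho
  have hρ := rho_lower hx
  unfold cub at hF
  obtain ⟨N, hN⟩ : ∃ N, N = m 0 ^ 2 + m 1 ^ 2 := ⟨_, rfl⟩
  have hN1 : 33 / 20 ≤ N := by linarith
  obtain ⟨S, hS⟩ : ∃ S, S = √N := ⟨_, rfl⟩
  have hS2 : S ^ 2 = N := by rw [hS, sq_sqrt (by linarith)]
  have hS0 : 0 < S := by rw [hS]; exact sqrt_pos.mpr (by linarith)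
  obtain ⟨l, hl⟩ : ∃ l, l = √(N + m 2 ^ 2) := ⟨_, rfl⟩
  have hl2 : l ^ 2 = N + m 2 ^ 2 := by
    rw [hl, sq_sqrt (by nlinarith [sq_nonneg (m 2)])]
  have hl0 : 0 < l := by
    rw [hl]
    exact sqrt_pos.mpr (by nlinarith [sq_nonneg (m 2)])
  have hl1 : 5 / 4 ≤ l := by
    by_contra hcon
    push Not at hcon
    nlinarith [sq_nonneg (m 2)]
  have hm1 : -(1 / 4) ≤ m 2 ∧ m 2 ≤ 1 / 4 := by
    have : m 2 ^ 2 ≤ (1 / 4) ^ 2 := by norm_num; linarith
    exact abs_le.mp (abs_le_of_sq_le_sq this (by norm_num))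
  -- the angle ψ
  obtain ⟨ψ, hcψ, hsψ⟩ := exists_angle (a := m 1 / S) (b := -m 0 / S) (by
    field_simp
    linarith)
  have hcψ' : m 1 = S * cos ψ := by rw [hcψ]; field_simp
  have hsψ' : m 0 = -(S * sin ψ) := by rw [hsψ]; field_simp
  have tψ := sin_sq_add_cos_sq ψ
  have hrot : S * (-(x 0 * sin ψ) + x 1 * cos ψ) + x 2 * m 2 = 0 := by
    rw [hcψ', hsψ'] at ho'
    linarith
  -- the angle δ
  obtain ⟨δ, hcδ, hsδ⟩ := exists_angle (a := -(x 0 * cos ψ + x 1 * sin ψ)) (b := l * x 2 / S) (by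
    have e1 : (-(x 0 * cos ψ + x 1 * sin ψ)) ^ 2 = x 0 ^ 2 + x 1 ^ 2
        - (-(x 0 * sin ψ) + x 1 * cos ψ) ^ 2 := by
      linear_combination (x 0 ^ 2 + x 1 ^ 2) * tψ
    have e2 : (-(x 0 * sin ψ) + x 1 * cos ψ) = -(x 2 * m 2) / S := by
      field_simp
      linarith
    rw [e1, e2]
    field_simp
    rw [hl2, ← hS2]
    linear_combination S ^ 2 * hx')
  have hx2 : x 2 = S / l * sin δ := by
    rw [hsδ]
    field_simp
  have hk : -(x 0 * sin ψ) + x 1 * cos ψ = -(m 2 / l * sin δ) := by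
    have : S * (-(x 0 * sin ψ) + x 1 * cos ψ) = S * -(m 2 / l * sin δ) := by
      have e : S * -(m 2 / l * sin δ) = -(m 2 * (S / l * sin δ)) := by ring
      rw [e, ← hx2]
      linarith
    exact mul_left_cancel₀ hS0.ne' this
  have hx0 : x 0 = -(cos ψ * cos δ - m 2 / l * sin ψ * sin δ) := by
    rw [hcδ]
    linear_combination (-x 0) * tψ - sin ψ * hk
  have hx1 : x 1 = -(sin ψ * cos δ + m 2 / l * cos ψ * sin δ) := by
    rw [hcδ]
    linear_combination (-x 1) * tψ + cos ψ * hk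
  have hG2 : G = m 2 * N + N * sin ψ * sin δ / (20 * l) := by
    rw [← hF, ← hN, hx2, hsψ', ← hS2]
    field_simp
    ring
  have hE : N + 4 * m 2 ^ 2 = 2 + (cos ψ * cos δ - m 2 / l * sin ψ * sin δ) / 10 := by
    rw [hN, he, hx0]
    ring
  obtain ⟨t, ht⟩ : ∃ t, t = sin ψ * sin δ / l := ⟨_, rfl⟩
  have ht' : sin ψ * sin δ = l * t := by
    rw [ht]
    field_simp
  have hG3 : G = m 2 * N + N * t / 20 := by
    rw [hG2, ht]
    field_simp
  have hE' : N + 4 * m 2 ^ 2 = 2 + (cos ψ * cos δ - m 2 * t) / 10 := by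
    rw [hE, ht]
    ring
  have hc1 : cos (ψ + δ) = cos ψ * cos δ - l * t := by rw [cos_add, ht']
  have hc2 : cos (ψ - δ) = cos ψ * cos δ + l * t := by rw [cos_sub, ht']
  have hs1 : m 2 + l = rp G (ψ + δ) := by
    apply eq_rp hG hG' (by linarith)
    unfold Y
    rw [hc1, hG3]
    linear_combination (m 2 + l) * (hE' + hl2) + (2 * m 2 + t / 10) * hl2
  have hs2 : m 2 - l = rm G (ψ - δ) := by
    apply eq_rm hG hG' (by linarith)
    · have h1 := Y_upper (ψ - δ)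
      have h2 : 1 ≤ l - m 2 := by linarith
      have h3 : 1 ≤ (l - m 2) ^ 2 := one_le_pow₀ h2
      have h4 : (m 2 - l) ^ 2 = (l - m 2) ^ 2 := by ring
      rw [h4]
      linarith
    · unfold Y
      rw [hc2, hG3]
      linear_combination (m 2 - l) * (hE' + hl2) + (2 * m 2 + t / 10) * hl2
  have hkap : kap G (ψ + δ) (ψ - δ) = m 2 / l := by
    unfold kap
    rw [← hs1, ← hs2, show m 2 + l - (m 2 - l) = 2 * l by ring,
      show m 2 + l + (m 2 - l) = 2 * m 2 by ring]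
    field_simp
  have hnu : nu G (ψ + δ) (ψ - δ) = S / l := by
    unfold nu
    rw [hkap, show 1 - (m 2 / l) ^ 2 = (S / l) ^ 2 by field_simp; linarith]
    exact sqrt_sq (by positivity)
  have hell : ell G (ψ + δ) (ψ - δ) = l := by
    unfold ell
    rw [← hs1, ← hs2]
    ring
  have ha1 : (ψ + δ + (ψ - δ)) / 2 = ψ := by ring
  have ha2 : (ψ + δ - (ψ - δ)) / 2 = δ := by ring
  refine ⟨ψ + δ, ψ - δ, ?_, ?_⟩
  · unfold Pos
    rw [ha1, ha2, hkap, hnu]
    ext i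
    fin_cases i
    · exact hx0.symm
    · exact hx1.symm
    · exact hx2.symm
  · unfold Mom
    rw [ha1, hkap, hnu, hell]
    ext i
    fin_cases i
    · show -(S / l * l * sin ψ) = m 0
      rw [hsψ']
      field_simp
    · show S / l * l * cos ψ = m 1
      rw [hcψ']
      field_simp
    · show m 2 / l * l = m 2
      field_simp

end Pool.Agent.H780.GC
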