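import Mathlib
import Pool.Agent.H780.GC.Curv

/-!
# The Goryachev-Chaplygin metric has positive curvature
-/

set_option autoImplicit false

open scoped ContDiff
open Real

namespace Pool.Agent.H780.GC

/-- The first coefficient. -/
noncomputable def fE (q : ℝ × ℝ) : ℝ :=
  sr q * (4 / (1 + (q.1 ^ 2 + q.2 ^ 2)) ^ 2 - 48 * q.2 ^ 2 / sd q)

/-- The second coefficient. -/
noncomputable def fF (q : ℝ × ℝ) : ℝ := sr q * (48 * q.1 * q.2 / sd q)

/-- The third coefficient. -/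
noncomputable def fG (q : ℝ × ℝ) : ℝ :=
  sr q * (4 / (1 + (q.1 ^ 2 + q.2 ^ 2)) ^ 2 - 48 * q.1 ^ 2 / sd q)

lemma hasDerivAt_mul_zero {f : ℝ → ℝ} (hf : DifferentiableAt ℝ f 0) :
    HasDerivAt (fun s => s * f s) (f 0) 0 := by
  simpa using (hasDerivAt_id (0:ℝ)).fun_mul hf.hasDerivAt

/-- An auxiliary function: the second coefficient along a line. -/
noncomputable def wB (s : ℝ) : ℝ := 4 / (1 + 14 * s ^ 2 + s ^ 4)

/-- Its derivative. -/
noncomputable def wB' (s : ℝ) : ℝ := -(4 * (28 * s + 4 * s ^ 3)) / (1 + 14 * s ^ 2 + s ^ 4) ^ 2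

/-- The conformal factor along a line. -/
noncomputable def wA (s : ℝ) : ℝ := 1 - s / (10 * (1 + s ^ 2))

/-- Its derivative. -/
noncomputable def wA' (s : ℝ) : ℝ := -(1 - s ^ 2) / (10 * (1 + s ^ 2) ^ 2)

lemma hasDerivAt_wB (s : ℝ) : HasDerivAt wB (wB' s) s := by
  have h1 : HasDerivAt (fun s : ℝ => 1 + 14 * s ^ 2 + s ^ 4) (28 * s + 4 * s ^ 3) s := by
    have a := (((hasDerivAt_id s).fun_pow 2).const_mul 14).const_add 1
    have b := (hasDerivAt_id s).fun_pow 4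
    refine (a.fun_add b).congr_deriv ?_
    simp
    ring
  have h0 : (1 + 14 * s ^ 2 + s ^ 4) ≠ 0 := by positivity
  refine ((hasDerivAt_const s (4:ℝ)).fun_div h1 h0).congr_deriv ?_
  unfold wB'
  ring

lemma hasDerivAt_wB'_zero : HasDerivAt wB' (-112) 0 := by
  have h : DifferentiableAt ℝ (fun s : ℝ => -(4 * (28 + 4 * s ^ 2)) / (1 + 14 * s ^ 2 + s ^ 4) ^ 2)
      0 := by
    refine DifferentiableAt.div (by fun_prop) (by fun_prop) ?_
    norm_num
  have := hasDerivAt_mul_zero h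
  have e : (fun s : ℝ => s * (-(4 * (28 + 4 * s ^ 2)) / (1 + 14 * s ^ 2 + s ^ 4) ^ 2)) = wB' := by
    funext s
    unfold wB'
    ring
  rw [e] at this
  refine this.congr_deriv ?_
  norm_num

lemma hasDerivAt_wA (s : ℝ) : HasDerivAt wA (wA' s) s := by
  have h1 : HasDerivAt (fun s : ℝ => 10 * (1 + s ^ 2)) (20 * s) s := by
    have a := (((hasDerivAt_id s).fun_pow 2).const_add 1).const_mul 10
    refine a.congr_deriv ?_
    simp
    ring
  have h0 : (10 * (1 + s ^ 2)) ≠ 0 := by positivity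
  refine (((hasDerivAt_id s).fun_div h1 h0).const_sub 1).congr_deriv ?_
  unfold wA'
  simp only [id_eq]
  field_simp
  ring

lemma hasDerivAt_wA'_zero : HasDerivAt wA' 0 0 := by
  have h : DifferentiableAt ℝ (fun s : ℝ => (s * (3 + s ^ 2)) / (10 * (1 + s ^ 2) ^ 2)) 0 := by
    refine DifferentiableAt.div (by fun_prop) (by fun_prop) ?_
    norm_num
  have := (hasDerivAt_mul_zero h).const_add (-(1 / 10))
  have e : (fun s : ℝ => -(1 / 10) + s * ((s * (3 + s ^ 2)) / (10 * (1 + s ^ 2) ^ 2))) = wA' := by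
    funext s
    unfold wA'
    have h0 : (1 + s ^ 2) ≠ 0 := by positivity
    field_simp
    ring
  rw [e] at this
  refine this.congr_deriv ?_
  norm_num

lemma fE_line (t : ℝ) : fE (0, t) = wB t := by
  simp only [fE, sr, sd, wB]
  have h0 : (1 + ((0:ℝ) ^ 2 + t ^ 2)) ≠ 0 := by positivity
  have h1 : (1 + ((0:ℝ) ^ 2 + t ^ 2)) ^ 2 + 12 * (0 ^ 2 + t ^ 2) ≠ 0 := by positivity
  have h2 : (1 + 14 * t ^ 2 + t ^ 4) ≠ 0 := by positivity
  have h3 : (1 + ((0:ℝ) ^ 2 + t ^ 2)) ^ 2 + 12 * (0 ^ 2 + t ^ 2) = 1 + 14 * t ^ 2 + t ^ 4 := by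
    ring
  rw [h3]
  field_simp
  ring

lemma fG_line (t : ℝ) : fG (t, 0) = wA t * wB t := by
  simp only [fG, sr, sd, wB, wA]
  have h0 : (1 + (t ^ 2 + (0:ℝ) ^ 2)) ≠ 0 := by positivity
  have h2 : (1 + 14 * t ^ 2 + t ^ 4) ≠ 0 := by positivity
  have h3 : (1 + (t ^ 2 + (0:ℝ) ^ 2)) ^ 2 + 12 * (t ^ 2 + 0 ^ 2) = 1 + 14 * t ^ 2 + t ^ 4 := by
    ring
  have h4 : (1 + (t ^ 2 + (0:ℝ) ^ 2)) = 1 + t ^ 2 := by ring
  have h5 : (1 + t ^ 2) ≠ 0 := by positivity
  rw [h3, h4]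
  have h6 : 4 / (1 + t ^ 2) ^ 2 - 48 * t ^ 2 / ((1 + t ^ 2) ^ 2 * (1 + 14 * t ^ 2 + t ^ 4))
    = 4 / (1 + 14 * t ^ 2 + t ^ 4) := by
    field_simp
    ring
  rw [h6]

lemma pd2_fE (t : ℝ) : pd2 fE (0, t) = wB' t := by
  unfold pd2
  simp only [fE_line]
  exact (hasDerivAt_wB t).deriv

lemma pd22_fE : pd2 (pd2 fE) (0, 0) = -112 := by
  unfold pd2
  have : (fun s : ℝ => pd2 fE (0, s)) = wB' := funext pd2_fE
  exact (congrArg (fun f => deriv f 0) this).trans hasDerivAt_wB'_zero.deriv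

lemma pd1_fG (t : ℝ) : pd1 fG (t, 0) = wA' t * wB t + wA t * wB' t := by
  unfold pd1
  simp only [fG_line]
  exact ((hasDerivAt_wA t).fun_mul (hasDerivAt_wB t)).deriv

lemma pd11_fG : pd1 (pd1 fG) (0, 0) = -112 := by
  unfold pd1
  have : (fun s : ℝ => pd1 fG (s, 0)) = fun s => wA' s * wB s + wA s * wB' s := funext pd1_fG
  refine (congrArg (fun f => deriv f 0) this).trans ?_
  have h := ((hasDerivAt_wA'_zero.fun_mul (hasDerivAt_wB 0)).fun_add
    ((hasDerivAt_wA 0).fun_mul hasDerivAt_wB'_zero)).deriv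
  refine h.trans ?_
  norm_num [wA, wB, wA', wB']

lemma pd1_fF (t : ℝ) : pd1 fF (0, t) = t * (48 / ((1 + t ^ 2) ^ 2 * (1 + 14 * t ^ 2 + t ^ 4))) := by
  unfold pd1
  have h : DifferentiableAt ℝ (fun s : ℝ => sr (s, t) * (48 * t / sd (s, t))) 0 := by
    simp only [sr, sd]
    refine DifferentiableAt.mul (DifferentiableAt.sub (by fun_prop)
      (DifferentiableAt.div (by fun_prop) (by fun_prop) ?_))
      (DifferentiableAt.div (by fun_prop) (by fun_prop) ?_)
    · positivity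
    · positivity
  have := hasDerivAt_mul_zero h
  have e : (fun s : ℝ => s * (sr (s, t) * (48 * t / sd (s, t)))) = fun s => fF (s, t) := by
    funext s
    simp only [fF]
    ring
  rw [e] at this
  refine this.deriv.trans ?_
  simp only [sr, sd]
  have h3 : (1 + ((0:ℝ) ^ 2 + t ^ 2)) ^ 2 + 12 * (0 ^ 2 + t ^ 2) = 1 + 14 * t ^ 2 + t ^ 4 := by
    ring
  have h4 : (1 + ((0:ℝ) ^ 2 + t ^ 2)) = 1 + t ^ 2 := by ring
  rw [h3, h4]
  ring

lemma pd21_fF : pd2 (pd1 fF) (0, 0) = 48 := by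
  unfold pd2
  have : (fun s : ℝ => pd1 fF (0, s))
    = fun t => t * (48 / ((1 + t ^ 2) ^ 2 * (1 + 14 * t ^ 2 + t ^ 4))) := funext pd1_fF
  refine (congrArg (fun f => deriv f 0) this).trans ?_
  have h : DifferentiableAt ℝ (fun t : ℝ => 48 / ((1 + t ^ 2) ^ 2 * (1 + 14 * t ^ 2 + t ^ 4))) 0 := by
    refine DifferentiableAt.div (by fun_prop) (by fun_prop) ?_
    norm_num
  refine (hasDerivAt_mul_zero h).deriv.trans ?_
  norm_num

lemma pd2_fF_zero : pd2 fF (0, 0) = 0 := by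
  unfold pd2
  simp [fF]

lemma pd2_fG_zero : pd2 fG (0, 0) = 0 := by
  unfold pd2
  have e : (fun s : ℝ => fG (0, s)) = fun s => 4 / (1 + s ^ 2) ^ 2 := by
    funext s
    simp [fG, sr]
  refine (congrArg (fun f => deriv f 0) e).trans ?_
  have h1 : HasDerivAt (fun s : ℝ => (1 + s ^ 2) ^ 2) 0 0 := by
    have := ((((hasDerivAt_id (0:ℝ)).fun_pow 2).const_add 1).fun_pow 2)
    simpa using this
  have := ((hasDerivAt_const (0:ℝ) (4:ℝ)).fun_div h1 (by norm_num))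
  refine this.deriv.trans ?_
  norm_num

lemma pd1_fE_zero : pd1 fE (0, 0) = -2 / 5 := by
  unfold pd1
  have e : (fun s : ℝ => fE (s, 0)) = fun s => wA s * (4 / (1 + s ^ 2) ^ 2) := by
    funext s
    simp [fE, sr, wA]
  refine (congrArg (fun f => deriv f 0) e).trans ?_
  have h1 : HasDerivAt (fun s : ℝ => (1 + s ^ 2) ^ 2) 0 0 := by
    have := ((((hasDerivAt_id (0:ℝ)).fun_pow 2).const_add 1).fun_pow 2)
    simpa using this
  have h2 := ((hasDerivAt_const (0:ℝ) (4:ℝ)).fun_div h1 (by norm_num))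
  refine ((hasDerivAt_wA 0).fun_mul h2).deriv.trans ?_
  norm_num [wA, wA']

lemma curvature_ste {e : ℝ} (he : e ^ 2 = 1) : 0 < gcMetric.curvature (ste e) (0, 0) := by
  unfold SphereMetric.curvature
  rw [steE he, steF he, steG he]
  show 0 < brioschi fE fF fG (0, 0)
  unfold brioschi
  rw [pd22_fE, pd21_fF, pd11_fG, pd2_fF_zero, pd2_fG_zero, pd1_fE_zero, pd2_fE, pd1_fF, pd1_fG,
    Matrix.det_fin_three, Matrix.det_fin_three]
  simp only [Matrix.of_apply, Matrix.cons_val', Matrix.cons_val_zero, Matrix.cons_val_one,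
    Matrix.cons_val_two, Matrix.tail_cons, Matrix.head_cons, Matrix.empty_val',
    Matrix.cons_val_fin_one, Matrix.head_fin_const]
  norm_num [fE, fF, fG, sr, sd, wA, wB, wA', wB']

theorem gcMetric_positivelyCurved : gcMetric.PositivelyCurved := by
  intro x hx
  have hx' : x 0 * x 0 + x 1 * x 1 + x 2 * x 2 = 1 := hx
  by_cases hp : x 0 ^ 2 + x 1 ^ 2 = 0
  · have h0 : x 0 = 0 := by nlinarith [sq_nonneg (x 0), sq_nonneg (x 1)]
    have h1 : x 1 = 0 := by nlinarith [sq_nonneg (x 0), sq_nonneg (x 1)]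
    have h2 : x 2 ^ 2 = 1 := by
      rw [h0, h1] at hx'
      linarith
    refine ⟨Set.univ, ste (x 2), (0, 0), isLocalParam_ste h2, Set.mem_univ _, ?_,
      curvature_ste h2⟩
    ext i
    fin_cases i
    · simp [ste, h0]
    · simp [ste, h1]
    · simp [ste]
  · have hpos : 0 < x 0 ^ 2 + x 1 ^ 2 := lt_of_le_of_ne (by positivity) (Ne.symm hp)
    have hs : 0 < √(x 0 ^ 2 + x 1 ^ 2) := sqrt_pos.mpr hpos
    have hs2 : √(x 0 ^ 2 + x 1 ^ 2) ^ 2 = x 0 ^ 2 + x 1 ^ 2 := sq_sqrt hpos.le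
    have hx2 : -1 ≤ x 2 ∧ x 2 ≤ 1 := by
      have := S2_bound hx 2
      exact abs_le.mp (by rwa [← sq_le_one_iff_abs_le_one])
    obtain ⟨v, hv1, hv2⟩ := exists_angle (a := x 0 / √(x 0 ^ 2 + x 1 ^ 2))
      (b := x 1 / √(x 0 ^ 2 + x 1 ^ 2)) (by
        rw [div_pow, div_pow, ← add_div, hs2]
        exact div_self hp)
    have hsin : sin (arccos (x 2)) = √(x 0 ^ 2 + x 1 ^ 2) := by
      rw [sin_arccos]
      congr 1
      linarith
    have hcos : cos (arccos (x 2)) = x 2 := cos_arccos hx2.1 hx2.2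
    have hu0 : 0 < arccos (x 2) := by
      rcases (arccos_nonneg (x 2)).lt_or_eq with h | h
      · exact h
      · rw [← h, sin_zero] at hsin
        linarith
    have hu1 : arccos (x 2) < π := by
      rcases (arccos_le_pi (x 2)).lt_or_eq with h | h
      · exact h
      · rw [h, sin_pi] at hsin
        linarith
    refine ⟨_, sph, (arccos (x 2), v), isLocalParam_sph, ⟨hu0, hu1⟩, ?_, curvature_sph hu0 hu1⟩
    ext i
    fin_cases i
    · show sin (arccos (x 2)) * cos v = x 0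
      rw [hsin, hv1]
      field_simp
    · show sin (arccos (x 2)) * sin v = x 1
      rw [hsin, hv2]
      field_simp
    · exact hcos

end Pool.Agent.H780.GC
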