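import Mathlib
import Pool.Agent.H780.GC.Cover

/-!
# The momenta of energy one at a point of the sphere
-/

set_option autoImplicit false

open Real Topology

namespace Pool.Agent.H780.GC

lemma exists_angle' {a b : ℝ} (h : a ^ 2 + b ^ 2 = 1) :
    ∃ θ ∈ Set.Icc (-π) π, cos θ = a ∧ sin θ = b := by
  have hn : ‖(⟨a, b⟩ : ℂ)‖ = 1 := by
    rw [Complex.norm_def, Complex.normSq_mk, ← sq, ← sq, h, sqrt_one]
  refine ⟨Complex.arg ⟨a, b⟩, ⟨(Complex.neg_pi_lt_arg _).le, Complex.arg_le_pi _⟩, ?_, ?_⟩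
  · rw [Complex.cos_arg, hn, div_one]
    intro h0
    rw [h0, norm_zero] at hn
    exact zero_ne_one hn
  · rw [Complex.sin_arg, hn, div_one]

/-- Coordinates of a point of the sphere. -/
structure Coord (x : R3) (s f z S q : ℝ) : Prop where
  hs : 0 ≤ s
  hsz : s ^ 2 + z ^ 2 = 1
  hx0 : x 0 = s * cos f
  hx1 : x 1 = s * sin f
  hx2 : x 2 = z
  hS : S ^ 2 = 2 * (1 - s * cos f / 20)
  hq : q ^ 2 = 1 + 3 * s ^ 2
  hS0 : 0 < S
  hq0 : 0 < q

lemma exists_coord {x : R3} (hx : x ∈ S2) : ∃ s f z S q : ℝ, Coord x s f z S q := by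
  have hx' : x 0 * x 0 + x 1 * x 1 + x 2 * x 2 = 1 := hx
  have key : ∃ f, x 0 = √(x 0 ^ 2 + x 1 ^ 2) * cos f ∧ x 1 = √(x 0 ^ 2 + x 1 ^ 2) * sin f := by
    by_cases hp : x 0 ^ 2 + x 1 ^ 2 = 0
    · have h0 : x 0 = 0 := by nlinarith [sq_nonneg (x 0), sq_nonneg (x 1)]
      have h1 : x 1 = 0 := by nlinarith [sq_nonneg (x 0), sq_nonneg (x 1)]
      refine ⟨0, ?_, ?_⟩
      · rw [hp, h0]; simp
      · rw [hp, h1]; simp
    · have hpos : 0 < x 0 ^ 2 + x 1 ^ 2 := lt_of_le_of_ne (by positivity) (Ne.symm hp)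
      have hs : 0 < √(x 0 ^ 2 + x 1 ^ 2) := sqrt_pos.mpr hpos
      have hs2 : √(x 0 ^ 2 + x 1 ^ 2) ^ 2 = x 0 ^ 2 + x 1 ^ 2 := sq_sqrt hpos.le
      obtain ⟨v, hv1, hv2⟩ := exists_angle (a := x 0 / √(x 0 ^ 2 + x 1 ^ 2))
        (b := x 1 / √(x 0 ^ 2 + x 1 ^ 2)) (by
          rw [div_pow, div_pow, ← add_div, hs2]
          exact div_self hp)
      refine ⟨v, ?_, ?_⟩
      · rw [hv1]; field_simp
      · rw [hv2]; field_simp
  obtain ⟨f, hf0, hf1⟩ := key
  obtain ⟨s, hs⟩ : ∃ s, s = √(x 0 ^ 2 + x 1 ^ 2) := ⟨_, rfl⟩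
  have hs2 : s ^ 2 = x 0 ^ 2 + x 1 ^ 2 := by rw [hs, sq_sqrt (by positivity)]
  rw [← hs] at hf0 hf1
  have hρ := rho_lower hx
  rw [hf0] at hρ
  refine ⟨s, f, x 2, √(2 * (1 - s * cos f / 20)), √(1 + 3 * s ^ 2), ?_, ?_, hf0, hf1, rfl,
    ?_, ?_, ?_, ?_⟩
  · rw [hs]; positivity
  · rw [hs2]; linarith
  · exact sq_sqrt (by linarith)
  · exact sq_sqrt (by positivity)
  · exact sqrt_pos.mpr (by linarith)
  · exact sqrt_pos.mpr (by positivity)

/-- The momenta of energy one. -/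
noncomputable def mm (s f z S q w : ℝ) : R3 :=
  ![S * (-(cos w * sin f) + z * cos f * sin w / q), S * (cos w * cos f + z * sin f * sin w / q),
    -(S * s * sin w / q)]

/-- The cubic integral on them. -/
noncomputable def ff (s f z S q w : ℝ) : ℝ :=
  -(S ^ 3 * s / q * sin w * (cos w ^ 2 + z ^ 2 * sin w ^ 2 / q ^ 2))
    + z * S / 20 * (cos w * sin f - z * cos f * sin w / q)

section

variable {x : R3} {s f z S q : ℝ} (h : Coord x s f z S q)

include h

lemma Coord.mem : x ∈ S2 := by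
  show x 0 * x 0 + x 1 * x 1 + x 2 * x 2 = 1
  rw [h.hx0, h.hx1, h.hx2]
  have := sin_sq_add_cos_sq f
  linear_combination s ^ 2 * this + h.hsz

lemma Coord.mm_orth (w : ℝ) : dot x (mm s f z S q w) = 0 := by
  have hq := h.hq0.ne'
  simp only [dot, mm, Matrix.cons_val_zero, Matrix.cons_val_one, Matrix.cons_val_two,
    Matrix.tail_cons, Matrix.head_cons]
  rw [h.hx0, h.hx1, h.hx2]
  have := sin_sq_add_cos_sq f
  field_simp
  linear_combination (S * z * s * sin w) * this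

lemma Coord.mm01 (w : ℝ) : mm s f z S q w 0 ^ 2 + mm s f z S q w 1 ^ 2
    = S ^ 2 * (cos w ^ 2 + z ^ 2 * sin w ^ 2 / q ^ 2) := by
  have hq := h.hq0.ne'
  simp only [mm, Matrix.cons_val_zero, Matrix.cons_val_one]
  have := sin_sq_add_cos_sq f
  field_simp
  linear_combination S ^ 2 * (q ^ 2 * cos w ^ 2 + z ^ 2 * sin w ^ 2) * this

lemma Coord.mm_energy (w : ℝ) : mm s f z S q w 0 ^ 2 + mm s f z S q w 1 ^ 2
    + 4 * mm s f z S q w 2 ^ 2 = 2 * (1 - x 0 / 20) := by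
  have hq := h.hq0.ne'
  rw [h.mm01]
  have e2 : mm s f z S q w 2 = -(S * s * sin w / q) := rfl
  rw [e2, h.hx0, ← h.hS]
  have t := sin_sq_add_cos_sq w
  have hq2 := h.hq
  have hz := h.hsz
  field_simp
  linear_combination S ^ 2 * (q ^ 2 * t + sin w ^ 2 * hz - sin w ^ 2 * hq2)

lemma Coord.cub_mm (w : ℝ) : cub x (mm s f z S q w) = ff s f z S q w := by
  unfold cub
  rw [h.mm01, h.hx2]
  simp only [mm, ff, Matrix.cons_val_zero, Matrix.cons_val_two,
    Matrix.tail_cons, Matrix.head_cons]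
  ring

lemma Coord.exists_mm {m : R3} (ho : dot x m = 0)
    (he : m 0 ^ 2 + m 1 ^ 2 + 4 * m 2 ^ 2 = 2 * (1 - x 0 / 20)) :
    ∃ w ∈ Set.Icc (-π) π, mm s f z S q w = m := by
  have hq := h.hq0.ne'
  have hS := h.hS0.ne'
  have hq2 := h.hq
  have hz := h.hsz
  have tf := sin_sq_add_cos_sq f
  have ho' : s * cos f * m 0 + s * sin f * m 1 + z * m 2 = 0 := by
    have : x 0 * m 0 + x 1 * m 1 + x 2 * m 2 = 0 := ho
    rwa [h.hx0, h.hx1, h.hx2] at this
  rw [h.hx0, ← h.hS] at he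
  -- components
  obtain ⟨A, hA⟩ : ∃ A, A = -(sin f * m 0) + cos f * m 1 := ⟨_, rfl⟩
  obtain ⟨B, hB⟩ : ∃ B, B = z * cos f * m 0 + z * sin f * m 1 - s * m 2 := ⟨_, rfl⟩
  have hm0 : m 0 = -(A * sin f) + B * z * cos f := by
    rw [hA, hB]
    linear_combination (-m 0) * tf + (s * cos f) * ho'
      - cos f * (cos f * m 0 + sin f * m 1) * hz
  have hm1 : m 1 = A * cos f + B * z * sin f := by
    rw [hA, hB]
    linear_combination (-m 1) * tf + (s * sin f) * ho'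
      - sin f * (cos f * m 0 + sin f * m 1) * hz
  have hm2 : m 2 = -(B * s) := by
    rw [hB]
    linear_combination z * ho' - m 2 * hz
  have hAB : (A / S) ^ 2 + (B * q / S) ^ 2 = 1 := by
    have h1 : m 0 ^ 2 + m 1 ^ 2 = A ^ 2 + B ^ 2 * z ^ 2 := by
      rw [hm0, hm1]
      linear_combination (A ^ 2 + B ^ 2 * z ^ 2) * tf
    rw [h1, hm2] at he
    field_simp
    linear_combination he + B ^ 2 * hq2 - B ^ 2 * hz
  obtain ⟨w, hw, hcw, hsw⟩ := exists_angle' hAB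
  refine ⟨w, hw, ?_⟩
  ext i
  fin_cases i
  · show S * (-(cos w * sin f) + z * cos f * sin w / q) = m 0
    rw [hcw, hsw, hm0]
    field_simp
  · show S * (cos w * cos f + z * sin f * sin w / q) = m 1
    rw [hcw, hsw, hm1]
    field_simp
  · show -(S * s * sin w / q) = m 2
    rw [hsw, hm2]
    field_simp

end

lemma ff_add_pi (s f z S q w : ℝ) : ff s f z S q (w + π) = -ff s f z S q w := by
  unfold ff
  rw [sin_add_pi, cos_add_pi]
  ring

lemma analytic_ff (s f z S q : ℝ) : AnalyticOnNhd ℝ (ff s f z S q) Set.univ := by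
  intro w _
  unfold ff
  fun_prop

lemma continuous_ff (s f z S q : ℝ) : Continuous (ff s f z S q) := by
  unfold ff
  fun_prop

/-- The level sets of the cubic integral are finite. -/
lemma finite_level {s f z S q G : ℝ} (hG : G ≠ 0) :
    {w ∈ Set.Icc (-π) π | ff s f z S q w = G}.Finite := by
  have han : AnalyticOnNhd ℝ (fun w => ff s f z S q w - G) (Set.Icc (-π) π) :=
    ((analytic_ff s f z S q).mono (Set.subset_univ _)).sub analyticOnNhd_const
  have hex : ∃ w ∈ Set.Icc (-π) π, ff s f z S q w - G ≠ 0 := by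
    by_contra hcon
    push Not at hcon
    have h1 := hcon 0 ⟨by linarith [pi_pos], pi_pos.le⟩
    have h2 := hcon π ⟨by linarith [pi_pos], le_refl _⟩
    have h3 := ff_add_pi s f z S q 0
    rw [zero_add] at h3
    apply hG
    linarith
  obtain ⟨w, hw, hne⟩ := hex
  have h4 := han.preimage_zero_mem_codiscreteWithin hne hw
    ⟨⟨w, hw⟩, isPreconnected_Icc⟩
  refine (isCompact_Icc.finite_sdiff_of_mem_codiscreteWithin h4).subset ?_
  rintro y ⟨hy, hyG⟩
  refine ⟨hy, ?_⟩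
  simp [hyG]

end Pool.Agent.H780.GC
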