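import Mathlib
import Pool.Agent.H780.GC.Ellipse

/-!
# All small values of the cubic integral are attained at each point of the sphere
-/

set_option autoImplicit false

open Real Topology

namespace Pool.Agent.H780.GC

section

variable {x : R3} {s f z S q : ℝ} (h : Coord x s f z S q)

include h

lemma Coord.S_lower : 19 / 10 ≤ S ^ 2 := by
  have := rho_lower h.mem
  rw [h.hx0] at this
  rw [h.hS]
  linarith

lemma Coord.S_upper : S ^ 2 ≤ 21 / 10 := by
  have h1 := S2_bound h.mem 0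
  have h2 : -1 ≤ x 0 := (abs_le.mp ((sq_le_one_iff_abs_le_one _).mp h1)).1
  rw [h.hx0] at h2
  rw [h.hS]
  linarith

lemma Coord.one_le_S : 1 ≤ S := by
  have h1 := h.S_lower
  have h2 := h.hS0
  by_contra hcon
  push Not at hcon
  nlinarith

lemma Coord.q_bounds : 1 ≤ q ∧ q ≤ 2 := by
  have h1 := h.hq
  have h2 := h.hq0
  have h3 := h.hsz
  constructor
  · by_contra hcon
    push Not at hcon
    nlinarith [sq_nonneg s]
  · by_contra hcon
    push Not at hcon
    nlinarith [sq_nonneg z]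

omit h in
/-- The third component of the momentum. -/
lemma mm2 (w : ℝ) : mm s f z S q w 2 = -(S * s / q * sin w) := by
  show -(S * s * sin w / q) = -(S * s / q * sin w)
  ring

lemma Coord.ff_bound (w : ℝ) {c : ℝ} (hc : mm s f z S q w 2 = c) (hc2 : c ^ 2 = 1 / 25) :
    |ff s f z S q w - c * (S ^ 2 - 4 / 25)| ≤ 3 / 40 := by
  have h1 := h.cub_mm w
  unfold cub at h1
  have h2 := h.mm_energy w
  rw [hc, h.hx0, ← h.hS, hc2] at h2
  rw [hc, h.hx2] at h1
  have h3 : mm s f z S q w 0 ^ 2 + mm s f z S q w 1 ^ 2 = S ^ 2 - 4 / 25 := by linarith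
  rw [h3] at h1
  have h4 : ff s f z S q w - c * (S ^ 2 - 4 / 25) = -(z * mm s f z S q w 0 / 20) := by
    linarith
  rw [h4, abs_neg, abs_div, abs_of_pos (show (0:ℝ) < 20 by norm_num)]
  have h5 : |z * mm s f z S q w 0| ≤ 3 / 2 := by
    apply abs_le_of_sq_le_sq _ (by norm_num)
    have h6 : mm s f z S q w 0 ^ 2 ≤ 21 / 10 := by
      have := h.S_upper
      nlinarith [sq_nonneg (mm s f z S q w 1)]
    have h7 : z ^ 2 ≤ 1 := by
      have := h.hsz
      nlinarith [sq_nonneg s]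
    rw [mul_pow]
    calc z ^ 2 * mm s f z S q w 0 ^ 2 ≤ 1 * (21 / 10) :=
          mul_le_mul h7 h6 (by positivity) (by norm_num)
      _ ≤ (3 / 2) ^ 2 := by norm_num
  linarith

lemma Coord.three : ∃ w, 1 / 10 ^ 9 ≤ |ff s f z S q w| := by
  by_contra hcon
  push Not at hcon
  have e0 := hcon 0
  have e1 := hcon (π / 2)
  have e2 := hcon (π / 6)
  have hq0 := h.hq0.ne'
  obtain ⟨hq1, hq2⟩ := h.q_bounds
  have hS1 := h.one_le_S
  have hSl := h.S_lower
  have hSu := h.S_upper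
  have hs := h.hs
  have hsz := h.hsz
  have hqq := h.hq
  have v0 : ff s f z S q 0 = z * S * sin f / 20 := by
    unfold ff
    rw [sin_zero, cos_zero]
    ring
  have v1 : ff s f z S q (π / 2) = -(S * z ^ 2 / q * (S ^ 2 * s / q ^ 2 + cos f / 20)) := by
    unfold ff
    rw [sin_pi_div_two, cos_pi_div_two]
    field_simp
    ring
  have h3 : √3 ^ 2 = 3 := sq_sqrt (by norm_num)
  have v2 : √3 / 2 * ff s f z S q 0 + 1 / 2 * ff s f z S q (π / 2) - ff s f z S q (π / 6)
      = 3 / 2 * (S * s / q) ^ 3 := by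
    rw [v0, v1]
    unfold ff
    rw [sin_pi_div_six, cos_pi_div_six]
    have : (√3 / 2) ^ 2 = 3 / 4 := by
      rw [div_pow, h3]
      norm_num
    rw [this]
    field_simp
    linear_combination (240 * S ^ 2 * s) * (hqq - hsz)
  have h3b : √3 / 2 ≤ 1 := by
    have : √3 ≤ 2 := by
      rw [show (2:ℝ) = √(2 ^ 2) by simp]
      exact sqrt_le_sqrt (by norm_num)
    linarith
  have h3c : 0 ≤ √3 / 2 := by positivity
  rw [abs_lt] at e0 e1 e2
  obtain ⟨p, hp⟩ : ∃ p, p = S * s / q := ⟨_, rfl⟩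
  have hp0 : 0 ≤ p := by
    rw [hp]
    have := h.hS0
    have := h.hq0
    positivity
  have hp3 : p ^ 3 ≤ 5 / 3 * (1 / 10 ^ 9) := by
    rw [← hp] at v2
    have : √3 / 2 * ff s f z S q 0 ≤ 1 / 10 ^ 9 := by
      calc √3 / 2 * ff s f z S q 0 ≤ √3 / 2 * (1 / 10 ^ 9) :=
            mul_le_mul_of_nonneg_left e0.2.le h3c
        _ ≤ 1 * (1 / 10 ^ 9) := mul_le_mul_of_nonneg_right h3b (by norm_num)
        _ = 1 / 10 ^ 9 := one_mul _
    linarith [e1.2, e2.1]
  have hp2 : p < 1 / 500 := by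
    by_contra hcon2
    push Not at hcon2
    have : (1 / 500 : ℝ) ^ 3 ≤ p ^ 3 := pow_le_pow_left₀ (by norm_num) hcon2 3
    norm_num at this hp3
    linarith
  have hs2 : s ≤ 1 / 250 := by
    have : s * S = p * q := by
      rw [hp]
      field_simp
    have h1 : p * q ≤ 1 / 500 * 2 := mul_le_mul hp2.le hq2 (by linarith) (by norm_num)
    have h2 : s ≤ s * S := le_mul_of_one_le_right hs hS1
    linarith
  have hz2 : 99 / 100 ≤ z ^ 2 := by nlinarith
  have hsin : sin f ^ 2 ≤ 1 / 1000 := by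
    rw [v0] at e0
    have h1 : (z * S * sin f) ^ 2 ≤ (1 / 100) ^ 2 := by
      apply sq_le_sq'
      · norm_num at e0 ⊢
        linarith
      · norm_num at e0 ⊢
        linarith
    have h2 : 1 ≤ z ^ 2 * S ^ 2 := by
      calc (1:ℝ) ≤ 99 / 100 * (19 / 10) := by norm_num
        _ ≤ z ^ 2 * S ^ 2 := mul_le_mul hz2 hSl (by norm_num) (by positivity)
    have h3 : sin f ^ 2 ≤ z ^ 2 * S ^ 2 * sin f ^ 2 := le_mul_of_one_le_left (sq_nonneg _) h2
    have h4 : (z * S * sin f) ^ 2 = z ^ 2 * S ^ 2 * sin f ^ 2 := by ring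
    rw [h4] at h1
    norm_num at h1
    linarith
  have hcos : 99 / 100 ≤ |cos f| := by
    have h1 := sin_sq_add_cos_sq f
    have h2 : (99 / 100 : ℝ) ^ 2 ≤ cos f ^ 2 := by
      norm_num
      linarith
    have h3 := sq_le_sq.mp h2
    rwa [abs_of_pos (by norm_num : (0:ℝ) < 99 / 100)] at h3
  have hS2s : 0 ≤ S ^ 2 * s / q ^ 2 := by positivity
  have hS2s' : S ^ 2 * s / q ^ 2 ≤ 1 / 100 := by
    rw [div_le_iff₀ (by positivity)]
    have h1 : S ^ 2 * s ≤ 21 / 10 * (1 / 250) := mul_le_mul hSu hs2 hs (by norm_num)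
    have h2 : 1 ≤ q ^ 2 := one_le_pow₀ hq1
    linarith
  have hfac : 99 / 200 ≤ S * z ^ 2 / q := by
    rw [le_div_iff₀ h.hq0]
    have h1 : 1 * (99 / 100) ≤ S * z ^ 2 := mul_le_mul hS1 hz2 (by norm_num) (by linarith)
    linarith
  rw [v1] at e1
  rcases le_abs.mp hcos with hc | hc
  · have h1 : 1 / 30 ≤ S ^ 2 * s / q ^ 2 + cos f / 20 := by linarith
    have h2 : 99 / 200 * (1 / 30) ≤ S * z ^ 2 / q * (S ^ 2 * s / q ^ 2 + cos f / 20) :=
      mul_le_mul hfac h1 (by norm_num) (by linarith)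
    have h3 := e1.1
    norm_num at h3 h2
    linarith
  · have h1 : 1 / 30 ≤ -(S ^ 2 * s / q ^ 2 + cos f / 20) := by linarith
    have h2 : 99 / 200 * (1 / 30) ≤ S * z ^ 2 / q * -(S ^ 2 * s / q ^ 2 + cos f / 20) :=
      mul_le_mul hfac h1 (by norm_num) (by linarith)
    have h3 := e1.2
    norm_num at h3 h2
    linarith

theorem Coord.exists_level {G : ℝ} (hG0 : 0 < G) (hG1 : G ≤ 1 / 10 ^ 9) :
    ∃ w, ff s f z S q w = G ∧ mm s f z S q w 2 ^ 2 ≤ 1 / 25 := by
  have hq0 := h.hq0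
  have hS0 := h.hS0
  have hs := h.hs
  have hG2 : G ≤ 1 / 100 := hG1.trans (by norm_num)
  rcases le_or_gt (1 / 5) (S * s / q) with hA | hB
  · obtain ⟨p, hp⟩ : ∃ p, p = S * s / q := ⟨_, rfl⟩
    rw [← hp] at hA
    have hp0 : 0 < p := by linarith
    have hy1 : 1 / (5 * p) ≤ 1 := by
      rw [div_le_one (by positivity)]
      linarith
    have hy0 : 0 < 1 / (5 * p) := by positivity
    have hsa : sin (arcsin (1 / (5 * p))) = 1 / (5 * p) := sin_arcsin (by linarith) hy1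
    have ha0 : 0 ≤ arcsin (1 / (5 * p)) := arcsin_nonneg.mpr hy0.le
    have ha1 : arcsin (1 / (5 * p)) ≤ π / 2 := arcsin_le_pi_div_two _
    generalize arcsin (1 / (5 * p)) = a at *
    have hSl := h.S_lower
    have m1 : mm s f z S q (-a) 2 = 1 / 5 := by
      rw [mm2, ← hp, sin_neg, hsa]
      field_simp
    have m2 : mm s f z S q a 2 = -(1 / 5) := by
      rw [mm2, ← hp, hsa]
      field_simp
    have f1 := h.ff_bound (-a) m1 (by norm_num)
    have f2 := h.ff_bound a m2 (by norm_num)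
    rw [abs_le] at f1 f2
    have hmem : G ∈ Set.Icc (ff s f z S q a) (ff s f z S q (-a)) :=
      ⟨by linarith [f2.2], by linarith [f1.1]⟩
    obtain ⟨w, ⟨hw1, hw2⟩, hwG⟩ := intermediate_value_Icc' (by linarith : -a ≤ a)
      (continuous_ff s f z S q).continuousOn hmem
    refine ⟨w, hwG, ?_⟩
    have hs1 : sin w ≤ 1 / (5 * p) := by
      rw [← hsa]
      exact sin_le_sin_of_le_of_le_pi_div_two (by linarith) ha1 hw2
    have hs2 : -(1 / (5 * p)) ≤ sin w := by
      rw [← hsa, ← sin_neg]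
      exact sin_le_sin_of_le_of_le_pi_div_two (by linarith) (by linarith) hw1
    rw [mm2, ← hp]
    have h1 : (-(p * sin w)) ^ 2 ≤ (1 / 5) ^ 2 := by
      apply sq_le_sq'
      · have : p * sin w ≤ p * (1 / (5 * p)) := mul_le_mul_of_nonneg_left hs1 hp0.le
        have e : p * (1 / (5 * p)) = 1 / 5 := by field_simp
        linarith
      · have : p * -(1 / (5 * p)) ≤ p * sin w := mul_le_mul_of_nonneg_left hs2 hp0.le
        have e : p * -(1 / (5 * p)) = -(1 / 5) := by field_simp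
        linarith
    norm_num at h1 ⊢
    exact h1
  · have hm : ∀ w, mm s f z S q w 2 ^ 2 ≤ 1 / 25 := by
      intro w
      rw [mm2]
      have h0 : 0 ≤ S * s / q := by positivity
      have h1 : (S * s / q) ^ 2 ≤ (1 / 5) ^ 2 := pow_le_pow_left₀ h0 hB.le 2
      have h2 := sin_sq_le_one w
      calc (-(S * s / q * sin w)) ^ 2 = (S * s / q) ^ 2 * sin w ^ 2 := by ring
        _ ≤ (1 / 5) ^ 2 * 1 := mul_le_mul h1 h2 (sq_nonneg _) (by norm_num)
        _ = 1 / 25 := by norm_num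
    obtain ⟨w0, hw0⟩ := h.three
    have hex : ∃ w1, 1 / 10 ^ 9 ≤ ff s f z S q w1 := by
      rcases le_abs.mp hw0 with hc | hc
      · exact ⟨w0, hc⟩
      · exact ⟨w0 + π, by rw [ff_add_pi]; exact hc⟩
    obtain ⟨w1, hw1⟩ := hex
    have hmem : G ∈ Set.Icc (ff s f z S q (w1 + π)) (ff s f z S q w1) := by
      refine ⟨?_, hG1.trans hw1⟩
      rw [ff_add_pi]
      linarith [show (0:ℝ) < 1 / 10 ^ 9 by norm_num]
    obtain ⟨w, -, hwG⟩ := intermediate_value_Icc' (by linarith [pi_pos] : w1 ≤ w1 + π)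
      (continuous_ff s f z S q).continuousOn hmem
    exact ⟨w, hwG, hm w⟩

end

end Pool.Agent.H780.GC
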