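import Mathlib
import Pool.Agent.H780.GC.Level
import Pool.Agent.H780.GC.Curv2

/-!
# Almost all geodesics in an open set of directions are dense
-/

set_option autoImplicit false

open Real Topology Set

namespace Pool.Agent.H780.GC

/-! ### The exceptional values of the cubic integral -/

lemma wp_lt {G G' : ℝ} (hG : 0 ≤ G) (hlt : G < G') (hG' : G' ≤ 1 / 10) (χ : ℝ) :
    wp G χ < wp G' χ := by
  have h1 := rp_lt hG hlt hG' χ
  have h2 := rp_pos hG (by linarith) χ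
  unfold wp
  nlinarith

lemma wm_lt {G G' : ℝ} (hG : 0 ≤ G) (hlt : G < G') (hG' : G' ≤ 1 / 10) (χ : ℝ) :
    wm G' χ < wm G χ := by
  have h1 := rm_lt hG hlt hG' χ
  have h2 := rm_neg (by linarith : 0 ≤ G') hG' χ
  unfold wm
  nlinarith

lemma per1_lt {G G' : ℝ} (hG : 0 ≤ G) (hlt : G < G') (hG' : G' ≤ 1 / 10) :
    per1 G' < per1 G :=
  prim_lt (continuous_wp hG (by linarith)) (continuous_wp (by linarith) hG')
    (wp_pos hG (by linarith)) (wp_lt hG hlt hG')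

lemma per2_lt {G G' : ℝ} (hG : 0 ≤ G) (hlt : G < G') (hG' : G' ≤ 1 / 10) :
    per2 G < per2 G' :=
  prim_lt (continuous_wm (by linarith) hG') (continuous_wm hG (by linarith))
    (wm_pos (by linarith) hG') (wm_lt hG hlt hG')

lemma per1_pos {G : ℝ} (hG : 0 ≤ G) (hG' : G ≤ 1 / 10) : 0 < per1 G :=
  prim_two_pi_pos (continuous_wp hG hG') (wp_pos hG hG')

lemma per2_pos {G : ℝ} (hG : 0 ≤ G) (hG' : G ≤ 1 / 10) : 0 < per2 G :=
  prim_two_pi_pos (continuous_wm hG hG') (wm_pos hG hG')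

lemma ratio_lt {G G' : ℝ} (hG : 0 ≤ G) (hlt : G < G') (hG' : G' ≤ 1 / 10) :
    per1 G' / per2 G' < per1 G / per2 G :=
  div_lt_div₀ (per1_lt hG hlt hG') (per2_lt hG hlt hG').le (per1_pos hG (by linarith)).le
    (per2_pos hG (by linarith))

/-- The values with commensurable periods. -/
def Bad : Set ℝ := {G | G ∈ Icc (0:ℝ) (1 / 10) ∧ ¬ Irrational (per1 G / per2 G)}

lemma countable_Bad : Bad.Countable := by
  have hinj : InjOn (fun G => per1 G / per2 G) Bad := by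
    rintro G ⟨⟨h1, h2⟩, -⟩ G' ⟨⟨h1', h2'⟩, -⟩ heq
    rcases lt_trichotomy G G' with h | h | h
    · exact absurd heq (ratio_lt h1 h h2').ne'
    · exact h
    · exact absurd heq (ratio_lt h1' h h2).ne
  have hmaps : MapsTo (fun G => per1 G / per2 G) Bad (range ((↑) : ℚ → ℝ)) := by
    rintro G ⟨-, h⟩
    unfold Irrational at h
    push Not at h
    exact h
  exact hmaps.countable_of_injOn hinj (countable_range _)

/-! ### Momentum of a velocity vector -/

/-- The vector `v × x - (3 η / q) (x₁ x₃, x₂ x₃, -(x₁² + x₂²))`, `η = x₁ v₂ - x₂ v₁`. -/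
noncomputable def mom (x v : R3) : R3 :=
  ![√2 * (1 - x 0 / 20) * ((v 1 * x 2 - v 2 * x 1) - 3 * (x 0 * v 1 - x 1 * v 0)
        / (1 + 3 * (x 0 ^ 2 + x 1 ^ 2)) * (x 0 * x 2)),
    √2 * (1 - x 0 / 20) * ((v 2 * x 0 - v 0 * x 2) - 3 * (x 0 * v 1 - x 1 * v 0)
        / (1 + 3 * (x 0 ^ 2 + x 1 ^ 2)) * (x 1 * x 2)),
    √2 * (1 - x 0 / 20) * ((v 0 * x 1 - v 1 * x 0) + 3 * (x 0 * v 1 - x 1 * v 0)
        / (1 + 3 * (x 0 ^ 2 + x 1 ^ 2)) * (x 0 ^ 2 + x 1 ^ 2))]

lemma continuous_mom (x : R3) : Continuous (mom x) := by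
  have h0 : Continuous fun v : R3 => v 0 := continuous_apply 0
  have h1 : Continuous fun v : R3 => v 1 := continuous_apply 1
  have h2 : Continuous fun v : R3 => v 2 := continuous_apply 2
  refine continuous_pi fun i => ?_
  fin_cases i
  · show Continuous fun v : R3 => √2 * (1 - x 0 / 20) * ((v 1 * x 2 - v 2 * x 1)
      - 3 * (x 0 * v 1 - x 1 * v 0) / (1 + 3 * (x 0 ^ 2 + x 1 ^ 2)) * (x 0 * x 2))
    fun_prop
  · show Continuous fun v : R3 => √2 * (1 - x 0 / 20) * ((v 2 * x 0 - v 0 * x 2)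
      - 3 * (x 0 * v 1 - x 1 * v 0) / (1 + 3 * (x 0 ^ 2 + x 1 ^ 2)) * (x 1 * x 2))
    fun_prop
  · show Continuous fun v : R3 => √2 * (1 - x 0 / 20) * ((v 0 * x 1 - v 1 * x 0)
      + 3 * (x 0 * v 1 - x 1 * v 0) / (1 + 3 * (x 0 ^ 2 + x 1 ^ 2)) * (x 0 ^ 2 + x 1 ^ 2))
    fun_prop

lemma mom_orth (x v : R3) : dot x (mom x v) = 0 := by
  simp only [dot, mom, Matrix.cons_val_zero, Matrix.cons_val_one, Matrix.cons_val_two,
    Matrix.tail_cons, Matrix.head_cons]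
  ring

lemma velo_mom {x v : R3} (hx : x ∈ S2) (hv : dot x v = 0) :
    velo x (mom x v) = (√2 * (1 - x 0 / 20)) • v := by
  have hx' : x 0 * x 0 + x 1 * x 1 + x 2 * x 2 = 1 := hx
  have hv' : x 0 * v 0 + x 1 * v 1 + x 2 * v 2 = 0 := hv
  have hq : (1 + 3 * (x 0 ^ 2 + x 1 ^ 2)) ≠ 0 := by positivity
  obtain ⟨t, ht⟩ : ∃ t, t = 3 * (x 0 * v 1 - x 1 * v 0) / (1 + 3 * (x 0 ^ 2 + x 1 ^ 2)) := ⟨_, rfl⟩
  have ht' : t * (1 + 3 * (x 0 ^ 2 + x 1 ^ 2)) = 3 * (x 0 * v 1 - x 1 * v 0) := by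
    rw [ht]
    field_simp
  ext i
  fin_cases i
  · show 4 * x 1 * mom x v 2 - x 2 * mom x v 1 = √2 * (1 - x 0 / 20) * v 0
    simp only [mom, Matrix.cons_val_zero, Matrix.cons_val_one, Matrix.cons_val_two,
      Matrix.tail_cons, Matrix.head_cons]
    rw [← ht]
    generalize √2 * (1 - x 0 / 20) = k
    linear_combination k * (x 1 * ht' + (x 1 * t + v 0) * hx' - x 0 * hv')
  · show x 2 * mom x v 0 - 4 * x 0 * mom x v 2 = √2 * (1 - x 0 / 20) * v 1
    simp only [mom, Matrix.cons_val_zero, Matrix.cons_val_two, Matrix.tail_cons, Matrix.head_cons]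
    rw [← ht]
    generalize √2 * (1 - x 0 / 20) = k
    linear_combination k * ((v 1 - x 0 * t) * hx' - x 0 * ht' - x 1 * hv')
  · show x 0 * mom x v 1 - x 1 * mom x v 0 = √2 * (1 - x 0 / 20) * v 2
    simp only [mom, Matrix.cons_val_zero, Matrix.cons_val_one]
    rw [← ht]
    generalize √2 * (1 - x 0 / 20) = k
    linear_combination k * (v 2 * hx' - x 2 * hv')

lemma mom_velo {x m : R3} (hx : x ∈ S2) (hm : dot x m = 0) (k : ℝ) :
    mom x (k • velo x m) = (√2 * (1 - x 0 / 20) * k) • m := by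
  have hx' : x 0 * x 0 + x 1 * x 1 + x 2 * x 2 = 1 := hx
  have hm' : x 0 * m 0 + x 1 * m 1 + x 2 * m 2 = 0 := hm
  have hq : (1 + 3 * (x 0 ^ 2 + x 1 ^ 2)) ≠ 0 := by positivity
  have hη := eta_velo hx hm
  have ht : 3 * (x 0 * (k • velo x m) 1 - x 1 * (k • velo x m) 0) / (1 + 3 * (x 0 ^ 2 + x 1 ^ 2))
      = -3 * k * m 2 := by
    rw [div_eq_iff hq]
    simp only [Pi.smul_apply, smul_eq_mul]
    linear_combination 3 * k * hη
  unfold mom
  rw [ht]
  generalize √2 * (1 - x 0 / 20) = K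
  ext i
  fin_cases i
  · show K * ((k * (x 2 * m 0 - 4 * x 0 * m 2) * x 2 - k * (x 0 * m 1 - x 1 * m 0) * x 1)
      - -3 * k * m 2 * (x 0 * x 2)) = K * k * m 0
    linear_combination K * k * (m 0 * hx' - x 0 * hm')
  · show K * ((k * (x 0 * m 1 - x 1 * m 0) * x 0 - k * (4 * x 1 * m 2 - x 2 * m 1) * x 2)
      - -3 * k * m 2 * (x 1 * x 2)) = K * k * m 1
    linear_combination K * k * (m 1 * hx' - x 1 * hm')
  · show K * ((k * (4 * x 1 * m 2 - x 2 * m 1) * x 1 - k * (x 2 * m 0 - 4 * x 0 * m 2) * x 0)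
      + -3 * k * m 2 * (x 0 ^ 2 + x 1 ^ 2)) = K * k * m 2
    linear_combination K * k * (m 2 * hx' - x 2 * hm')

lemma continuous_cub_mom (x : R3) : Continuous fun v => cub x (mom x v) := by
  have h := continuous_mom x
  have h0 : Continuous fun v => mom x v 0 := (continuous_apply 0).comp h
  have h1 : Continuous fun v => mom x v 1 := (continuous_apply 1).comp h
  have h2 : Continuous fun v => mom x v 2 := (continuous_apply 2).comp h
  unfold cub
  fun_prop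

/-- The velocity is the velocity of its momentum. -/
lemma smul_velo_mom {x v : R3} (hx : x ∈ S2) (hv : dot x v = 0) :
    (1 / (√2 * (1 - x 0 / 20))) • velo x (mom x v) = v := by
  have hρ := rho_lower hx
  have h1 : √2 * (1 - x 0 / 20) ≠ 0 := by
    have : 0 < √2 * (1 - x 0 / 20) := by positivity
    exact this.ne'
  rw [velo_mom hx hv, smul_smul, one_div, inv_mul_cancel₀ h1, one_smul]

lemma energy_mom {x v : R3} (hx : x ∈ S2) (hv : v ∈ gcMetric.unitTangent x) :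
    mom x v 0 ^ 2 + mom x v 1 ^ 2 + 4 * mom x v 2 ^ 2 = 2 * (1 - x 0 / 20) := by
  obtain ⟨hv0, hv1⟩ := hv
  have hρ := rho_lower hx
  have h1 := smul_velo_mom hx hv0
  rw [← h1, ip_smul_left, ip_smul_right, ip_velo_velo hx (mom_orth x v)] at hv1
  have h2 : √2 ^ 2 = 2 := sq_sqrt (by norm_num)
  have h3 : √2 ≠ 0 := by positivity
  have h4 : (1 - x 0 / 20) ≠ 0 := by linarith
  generalize (1 - x 0 / 20) = ρ at *
  generalize mom x v 0 ^ 2 + mom x v 1 ^ 2 + 4 * mom x v 2 ^ 2 = E at *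
  field_simp at hv1
  rw [hv1, h2]

lemma unitTangent_velo {x m : R3} (hx : x ∈ S2) (hm : dot x m = 0)
    (he : m 0 ^ 2 + m 1 ^ 2 + 4 * m 2 ^ 2 = 2 * (1 - x 0 / 20)) :
    (1 / (√2 * (1 - x 0 / 20))) • velo x m ∈ gcMetric.unitTangent x := by
  have hρ := rho_lower hx
  have h2 : √2 ^ 2 = 2 := sq_sqrt (by norm_num)
  have h3 : √2 ≠ 0 := by positivity
  constructor
  · have hm' : x 0 * m 0 + x 1 * m 1 + x 2 * m 2 = 0 := hm
    simp only [dot, velo, Pi.smul_apply, smul_eq_mul, Matrix.cons_val_zero, Matrix.cons_val_one,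
      Matrix.cons_val_two, Matrix.tail_cons, Matrix.head_cons]
    ring
  · rw [ip_smul_left, ip_smul_right, ip_velo_velo hx hm, he]
    generalize (1 - x 0 / 20) = ρ at *
    have h4 : ρ ≠ 0 := by linarith
    field_simp
    linarith

lemma mom_velo' {x m : R3} (hx : x ∈ S2) (hm : dot x m = 0) :
    mom x ((1 / (√2 * (1 - x 0 / 20))) • velo x m) = m := by
  have hρ := rho_lower hx
  have h1 : √2 * (1 - x 0 / 20) ≠ 0 := by
    have : 0 < √2 * (1 - x 0 / 20) := by positivity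
    exact this.ne'
  rw [mom_velo hx hm, one_div, mul_inv_cancel₀ h1, one_smul]

/-! ### The main theorem -/

theorem main : gcMetric.PositivelyCurved ∧ ∀ x ∈ S2, ∃ U : Set R3, IsOpen U ∧
    (U ∩ gcMetric.unitTangent x).Nonempty ∧ ∃ C : Set R3, C.Countable ∧
    ∀ v ∈ (U ∩ gcMetric.unitTangent x) \ C, ∃ γ : ℝ → R3, gcMetric.IsGeodesic γ ∧ γ 0 = x ∧
      deriv γ 0 = v ∧ S2 ⊆ closure (range γ) := by
  refine ⟨gcMetric_positivelyCurved, ?_⟩
  intro x hx
  obtain ⟨s, f, z, S, q, h⟩ := exists_coord hx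
  refine ⟨{v | mom x v 2 ^ 2 < 1 / 16 ∧ 0 < cub x (mom x v) ∧ cub x (mom x v) < 1 / 10 ^ 9},
    ?_, ?_, {v ∈ gcMetric.unitTangent x | cub x (mom x v) ∈ Bad ∧ cub x (mom x v) ≠ 0}, ?_, ?_⟩
  · have h2 : Continuous fun v => mom x v 2 := (continuous_apply 2).comp (continuous_mom x)
    have h3 := continuous_cub_mom x
    exact (isOpen_lt (h2.pow 2) continuous_const).inter
      ((isOpen_lt continuous_const h3).inter (isOpen_lt h3 continuous_const))
  · obtain ⟨w, hw, hw2⟩ := h.exists_level (G := 1 / (2 * 10 ^ 9)) (by norm_num) (by norm_num)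
    refine ⟨_, ?_, unitTangent_velo hx (h.mm_orth w) (h.mm_energy w)⟩
    show mom x _ 2 ^ 2 < 1 / 16 ∧ 0 < cub x (mom x _) ∧ cub x (mom x _) < 1 / 10 ^ 9
    rw [mom_velo' hx (h.mm_orth w), h.cub_mm w, hw]
    refine ⟨by linarith, by norm_num, by norm_num⟩
  · have hsub : {v ∈ gcMetric.unitTangent x | cub x (mom x v) ∈ Bad ∧ cub x (mom x v) ≠ 0} ⊆
        ⋃ G ∈ {G ∈ Bad | G ≠ 0}, (fun w => (1 / (√2 * (1 - x 0 / 20))) • velo x (mm s f z S q w)) ''
          {w ∈ Icc (-π) π | ff s f z S q w = G} := by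
      rintro v ⟨hv, hvB, hv0⟩
      obtain ⟨w, hw, hwm⟩ := h.exists_mm (mom_orth x v) (energy_mom hx hv)
      rw [mem_iUnion₂]
      refine ⟨cub x (mom x v), ⟨hvB, hv0⟩, w, ⟨hw, ?_⟩, ?_⟩
      · rw [← h.cub_mm w, hwm]
      · show (1 / (√2 * (1 - x 0 / 20))) • velo x (mm s f z S q w) = v
        rw [hwm]
        exact smul_velo_mom hx hv.1
    refine Countable.mono hsub ?_
    refine Countable.biUnion (countable_Bad.mono (fun G hG => hG.1)) ?_
    rintro G ⟨-, hG⟩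
    exact (finite_level hG).countable.image _
  · rintro v ⟨⟨⟨hv2, hv0, hv1⟩, hvt⟩, hvC⟩
    obtain ⟨G, hG⟩ : ∃ G, G = cub x (mom x v) := ⟨_, rfl⟩
    rw [← hG] at hv0 hv1
    have hG1 : G ≤ 1 / 10 := hv1.le.trans (by norm_num)
    have hirr : Irrational (per1 G / per2 G) := by
      by_contra hcon
      apply hvC
      refine ⟨hvt, ?_, ?_⟩
      · rw [← hG]
        exact ⟨⟨hv0.le, hG1⟩, hcon⟩
      · rw [← hG]
        exact hv0.ne'
    obtain ⟨a0, b0, hP, hM⟩ := exists_angles hv0.le hG1 hx (mom_orth x v) (energy_mom hx hvt)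
      hG.symm hv2.le
    obtain ⟨γ, hγ, hγ0, hγ1, hγd⟩ := exists_geodesic hv0.le hG1 a0 b0
    refine ⟨γ, hγ, hγ0.trans hP, ?_, ?_⟩
    · rw [hγ1, hP, hM]
      exact smul_velo_mom hx hvt.1
    · intro y hy
      obtain ⟨s', f', z', S', q', h'⟩ := exists_coord hy
      obtain ⟨w, hw, hw2⟩ := h'.exists_level hv0 hv1.le
      obtain ⟨a, b, hP', -⟩ := exists_angles hv0.le hG1 hy (h'.mm_orth w) (h'.mm_energy w)
        ((h'.cub_mm w).trans hw) (hw2.trans (by norm_num))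
      rw [← hP']
      exact hγd hirr a b

end Pool.Agent.H780.GC
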